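import Pool.Agent.N980.NU.Base

/-!
Convolution estimates for the bilinear term.
-/

open MeasureTheory Set Filter Topology

set_option linter.unusedVariables false

namespace Pool.Agent.N980.NU

open Pool.Agent.H356R3.NS

/-- Convolution of nonnegative families. -/
noncomputable def cc (a b : K → ℝ) (k : K) : ℝ := ∑' l, a l * b (k - l)

section
variable {a b : K → ℝ} (ha : Summable a) (hb : Summable b) (a0 : ∀ k, 0 ≤ a k) (b0 : ∀ k, 0 ≤ b k)
include ha hb a0 b0

theorem cc_term_summ (k : K) : Summable fun l => a l * b (k - l) := by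
  refine (ha.mul_right (∑' l, b l)).of_nonneg_of_le (fun l => mul_nonneg (a0 _) (b0 _)) fun l => ?_
  exact mul_le_mul_of_nonneg_left (hb.le_tsum _ fun _ _ => b0 _) (a0 l)

theorem cc_summ : Summable (cc a b) := summ_conv ha hb a0 b0

theorem cc_tsum : ∑' k, cc a b k = (∑' k, a k) * ∑' k, b k := by
  have h1 := ha.mul_of_nonneg hb a0 b0
  let e : K × K ≃ K × K :=
    { toFun := fun p => (p.2, p.1 - p.2)
      invFun := fun p => (p.1 + p.2, p.1)
      left_inv := fun p => by simp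
      right_inv := fun p => by simp }
  have h2 : Summable fun p : K × K => a p.2 * b (p.1 - p.2) := (e.summable_iff).2 h1
  have h3 : ∑' p : K × K, a p.2 * b (p.1 - p.2) = ∑' p : K × K, a p.1 * b p.2 :=
    e.tsum_eq fun p => a p.1 * b p.2
  have h4 := h2.tsum_prod
  unfold cc
  rw [← h4, h3, ha.tsum_mul_tsum hb h1]

theorem cc_le_mul (k : K) : cc a b k ≤ (∑' k, a k) * ∑' k, b k := by
  rw [← tsum_mul_right]
  refine (cc_term_summ ha hb a0 b0 k).tsum_le_tsum (fun l => ?_) (ha.mul_right _)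
  exact mul_le_mul_of_nonneg_left (hb.le_tsum _ fun _ _ => b0 _) (a0 l)

end

theorem cc_nonneg {a b : K → ℝ} (a0 : ∀ k, 0 ≤ a k) (b0 : ∀ k, 0 ≤ b k) (k : K) : 0 ≤ cc a b k :=
  tsum_nonneg fun _ => mul_nonneg (a0 _) (b0 _)

theorem cc_comm (a b : K → ℝ) (k : K) : cc a b k = cc b a k := by
  unfold cc
  rw [← (Equiv.subLeft k).tsum_eq]
  refine tsum_congr fun l => ?_
  simp only [Equiv.subLeft_apply, sub_sub_cancel]
  ring

theorem cc_mono {a b a' b' : K → ℝ} (ha : Summable a') (hb : Summable b') (a0 : ∀ k, 0 ≤ a k)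
    (b0 : ∀ k, 0 ≤ b k) (h1 : ∀ k, a k ≤ a' k) (h2 : ∀ k, b k ≤ b' k) (k : K) :
    cc a b k ≤ cc a' b' k := by
  have a0' : ∀ k, 0 ≤ a' k := fun k => (a0 k).trans (h1 k)
  have b0' : ∀ k, 0 ≤ b' k := fun k => (b0 k).trans (h2 k)
  have hs := cc_term_summ ha hb a0' b0' k
  have hle : ∀ l, a l * b (k - l) ≤ a' l * b' (k - l) := fun l =>
    mul_le_mul (h1 _) (h2 _) (b0 _) (a0' _)
  exact (hs.of_nonneg_of_le (fun l => mul_nonneg (a0 _) (b0 _)) hle).tsum_le_tsum hle hs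

section
variable {a : K → ℝ} (ha : Summable a) (a0 : ∀ k, 0 ≤ a k)
include ha a0

theorem cc_nk (h1 : Summable fun k => nk k * a k) (k : K) :
    nk k * cc a a k ≤ 2 * cc (fun k => nk k * a k) a k := by
  have n0 : ∀ k, 0 ≤ nk k * a k := fun k => mul_nonneg (nk_nonneg k) (a0 k)
  have s1 := cc_term_summ h1 ha n0 a0 k
  have s2 := cc_term_summ ha h1 a0 n0 k
  have s0 := cc_term_summ ha ha a0 a0 k
  have e : 2 * cc (fun k => nk k * a k) a k
      = cc (fun k => nk k * a k) a k + cc a (fun k => nk k * a k) k := by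
    rw [cc_comm a (fun k => nk k * a k)]; ring
  rw [e]
  unfold cc
  rw [← tsum_mul_left, ← s1.tsum_add s2]
  refine (s0.mul_left _).tsum_le_tsum (fun l => ?_) (s1.add s2)
  have h2 := nk_sub k l
  have h3 : 0 ≤ a l * a (k - l) := mul_nonneg (a0 _) (a0 _)
  nlinarith

theorem cc_nk2 (h1 : Summable fun k => nk k ^ 2 * a k) (k : K) :
    nk k ^ 2 * cc a a k ≤ 4 * cc (fun k => nk k ^ 2 * a k) a k := by
  have n0 : ∀ k, 0 ≤ nk k ^ 2 * a k := fun k => mul_nonneg (sq_nonneg _) (a0 k)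
  have s1 := cc_term_summ h1 ha n0 a0 k
  have s2 := cc_term_summ ha h1 a0 n0 k
  have s0 := cc_term_summ ha ha a0 a0 k
  have e : 4 * cc (fun k => nk k ^ 2 * a k) a k
      = 2 * (cc (fun k => nk k ^ 2 * a k) a k + cc a (fun k => nk k ^ 2 * a k) k) := by
    rw [cc_comm a (fun k => nk k ^ 2 * a k)]; ring
  rw [e]
  unfold cc
  rw [← tsum_mul_left, ← s1.tsum_add s2, ← tsum_mul_left]
  refine (s0.mul_left _).tsum_le_tsum (fun l => ?_) ((s1.add s2).mul_left _)
  have h2 := nk_sub k l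
  have h3 : 0 ≤ a l * a (k - l) := mul_nonneg (a0 _) (a0 _)
  have h4 : nk k ^ 2 ≤ 2 * (nk l ^ 2 + nk (k - l) ^ 2) := by
    have := nk_nonneg k
    have := nk_nonneg l
    have := nk_nonneg (k - l)
    nlinarith [sq_nonneg (nk l - nk (k - l))]
  calc nk k ^ 2 * (a l * a (k - l)) ≤ 2 * (nk l ^ 2 + nk (k - l) ^ 2) * (a l * a (k - l)) :=
        mul_le_mul_of_nonneg_right h4 h3
    _ = _ := by ring

theorem summ_nk_of_nk2 (h1 : Summable fun k => nk k ^ 2 * a k) : Summable fun k => nk k * a k := by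
  refine (h1.add ha).of_nonneg_of_le (fun k => mul_nonneg (nk_nonneg k) (a0 k)) fun k => ?_
  have := a0 k
  nlinarith [sq_nonneg (nk k - 1), nk_nonneg k]

end

/-- The constant in the bilinear estimate. -/
noncomputable def C1 : ℝ := 5 * C0

theorem C1_pos : 0 < C1 := by unfold C1; have := C0_pos; positivity

theorem norm_Bf_le {x y : K → C3} (hx : SN x) (hy : SN y) (k : K) :
    ‖Bf x y k‖ ≤ C0 * nk k * cc (fun k => ‖x k‖) (fun k => ‖y k‖) k := by
  have h1 := enorm_Bf_le x y k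
  have hs := cc_term_summ hx hy (fun _ => norm_nonneg _) (fun _ => norm_nonneg _) k
  have e : ∑' l, ‖x l‖ₑ * ‖y (k - l)‖ₑ = ENNReal.ofReal (cc (fun k => ‖x k‖) (fun k => ‖y k‖) k) := by
    unfold cc
    rw [ENNReal.ofReal_tsum_of_nonneg (fun l => by positivity) hs]
    refine tsum_congr fun l => ?_
    rw [ENNReal.ofReal_mul (norm_nonneg _), ofReal_norm, ofReal_norm]
  have hc := cc_nonneg (a := fun k => ‖x k‖) (b := fun k => ‖y k‖) (fun _ => norm_nonneg _)
    (fun _ => norm_nonneg _) k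
  have hn := mul_nonneg C0_pos.le (nk_nonneg k)
  rw [e, ← ENNReal.ofReal_mul hn, ← ofReal_norm, ENNReal.ofReal_le_ofReal_iff (mul_nonneg hn hc)] at h1
  exact h1

theorem SN_of_nw {x : K → C3} (hx : Summable fun k => nw (x k)) : SN x :=
  hx.of_nonneg_of_le (fun _ => norm_nonneg _) fun k => norm_le_nw _

theorem nw_of_SN {x : K → C3} (hx : SN x) : Summable fun k => nw (x k) :=
  (hx.mul_left 5).of_nonneg_of_le (fun _ => nw_nonneg _) fun k => nw_le_norm _

theorem nw_Bf_le {x : K → C3} (hx : Summable fun k => nw (x k)) (k : K) :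
    nw (Bf x x k) ≤ C1 * nk k * cc (fun k => nw (x k)) (fun k => nw (x k)) k := by
  have h1 := norm_Bf_le (SN_of_nw hx) (SN_of_nw hx) k
  have h2 := cc_mono hx hx (fun _ => norm_nonneg _) (fun _ => norm_nonneg _)
    (fun k => norm_le_nw (x k)) (fun k => norm_le_nw (x k)) k
  calc nw (Bf x x k) ≤ 5 * ‖Bf x x k‖ := nw_le_norm _
    _ ≤ 5 * (C0 * nk k * cc (fun k => nw (x k)) (fun k => nw (x k)) k) := by
        refine mul_le_mul_of_nonneg_left (h1.trans ?_) (by norm_num)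
        exact mul_le_mul_of_nonneg_left h2 (mul_nonneg C0_pos.le (nk_nonneg k))
    _ = _ := by unfold C1; ring

/-- The two summed estimates. -/
theorem sum_nk_cc {a : K → ℝ} (ha : Summable a) (a0 : ∀ k, 0 ≤ a k)
    (h2 : Summable fun k => nk k ^ 2 * a k) (S : Finset K) :
    ∑ k ∈ S, nk k * cc a a k ≤ 2 * ((∑' k, nk k * a k) * ∑' k, a k) := by
  have h1 := summ_nk_of_nk2 ha a0 h2
  have n0 : ∀ k, 0 ≤ nk k * a k := fun k => mul_nonneg (nk_nonneg k) (a0 k)
  have hs := cc_summ h1 ha n0 a0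
  calc ∑ k ∈ S, nk k * cc a a k ≤ ∑ k ∈ S, 2 * cc (fun k => nk k * a k) a k :=
        Finset.sum_le_sum fun k _ => cc_nk ha a0 h1 k
    _ = 2 * ∑ k ∈ S, cc (fun k => nk k * a k) a k := by rw [Finset.mul_sum]
    _ ≤ 2 * ∑' k, cc (fun k => nk k * a k) a k := by
        refine mul_le_mul_of_nonneg_left ?_ (by norm_num)
        exact hs.sum_le_tsum _ fun k _ => cc_nonneg n0 a0 k
    _ = _ := by rw [cc_tsum h1 ha n0 a0]

theorem sum_nk2_cc {a : K → ℝ} (ha : Summable a) (a0 : ∀ k, 0 ≤ a k)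
    (h2 : Summable fun k => nk k ^ 2 * a k) (S : Finset K) :
    ∑ k ∈ S, nk k ^ 2 * cc a a k ≤ 4 * ((∑' k, nk k ^ 2 * a k) * ∑' k, a k) := by
  have n0 : ∀ k, 0 ≤ nk k ^ 2 * a k := fun k => mul_nonneg (sq_nonneg _) (a0 k)
  have hs := cc_summ h2 ha n0 a0
  calc ∑ k ∈ S, nk k ^ 2 * cc a a k ≤ ∑ k ∈ S, 4 * cc (fun k => nk k ^ 2 * a k) a k :=
        Finset.sum_le_sum fun k _ => cc_nk2 ha a0 h2 k
    _ = 4 * ∑ k ∈ S, cc (fun k => nk k ^ 2 * a k) a k := by rw [Finset.mul_sum]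
    _ ≤ 4 * ∑' k, cc (fun k => nk k ^ 2 * a k) a k := by
        refine mul_le_mul_of_nonneg_left ?_ (by norm_num)
        exact hs.sum_le_tsum _ fun k _ => cc_nonneg n0 a0 k
    _ = _ := by rw [cc_tsum h2 ha n0 a0]

end Pool.Agent.N980.NU
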