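import Pool.Agent.N980.NU.Kp3
import Pool.Agent.H356R3.NS.Reg4
import Pool.Agent.H459R3.NS.Evo

/-!
From Fourier side solutions to classical solutions.
-/

open MeasureTheory Set Filter Topology
open scoped ContDiff

set_option linter.unusedVariables false

namespace Pool.Agent.N980.NU

open Pool.Agent.H356R3.NS (K C3 E3 R3 ex SN Sym RD TT SF SFam Fam cf' at' nk pw fj dS Bf dt cvv PF dU Ph Dm')

/-- The velocity. -/
noncomputable def UU (u : Fam) (t : ℝ) (x : V) : V := fun i => (fs (fun k => u k t i) x).re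

/-- The pressure. -/
noncomputable def PP (u : Fam) (t : ℝ) (x : V) : ℝ := (fs (fun k => PF u k t) x).re

/-- The inverse of the time change. -/
noncomputable def ti (t1 t2 t : ℝ) : ℝ := -Real.log ((t2 - t) / (t2 - t1))

theorem ti_pos {t1 t2 t : ℝ} (h1 : t1 < t) (h2 : t < t2) : 0 < ti t1 t2 t := by
  unfold ti
  rw [neg_pos]
  apply Real.log_neg
  · exact div_pos (by linarith) (by linarith)
  · rw [div_lt_one (by linarith)]; linarith

theorem ed_ti {t1 t2 t : ℝ} (h1 : t1 < t) (h2 : t < t2) : ed (ti t1 t2 t) = (t2 - t) / (t2 - t1) := by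
  unfold ed
  rw [max_eq_left (ti_pos h1 h2).le]
  unfold ti
  rw [neg_neg, Real.exp_log (div_pos (by linarith) (by linarith))]

theorem tc_ti {t1 t2 t : ℝ} (h1 : t1 < t) (h2 : t < t2) : tc t1 t2 (ti t1 t2 t) = t := by
  unfold tc
  rw [ed_ti h1 h2]
  have : t2 - t1 ≠ 0 := by linarith
  field_simp
  ring

theorem ti_deriv {t1 t2 t : ℝ} (h1 : t1 < t) (h2 : t < t2) : HasDerivAt (ti t1 t2) (1 / (t2 - t)) t := by
  have h3 : HasDerivAt (fun s => (t2 - s) / (t2 - t1)) (-1 / (t2 - t1)) t := by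
    exact ((hasDerivAt_id' t).const_sub t2).div_const _
  have h4 : (t2 - t) / (t2 - t1) ≠ 0 := (div_pos (by linarith) (by linarith)).ne'
  have h5 := (h3.log h4).fun_neg
  refine h5.congr_deriv ?_
  have h6 : t2 - t1 ≠ 0 := by linarith
  have h7 : t2 - t ≠ 0 := by linarith
  field_simp

theorem ti_smooth (t1 t2 : ℝ) (h12 : t1 < t2) : ContDiffOn ℝ ∞ (ti t1 t2) (Ioo t1 t2) := by
  unfold ti
  refine ContDiffOn.neg (ContDiffOn.log ?_ ?_)
  · exact (contDiff_const.sub contDiff_id).contDiffOn.div_const _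
  · intro t ht
    exact (div_pos (by linarith [ht.2]) (by linarith)).ne'

variable {ν T : ℝ} {lam : ℕ → ℝ} {a : K → C3} {u : Fam}

/-- The solution property with the constants of the equation. -/
abbrev NSol (ν : ℝ) (lam : ℕ → ℝ) (T : ℝ) (a : K → C3) (u : Fam) : Prop :=
  LSol (4 * Real.pi ^ 2 * ν) (kap lam) T a u

theorem NSol.rd (h : NSol ν lam T a u) (hν : 0 < ν) {t : ℝ} (ht : t ∈ Ioo 0 T) (i : Fin 3) :
    RD (cst fun k => u k t i) := by
  have hc : 0 < 4 * Real.pi ^ 2 * ν := by positivity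
  intro m
  obtain ⟨b, hb, hb0, hbd⟩ := h.smooth hc m t ht.1
  refine ⟨b, hb, fun k s => ?_⟩
  refine le_trans ?_ (hbd k t ⟨le_rfl, ht.2.le⟩)
  refine mul_le_mul_of_nonneg_left ?_ (pow_pos (H356R3.NS.pw_pos k) m).le
  exact (norm_le_pi_norm _ i).trans (norm_le_nw _)

theorem NSol.sn (h : NSol ν lam T a u) {t : ℝ} (ht : t ∈ Icc 0 T) : SN (at' u t) := by
  obtain ⟨B, hB, hd⟩ := h.dom
  exact hB.of_nonneg_of_le (fun _ => norm_nonneg _) fun k => (norm_le_nw _).trans (hd k t ht)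

theorem NSol.real (h : NSol ν lam T a u) {t : ℝ} (ht : t ∈ Icc 0 T) (i : Fin 3) (x : V) :
    ((UU u t x i : ℝ) : ℂ) = fs (fun k => u k t i) x := by
  have h1 : (fs (fun k => u k t i) x).im = 0 := by
    rw [fs_SF]
    exact H356R3.NS.SF_real (c := cst fun k => u k t i) (fun k s => h.sym t ht k i) _
  apply Complex.ext
  · rfl
  · rw [h1]; simp

theorem NSol.fco (h : NSol ν lam T a u) {t : ℝ} (ht : t ∈ Icc 0 T) : fco (UU u t) = at' u t := by
  funext k i
  exact fco_fs (a := at' u t) (h.sn ht) (h.sym t ht) k i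

theorem NSol.spv (h : NSol ν lam T a u) (hν : 0 < ν) {t : ℝ} (ht : t ∈ Ioo 0 T) : SPV (UU u t) := by
  refine ⟨contDiff_pi.2 fun i => fs_smooth (h.rd hν ht i), fun x j => ?_⟩
  funext i
  unfold UU
  rw [fs_per]

theorem NSol.cont_on (h : NSol ν lam T a u) :
    ContinuousOn (fun z : ℝ × V => UU u z.1 z.2) (Icc 0 T ×ˢ univ) := by
  obtain ⟨B, hB, hd⟩ := h.dom
  rw [continuousOn_pi]
  intro i
  refine Complex.continuous_re.comp_continuousOn ?_
  unfold fs
  refine continuousOn_tsum (u := B) (fun k => ?_) hB fun k z hz => ?_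
  · refine ContinuousOn.mul ?_ ((H356R3.NS.ex_cont k).comp continuous_snd).continuousOn
    exact (continuous_apply i).comp_continuousOn ((h.cont k).comp continuousOn_fst fun z hz => hz.1)
  · rw [norm_mul, H356R3.NS.norm_ex, mul_one]
    exact (norm_le_pi_norm _ i).trans ((norm_le_nw _).trans (hd k z.1 hz.1))

/-- Joint smoothness. -/
theorem NSol.smooth_on (h : NSol ν lam T a u) (hν : 0 < ν) (hl : PG (kap lam)) :
    (ContDiffOn ℝ ∞ (fun z : ℝ × V => UU u z.1 z.2) (Ioo 0 T ×ˢ univ)) ∧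
      ContDiffOn ℝ ∞ (fun z : ℝ × V => PP u z.1 z.2) (Ioo 0 T ×ˢ univ) := by
  have hc : 0 < 4 * Real.pi ^ 2 * ν := by positivity
  have hO : IsOpen (Ioo 0 T ×ˢ (univ : Set V)) := isOpen_Ioo.prod isOpen_univ
  have key : ∀ z ∈ Ioo 0 T ×ˢ (univ : Set V), ∀ (F : ℝ → ℝ → ℝ × V → ℂ) (g : ℝ × V → ℝ),
      (∀ t1 t2, 0 < t1 → t1 < t2 → t2 ≤ T → ContDiffOn ℝ ∞ (F t1 t2) (Ici 0 ×ˢ univ) ∧
        ∀ t ∈ Ioo t1 t2, ∀ x, g (t, x) = (F t1 t2 (ti t1 t2 t, x)).re) → ContDiffAt ℝ ∞ g z := by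
    intro z hz F g hF
    have hz1 : z.1 ∈ Ioo 0 T := hz.1
    set t1 := z.1 / 2 with ht1
    set t2 := (z.1 + T) / 2 with ht2
    have h1 : 0 < t1 := by rw [ht1]; linarith [hz1.1]
    have h1' : t1 < z.1 := by rw [ht1]; linarith [hz1.1]
    have h2' : z.1 < t2 := by rw [ht2]; linarith [hz1.2]
    have h2 : t2 ≤ T := by rw [ht2]; linarith [hz1.2]
    obtain ⟨hF1, hF2⟩ := hF t1 t2 h1 (h1'.trans h2') h2
    have hmem : Ioo t1 t2 ×ˢ (univ : Set V) ∈ 𝓝 z := by
      rw [← Prod.mk.eta (p := z)]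
      exact prod_mem_nhds (Ioo_mem_nhds h1' h2') univ_mem
    have hcomp : ContDiffOn ℝ ∞ (fun z : ℝ × V => (F t1 t2 (ti t1 t2 z.1, z.2)).re) (Ioo t1 t2 ×ˢ univ) := by
      refine Complex.reCLM.contDiff.comp_contDiffOn (hF1.comp (t := Ici 0 ×ˢ univ)
        (ContDiffOn.prodMk ?_ contDiff_snd.contDiffOn) fun z hz => ⟨(ti_pos hz.1.1 hz.1.2).le, mem_univ _⟩)
      exact (ti_smooth t1 t2 (h1'.trans h2')).comp contDiff_fst.contDiffOn fun z hz => hz.1
    have := hcomp.contDiffAt hmem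
    refine this.congr_of_eventuallyEq ?_
    filter_upwards [hmem] with y hy
    have := hF2 y.1 hy.1 y.2
    rwa [Prod.mk.eta] at this
  constructor
  · rw [contDiffOn_pi]
    intro i z hz
    refine (key z hz (fun t1 t2 => SF (cf' (CC t1 t2 u) i)) (fun z => UU u z.1 z.2 i)
      fun t1 t2 h1 h12 h2 => ⟨?_, fun t ht x => ?_⟩).contDiffWithinAt
    · exact H356R3.NS.SF_contDiffOn fun n => h.CC_TT hc hl h1 h12 h2 n i
    · show (fs (fun k => u k t i) x).re = (∑' k, u k (tc t1 t2 (ti t1 t2 t)) i * ex k x).re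
      rw [tc_ti ht.1 ht.2]; rfl
  · intro z hz
    refine (key z hz (fun t1 t2 => SF (PF (CC t1 t2 u))) (fun z => PP u z.1 z.2)
      fun t1 t2 h1 h12 h2 => ⟨?_, fun t ht x => ?_⟩).contDiffWithinAt
    · exact H356R3.NS.SF_contDiffOn fun n => H356R3.NS.TT_PF fun i => h.CC_TT hc hl h1 h12 h2 n i
    · show (fs (fun k => PF u k t) x).re = (∑' k, PF u k (tc t1 t2 (ti t1 t2 t)) * ex k x).re
      rw [tc_ti ht.1 ht.2]; rfl

/-- The time derivative. -/
theorem NSol.time_deriv (h : NSol ν lam T a u) (hν : 0 < ν) (hl : PG (kap lam)) {t : ℝ} (ht : t ∈ Ioo 0 T)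
    (x : V) (i : Fin 3) : HasDerivAt (fun s => UU u s x i)
      (fs (fun k => RR (4 * Real.pi ^ 2 * ν) (kap lam) (at' u t) k i) x).re t := by
  have hc : 0 < 4 * Real.pi ^ 2 * ν := by positivity
  set c := 4 * Real.pi ^ 2 * ν with hcd
  set t1 := t / 2 with ht1
  set t2 := (t + T) / 2 with ht2
  have h1 : 0 < t1 := by rw [ht1]; linarith [ht.1]
  have h1' : t1 < t := by rw [ht1]; linarith [ht.1]
  have h2' : t < t2 := by rw [ht2]; linarith [ht.2]
  have h2 : t2 ≤ T := by rw [ht2]; linarith [ht.2]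
  have h12 := h1'.trans h2'
  set C := CC t1 t2 u with hC
  set τ := ti t1 t2 t with hτ
  have hτ0 : 0 < τ := ti_pos h1' h2'
  have hTT := h.CC_TT hc hl h1 h12 h2
  set c' : SFam := fun k τ => ((t2 - t1 : ℝ) : ℂ) * ((ed τ : ℂ) * RS c (kap lam) C i k τ) with hc'
  have hTT' : TT 0 c' :=
    TT.mul (p := fun _ => ((t2 - t1 : ℝ) : ℂ)) (C := |t2 - t1|) (r := 0)
      (fun k => by rw [Complex.norm_real, Real.norm_eq_abs]; simp) (TT.ed (TT_RS hl c (hTT 0) i))
  have hF := H356R3.NS.SF_hasFDerivAt (c := cf' C i) (c' := c') (hTT 0 i).rd hTT'.rd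
    (fun k s hs => h.CC_deriv h1 h12 h2 i k hs) (p := (τ, x)) ⟨hτ0, mem_univ _⟩
  have hcurve : HasDerivAt (fun s : ℝ => ((ti t1 t2 s, x) : ℝ × V)) (1 / (t2 - t), 0) t :=
    (ti_deriv h1' h2').prodMk (hasDerivAt_const t x)
  have h3 := HasFDerivAt.comp_hasDerivAt t hF hcurve
  have h4 := Complex.reCLM.hasFDerivAt.comp_hasDerivAt t h3
  have h5 : HasDerivAt (fun s => UU u s x i) (Complex.reCLM ((Ph (SF c' (τ, x)) fun j =>
      SF (dS j (cf' C i)) (τ, x)) (1 / (t2 - t), 0))) t := by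
    refine h4.congr_of_eventuallyEq ?_
    filter_upwards [Ioo_mem_nhds h1' h2'] with s hs
    show (fs (fun k => u k s i) x).re = (∑' k, u k (tc t1 t2 (ti t1 t2 s)) i * ex k x).re
    rw [tc_ti hs.1 hs.2]; rfl
  refine h5.congr_deriv ?_
  rw [H356R3.NS.Ph_apply]
  have hSF : SF c' (τ, x) = (((t2 - t1) * ed τ : ℝ) : ℂ) * fs (fun k => RR c (kap lam) (at' u t) k i) x := by
    unfold SF fs
    rw [← tsum_mul_left]
    refine tsum_congr fun k => ?_
    simp only [hc', RS_eq]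
    have : at' C τ = at' u t := by
      funext k
      show u k (tc t1 t2 (ti t1 t2 t)) = u k t
      rw [tc_ti h1' h2']
    rw [this]
    push_cast
    ring
  rw [hSF, hτ, ed_ti h1' h2']
  have h6 : (t2 - t1) * ((t2 - t) / (t2 - t1)) * (1 / (t2 - t)) = 1 := by
    have : t2 - t1 ≠ 0 := by linarith
    have : t2 - t ≠ 0 := by linarith
    field_simp
  simp only [Pi.zero_apply, Complex.ofReal_zero, mul_zero, Finset.sum_const_zero, add_zero,
    Complex.reCLM_apply]
  rw [mul_comm (((((t2 - t1) * ((t2 - t) / (t2 - t1)) : ℝ)) : ℂ)) _, mul_assoc, ← Complex.ofReal_mul, h6]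
  simp

/-- The momentum equation. -/
theorem NSol.momentum (h : NSol ν lam T a u) (hν : 0 < ν) (hl : PG (kap lam)) {t : ℝ} (ht : t ∈ Ioo 0 T)
    (x : V) (i : Fin 3) : deriv (fun s => UU u s x i) t + ∑ j, UU u t x j * pd j (fun y => UU u t y i) x
      = ν * lap (UU u t) x i - pd i (PP u t) x + Kop lam (UU u t) (UU u t) x i := by
  have htI : t ∈ Icc 0 T := ⟨ht.1.le, ht.2.le⟩
  set c := 4 * Real.pi ^ 2 * ν with hcd
  rw [(h.time_deriv hν hl ht x i).deriv]
  -- constant families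
  set A : Fam := fun k _ => u k t with hA
  have hAr : ∀ i, RD (cf' A i) := fun i => h.rd hν ht i
  have hAT : ∀ n i, TT n (cf' A i) := fun n i => TT_cst (h.rd hν ht i) n
  have hdiv : ∀ k s, dt k (A k s) = 0 := fun k s => h.div k t htI
  have hPF : RD (cst fun k => PF u k t) := by
    have : TT 0 (PF A) := H356R3.NS.TT_PF (hAT 0)
    intro m
    obtain ⟨b, hb, hbd⟩ := this.rd m
    exact ⟨b, hb, fun k s => hbd k 0⟩
  have e1 : ∀ j, pd j (fun y => UU u t y i) = fun x => (fs (fun k => fj k j * u k t i) x).re := fun j =>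
    funext fun x => pd_fs (h.rd hν ht i) j x
  have e2 : lap (UU u t) x i = (fs (fun k => ∑ j, fj k j * (fj k j * u k t i)) x).re := by
    unfold lap
    simp only [e1]
    simp only [pd_fs (RD_fj (h.rd hν ht i) _)]
    rw [← Complex.re_sum, ← fs_finsum Finset.univ (a := fun j k => fj k j * (fj k j * u k t i))
      (fun j _ => RD_summ (RD_fj (RD_fj (h.rd hν ht i) j) j))]
  have e3 : pd i (PP u t) x = (fs (fun k => fj k i * PF u k t) x).re := pd_fs hPF i x
  have e4 : Kop lam (UU u t) (UU u t) x i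
      = (fs (fun k => (om' (kap lam) (at' u t) k • J (u k t)) i) x).re := by
    rw [Kop_fs hl (h.spv hν ht) (h.spv hν ht)]
    unfold kc
    rw [h.fco htI]
    rfl
  rw [e2, e3, e4]
  simp only [e1]
  -- products
  have hdS : ∀ j, RD (dS j (cf' A i)) := fun j => (hAr i).mul fun k => H356R3.NS.norm_fj_le k j
  have hcv : ∀ j, RD (cvv (cf' A j) (dS j (cf' A i))) := fun j => (hAr j).conv (hdS j)
  have m1 : ∀ j, fs (fun k => u k t j) x * fs (fun k => fj k j * u k t i) x
      = fs (fun k => cvv (cf' A j) (dS j (cf' A i)) k 0) x := by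
    intro j
    exact H356R3.NS.SF_mul (c := cf' A j) (d := dS j (cf' A i)) (hAr j) (hdS j) (0, x)
  have hreal1 : ∀ j, ((UU u t x j : ℝ) : ℂ) = fs (fun k => u k t j) x := fun j => h.real htI j x
  have m2 : ∀ j, UU u t x j * (fs (fun k => fj k j * u k t i) x).re
      = (fs (fun k => cvv (cf' A j) (dS j (cf' A i)) k 0) x).re := by
    intro j
    rw [← m1 j, ← hreal1 j, Complex.re_ofReal_mul]
  simp only [m2]
  rw [← Complex.re_sum, ← fs_finsum Finset.univ (a := fun j k => cvv (cf' A j) (dS j (cf' A i)) k 0)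
    (fun j _ => (by
      obtain ⟨b, hb, hbd⟩ := (hcv j).summ
      exact hb.of_nonneg_of_le (fun _ => norm_nonneg _) fun k => hbd k 0))]
  have s1 : Summable fun k => ‖RR c (kap lam) (at' u t) k i‖ := by
    have h1 : TT 0 (RS c (kap lam) A i) := TT_RS hl c (hAT 0) i
    obtain ⟨b, hb, hbd⟩ := h1.rd.summ
    refine hb.of_nonneg_of_le (fun _ => norm_nonneg _) fun k => ?_
    have := hbd k 0
    rwa [RS_eq] at this
  have s2 : Summable fun k => ‖∑ j, cvv (cf' A j) (dS j (cf' A i)) k 0‖ := by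
    refine (summable_sum fun j (_ : j ∈ Finset.univ) => ?_ : Summable fun k => ∑ j,
      ‖cvv (cf' A j) (dS j (cf' A i)) k 0‖).of_nonneg_of_le (fun _ => norm_nonneg _) fun k => norm_sum_le _ _
    obtain ⟨b, hb, hbd⟩ := (hcv j).summ
    exact hb.of_nonneg_of_le (fun _ => norm_nonneg _) fun k => hbd k 0
  have s3 : Summable fun k => ‖∑ j, fj k j * (fj k j * u k t i)‖ := by
    refine (summable_sum fun j (_ : j ∈ Finset.univ) => ?_ : Summable fun k => ∑ j,
      ‖fj k j * (fj k j * u k t i)‖).of_nonneg_of_le (fun _ => norm_nonneg _) fun k => norm_sum_le _ _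
    exact RD_summ (RD_fj (RD_fj (h.rd hν ht i) j) j)
  have s4 : Summable fun k => ‖fj k i * PF u k t‖ := RD_summ (RD_fj hPF i)
  have s5 : Summable fun k => ‖(om' (kap lam) (at' u t) k • J (u k t)) i‖ := by
    have h1 : TT 0 (RF (kap lam) A i) := TT_RF hl (hAT 0) i
    obtain ⟨b, hb, hbd⟩ := h1.rd.summ
    refine hb.of_nonneg_of_le (fun _ => norm_nonneg _) fun k => ?_
    have := hbd k 0
    rwa [RF_eq] at this
  have key : fs (fun k => RR c (kap lam) (at' u t) k i) x
      + fs (fun k => ∑ j, cvv (cf' A j) (dS j (cf' A i)) k 0) x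
      = (ν : ℂ) * fs (fun k => ∑ j, fj k j * (fj k j * u k t i)) x
        + ((-1 : ℝ) : ℂ) * fs (fun k => fj k i * PF u k t) x
        + fs (fun k => (om' (kap lam) (at' u t) k • J (u k t)) i) x := by
    rw [← fs_smul', ← fs_smul', ← fs_add' s1 s2, ← fs_add' (by
        simp only [norm_mul]; exact s3.mul_left _) (by simp only [norm_mul] at s4 ⊢; exact s4.mul_left _),
      ← fs_add' ?_ s5]
    · congr 1
      funext k
      have hf := H356R3.NS.fourier_eq (ν := ν) hAr hdiv i k 0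
      have e5 : RR c (kap lam) (at' u t) k i
          = dU (4 * Real.pi ^ 2 * ν) A i k 0 + (om' (kap lam) (at' u t) k • J (u k t)) i := by
        have h1 := RS_eq c (kap lam) A i k 0
        have h2 := RF_eq (kap lam) A i k 0
        have h3 : at' A 0 = at' u t := rfl
        rw [h3] at h1 h2
        rw [← h1]
        unfold RS
        rw [h2]
      rw [e5]
      have h4 : ∑ j, dS j (dS j (cf' A i)) k 0 = ∑ j, fj k j * (fj k j * u k t i) := rfl
      have h5 : dS i (PF A) k 0 = fj k i * PF u k t := rfl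
      rw [h4, h5] at hf
      push_cast
      linear_combination hf
    · have s6 : Summable fun k => ‖(ν : ℂ) * ∑ j, fj k j * (fj k j * u k t i)‖ := by
        simp only [norm_mul]; exact s3.mul_left _
      have s7 : Summable fun k => ‖((-1 : ℝ) : ℂ) * (fj k i * PF u k t)‖ := by
        simp only [norm_mul] at s4 ⊢; exact s4.mul_left _
      exact (s6.add s7).of_nonneg_of_le (fun _ => norm_nonneg _) fun k => norm_add_le _ _
  have keyre := congrArg Complex.re key
  rw [Complex.add_re, Complex.add_re, Complex.add_re, Complex.re_ofReal_mul, Complex.re_ofReal_mul] at keyre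
  linarith

theorem NSol.dv_zero (h : NSol ν lam T a u) (hν : 0 < ν) {t : ℝ} (ht : t ∈ Ioo 0 T) (x : V) :
    dv (UU u t) x = 0 := by
  unfold dv
  have e1 : ∀ j, pd j (fun y => UU u t y j) x = (fs (fun k => fj k j * u k t j) x).re := fun j =>
    pd_fs (h.rd hν ht j) j x
  simp only [e1]
  rw [← Complex.re_sum, ← fs_finsum Finset.univ (a := fun j k => fj k j * u k t j)
    (fun j _ => RD_summ (RD_fj (h.rd hν ht j) j))]
  have : (fun k => ∑ j, fj k j * u k t j) = fun _ => 0 := by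
    funext k
    have h1 : dt k (u k t) = 0 := h.div k t ⟨ht.1.le, ht.2.le⟩
    unfold dt at h1
    unfold fj
    calc ∑ j, 2 * Real.pi * Complex.I * (k j : ℂ) * u k t j
        = 2 * Real.pi * Complex.I * ∑ j, (k j : ℂ) * u k t j := by
          rw [Finset.mul_sum]; exact Finset.sum_congr rfl fun j _ => by ring
      _ = 0 := by rw [h1, mul_zero]
  rw [this]
  simp [fs]

end Pool.Agent.N980.NU
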