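import Pool.Agent.N980.NU.Kp2

/-!
Sobolev bound of the trilinear form and linearity.
-/

open MeasureTheory Set Filter Topology
open scoped ContDiff

set_option linter.unusedVariables false

namespace Pool.Agent.N980.NU

open Pool.Agent.H356R3.NS (K C3 E3 R3 ex SN Sym RD TT SF SFam Fam cf' at' nk pw fj dS Bf dt)

/-- The Euclidean size of the coefficient. -/
noncomputable def e2 (v : V → V) (k : K) : ℝ := Real.sqrt (∑ i, ‖fco v k i‖ ^ 2)

theorem e2_sq (v : V → V) (k : K) : e2 v k ^ 2 = ∑ i, ‖fco v k i‖ ^ 2 :=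
  Real.sq_sqrt (Finset.sum_nonneg fun _ _ => by positivity)

theorem e2_nonneg (v : V → V) (k : K) : 0 ≤ e2 v k := Real.sqrt_nonneg _

theorem hs_eq (s : ℝ) (v : V → V) :
    hs s v = Real.sqrt (∑' k, (2 * Real.pi * nk k) ^ (2 * s) * e2 v k ^ 2) := by
  unfold hs
  simp only [e2_sq]
  rfl

theorem hs_summ {s : ℝ} (hs : 0 ≤ s) {v : V → V} (hv : SPV v) :
    Summable fun k => (2 * Real.pi * nk k) ^ (2 * s) * e2 v k ^ 2 := by
  obtain ⟨m, hm⟩ := exists_nat_ge (2 * s)
  have h1 : ∀ i, Summable fun k => pw k ^ m * ‖fco v k i‖ ^ 2 := by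
    intro i
    obtain ⟨b, hb, h⟩ := hv.rd i m
    have hs0 := RD_summ (hv.rd i)
    refine (hb.mul_right (∑' l, ‖fco v l i‖)).of_nonneg_of_le (fun k => ?_) fun k => ?_
    · have := H356R3.NS.pw_pos k; positivity
    · rw [pow_two, ← mul_assoc]
      have h2 := h k 0
      have h3 : 0 ≤ b k := (mul_nonneg (pow_pos (H356R3.NS.pw_pos k) m).le (norm_nonneg _)).trans h2
      exact mul_le_mul h2 (hs0.le_tsum k fun _ _ => norm_nonneg _) (norm_nonneg _) h3
  have h2 : Summable fun k => (2 * Real.pi) ^ (2 * s) * (pw k ^ m * ∑ i, ‖fco v k i‖ ^ 2) := by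
    refine Summable.mul_left _ ?_
    simp only [Finset.mul_sum]
    exact summable_sum fun i _ => h1 i
  have hpi := Real.pi_pos
  refine h2.of_nonneg_of_le (fun k => ?_) fun k => ?_
  · have := H356R3.NS.nk_nonneg k
    exact mul_nonneg (Real.rpow_nonneg (by positivity) _) (sq_nonneg _)
  · have hn := H356R3.NS.nk_nonneg k
    rw [e2_sq, ← mul_assoc]
    refine mul_le_mul_of_nonneg_right ?_ (Finset.sum_nonneg fun _ _ => by positivity)
    rw [Real.mul_rpow (by positivity) hn]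
    refine mul_le_mul_of_nonneg_left ?_ (Real.rpow_nonneg (by positivity) _)
    calc nk k ^ (2 * s) ≤ pw k ^ (2 * s) := Real.rpow_le_rpow hn (H356R3.NS.nk_le_pw k) (by positivity)
      _ ≤ pw k ^ (m : ℝ) := Real.rpow_le_rpow_of_exponent_le (H356R3.NS.one_le_pw k) hm
      _ = pw k ^ m := Real.rpow_natCast _ _

theorem hs_nonneg (s : ℝ) (v : V → V) : 0 ≤ hs s v := Real.sqrt_nonneg _

theorem hs_ge {s : ℝ} (hs0 : 0 ≤ s) {v : V → V} (hv : SPV v) (k : K) :
    (2 * Real.pi * nk k) ^ s * e2 v k ≤ hs s v := by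
  rw [hs_eq]
  apply Real.le_sqrt_of_sq_le
  have hn := H356R3.NS.nk_nonneg k
  have hpi := Real.pi_pos
  have h1 : ((2 * Real.pi * nk k) ^ s * e2 v k) ^ 2 = (2 * Real.pi * nk k) ^ (2 * s) * e2 v k ^ 2 := by
    rw [mul_pow, ← Real.rpow_natCast ((2 * Real.pi * nk k) ^ s) 2, ← Real.rpow_mul (by positivity)]
    congr 2
    push_cast; ring
  rw [h1]
  exact (hs_summ hs0 hv).le_tsum k fun l _ => by
    have := H356R3.NS.nk_nonneg l
    exact mul_nonneg (Real.rpow_nonneg (by positivity) _) (sq_nonneg _)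

/-- The Sobolev bound of the trilinear form. -/
theorem Kop_bound {lam : ℕ → ℝ} (hl : PG (kap lam)) (hl0 : ∀ n, 0 ≤ lam n) {u v w : V → V} (hu : SPV u)
    (hv : SPV v) (hw : SPV w) {s1 s2 s3 M : ℝ} (h1 : 0 ≤ s1) (h2 : 0 ≤ s2) (h3 : 0 ≤ s3)
    (hM : ∀ n, lam n ≤ M * (2 * Real.pi * 20 ^ n) ^ (s1 + s2 + s3 - 2)) :
    |ip (Kop lam u v) w| ≤ 2 * M * hs s1 u * hs s2 v * hs s3 w := by
  have hpi := Real.pi_pos
  have hM0 : 0 ≤ M := by
    have := (hl0 0).trans (hM 0)
    exact nonneg_of_mul_nonneg_left this (Real.rpow_pos_of_pos (by positivity) _)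
  set A := hs s1 u with hA
  have hA0 : 0 ≤ A := hs_nonneg _ _
  -- the rate of rotation
  have hom : ∀ k, |om' (kap lam) (fco u) k| ≤ 2 * M * A * ((2 * Real.pi * nk k) ^ s2 * (2 * Real.pi * nk k) ^ s3) := by
    intro k
    have hn := H356R3.NS.nk_nonneg k
    by_cases hk : ∃ n, k = fk n ∨ k = -fk n
    · obtain ⟨n, hn⟩ := hk
      have hnk : nk k = 20 ^ n := by
        rcases hn with hn | hn
        · rw [hn, nk_fk]
        · rw [hn, H356R3.NS.nk_neg, nk_fk]
      rw [om_lev _ _ hn, hnk, abs_mul]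
      set R : ℝ := 2 * Real.pi * 20 ^ n with hR
      have hR0 : 0 < R := by positivity
      have hk1 : |kap lam n| ≤ M * (R ^ s1 * (R ^ s2 * R ^ s3)) := by
        unfold kap
        rw [← hR, abs_of_nonneg (mul_nonneg (hl0 n) (by positivity))]
        calc lam n * R ^ 2 ≤ (M * R ^ (s1 + s2 + s3 - 2)) * R ^ 2 :=
              mul_le_mul_of_nonneg_right (hM n) (by positivity)
          _ = M * (R ^ s1 * (R ^ s2 * R ^ s3)) := by
              rw [← Real.rpow_natCast R 2, mul_assoc, ← Real.rpow_add hR0, ← Real.rpow_add hR0,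
                ← Real.rpow_add hR0]
              congr 2
              push_cast; ring
      have hth : |th (n + 1) (fco u)| ≤ 2 * (A / R ^ s1) := by
        unfold th
        rw [abs_mul, abs_two]
        refine mul_le_mul_of_nonneg_left ?_ (by norm_num)
        rw [le_div_iff₀ (Real.rpow_pos_of_pos hR0 _)]
        have h4 : |(fco u (fk (n + 1)) 2).re| ≤ e2 u (fk (n + 1)) := by
          refine (Complex.abs_re_le_norm _).trans ?_
          apply Real.le_sqrt_of_sq_le
          exact Finset.single_le_sum (f := fun i => ‖fco u (fk (n + 1)) i‖ ^ 2) (fun _ _ => by positivity)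
            (Finset.mem_univ 2)
        have h5 := hs_ge h1 hu (fk (n + 1))
        rw [nk_fk] at h5
        have h6 : R ^ s1 ≤ (2 * Real.pi * 20 ^ (n + 1)) ^ s1 := by
          refine Real.rpow_le_rpow hR0.le ?_ h1
          rw [hR]
          have : (20 : ℝ) ^ n ≤ 20 ^ (n + 1) := pow_le_pow_right₀ (by norm_num) (Nat.le_succ n)
          exact mul_le_mul_of_nonneg_left this (by positivity)
        calc |(fco u (fk (n + 1)) 2).re| * R ^ s1 ≤ e2 u (fk (n + 1)) * (2 * Real.pi * 20 ^ (n + 1)) ^ s1 :=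
              mul_le_mul h4 h6 (Real.rpow_nonneg hR0.le _) (e2_nonneg _ _)
          _ ≤ A := by rw [mul_comm]; exact h5
      calc |kap lam n| * |th (n + 1) (fco u)| ≤ (M * (R ^ s1 * (R ^ s2 * R ^ s3))) * (2 * (A / R ^ s1)) :=
            mul_le_mul hk1 hth (abs_nonneg _) ((abs_nonneg _).trans hk1)
        _ = 2 * M * A * (R ^ s2 * R ^ s3) := by
            have := (Real.rpow_pos_of_pos hR0 s1).ne'
            field_simp
    · rw [om_not _ _ hk, abs_zero]
      have := Real.rpow_nonneg (by positivity : 0 ≤ 2 * Real.pi * nk k) s2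
      have := Real.rpow_nonneg (by positivity : 0 ≤ 2 * Real.pi * nk k) s3
      positivity
  -- the sum
  set f : K → ℝ := fun k => (2 * Real.pi * nk k) ^ s2 * e2 v k with hf
  set g : K → ℝ := fun k => (2 * Real.pi * nk k) ^ s3 * e2 w k with hg
  have hn := H356R3.NS.nk_nonneg
  have f0 : ∀ k, 0 ≤ f k := fun k =>
    mul_nonneg (Real.rpow_nonneg (mul_nonneg (by positivity) (hn k)) _) (e2_nonneg _ _)
  have g0 : ∀ k, 0 ≤ g k := fun k =>
    mul_nonneg (Real.rpow_nonneg (mul_nonneg (by positivity) (hn k)) _) (e2_nonneg _ _)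
  have hsq : ∀ (s : ℝ) (v : V → V) (k : K), ((2 * Real.pi * nk k) ^ s * e2 v k) ^ (2 : ℝ)
      = (2 * Real.pi * nk k) ^ (2 * s) * e2 v k ^ 2 := by
    intro s v k
    have h0 : 0 ≤ 2 * Real.pi * nk k := mul_nonneg (by positivity) (hn k)
    rw [Real.mul_rpow (Real.rpow_nonneg h0 _) (e2_nonneg _ _), ← Real.rpow_mul h0, mul_comm s 2]
    congr 1
    exact Real.rpow_natCast _ 2
  have hfs : Summable fun k => f k ^ (2 : ℝ) := by
    simp only [hf, hsq]; exact hs_summ h2 hv
  have hgs : Summable fun k => g k ^ (2 : ℝ) := by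
    simp only [hg, hsq]; exact hs_summ h3 hw
  have hold := Real.summable_and_inner_le_Lp_mul_Lq_tsum_of_nonneg
    (by rw [Real.holderConjugate_iff]; norm_num : Real.HolderConjugate 2 2) f0 g0 hfs hgs
  have hfn : (∑' k, f k ^ (2 : ℝ)) ^ (1 / 2 : ℝ) = hs s2 v := by
    rw [hs_eq, Real.sqrt_eq_rpow]
    simp only [hf, hsq]
  have hgn : (∑' k, g k ^ (2 : ℝ)) ^ (1 / 2 : ℝ) = hs s3 w := by
    rw [hs_eq, Real.sqrt_eq_rpow]
    simp only [hg, hsq]
  have hfg : ∑' k, f k * g k ≤ hs s2 v * hs s3 w := by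
    have := hold.2
    rwa [hfn, hgn] at this
  have hterm : ∀ k, ‖∑ i, kc lam u v k i * star (fco w k i)‖ ≤ 2 * M * A * (f k * g k) := by
    intro k
    refine (sum_tri_le k).trans ?_
    calc |om' (kap lam) (fco u) k| * (e2 v k * e2 w k)
        ≤ 2 * M * A * ((2 * Real.pi * nk k) ^ s2 * (2 * Real.pi * nk k) ^ s3) * (e2 v k * e2 w k) :=
          mul_le_mul_of_nonneg_right (hom k) (mul_nonneg (e2_nonneg _ _) (e2_nonneg _ _))
      _ = _ := by simp only [hf, hg]; ring
  rw [Kop_fs hl hu hv, ip_fs (SN_kc hl hu hv) (Sym_kc _ _ _) hw.cont]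
  refine (Complex.abs_re_le_norm _).trans ?_
  have hss : Summable fun k => 2 * M * A * (f k * g k) := hold.1.mul_left _
  calc ‖∑' k, ∑ i, kc lam u v k i * star (fco w k i)‖ ≤ ∑' k, 2 * M * A * (f k * g k) :=
        tsum_of_norm_bounded hss.hasSum hterm
    _ = 2 * M * A * ∑' k, f k * g k := tsum_mul_left
    _ ≤ 2 * M * A * (hs s2 v * hs s3 w) := mul_le_mul_of_nonneg_left hfg (by positivity)
    _ = _ := by ring

/-! ### linearity -/

theorem fco_add {u v : V → V} (hu : Continuous u) (hv : Continuous v) : fco (u + v) = fco u + fco v := by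
  funext k i
  rw [fco_eq_ex, Pi.add_apply, Pi.add_apply, fco_eq_ex, fco_eq_ex, ← integral_add]
  · congr 1
    funext x
    simp only [Pi.add_apply]
    push_cast
    ring
  · exact int_on_cube ((Complex.continuous_ofReal.comp ((continuous_apply i).comp hu)).mul
      (H356R3.NS.ex_cont _))
  · exact int_on_cube ((Complex.continuous_ofReal.comp ((continuous_apply i).comp hv)).mul
      (H356R3.NS.ex_cont _))

theorem fco_smul (r : ℝ) (v : V → V) : fco (r • v) = fun k => r • fco v k := by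
  funext k i
  rw [fco_eq_ex, Pi.smul_apply, fco_eq_ex, Complex.real_smul, ← integral_const_mul]
  congr 1
  funext x
  simp only [Pi.smul_apply, smul_eq_mul]
  push_cast
  ring

theorem th_add (n : ℕ) (x y : K → C3) : th n (x + y) = th n x + th n y := by
  unfold th; simp; ring

theorem om_add (κ : ℕ → ℝ) (x y : K → C3) (k : K) : om' κ (x + y) k = om' κ x k + om' κ y k := by
  by_cases h : ∃ n, k = fk n ∨ k = -fk n
  · obtain ⟨n, hn⟩ := h
    rw [om_lev _ _ hn, om_lev _ _ hn, om_lev _ _ hn, th_add]; ring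
  · rw [om_not _ _ h, om_not _ _ h, om_not _ _ h, add_zero]

theorem om_smul (κ : ℕ → ℝ) (r : ℝ) (x : K → C3) (k : K) :
    om' κ (fun k => r • x k) k = r * om' κ x k := by
  by_cases h : ∃ n, k = fk n ∨ k = -fk n
  · obtain ⟨n, hn⟩ := h
    rw [om_lev _ _ hn, om_lev _ _ hn]
    unfold th
    simp only [Pi.smul_apply, Complex.real_smul, Complex.re_ofReal_mul]
    ring
  · rw [om_not _ _ h, om_not _ _ h, mul_zero]

theorem J_smul (r : ℝ) (v : C3) : J (r • v) = r • J v := by
  funext i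
  fin_cases i <;> simp [J]

theorem SPV.add {u v : V → V} (hu : SPV u) (hv : SPV v) : SPV (u + v) :=
  ⟨hu.1.add hv.1, fun x j => by rw [Pi.add_apply, Pi.add_apply, hu.2, hv.2]⟩

theorem SPV.smul {v : V → V} (r : ℝ) (hv : SPV v) : SPV (r • v) :=
  ⟨hv.1.const_smul r, fun x j => by rw [Pi.smul_apply, Pi.smul_apply, hv.2]⟩

theorem fs_add' {a b : K → ℂ} (ha : Summable fun k => ‖a k‖) (hb : Summable fun k => ‖b k‖) (x : V) :
    fs (fun k => a k + b k) x = fs a x + fs b x := by
  unfold fs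
  have h1 : Summable fun k => a k * ex k x :=
    Summable.of_norm_bounded ha fun k => by rw [norm_mul, H356R3.NS.norm_ex, mul_one]
  have h2 : Summable fun k => b k * ex k x :=
    Summable.of_norm_bounded hb fun k => by rw [norm_mul, H356R3.NS.norm_ex, mul_one]
  rw [← h1.tsum_add h2]
  exact tsum_congr fun k => by ring

theorem fs_smul' (r : ℝ) (a : K → ℂ) (x : V) : fs (fun k => (r : ℂ) * a k) x = r * fs a x := by
  unfold fs
  rw [← tsum_mul_left]
  exact tsum_congr fun k => by ring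

theorem Kop_add_left {lam : ℕ → ℝ} (hl : PG (kap lam)) {u u' v : V → V} (hu : SPV u) (hu' : SPV u')
    (hv : SPV v) : Kop lam (u + u') v = Kop lam u v + Kop lam u' v := by
  rw [Kop_fs hl (hu.add hu') hv, Kop_fs hl hu hv, Kop_fs hl hu' hv]
  funext x i
  rw [Pi.add_apply, Pi.add_apply, ← Complex.add_re, ← fs_add' (RD_summ (RD_kc hl hu hv i)) (RD_summ (RD_kc hl hu' hv i))]
  congr 2
  funext k
  unfold kc
  rw [fco_add hu.cont hu'.cont, om_add, add_smul, Pi.add_apply]

theorem Kop_add_right {lam : ℕ → ℝ} (hl : PG (kap lam)) {u v v' : V → V} (hu : SPV u) (hv : SPV v)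
    (hv' : SPV v') : Kop lam u (v + v') = Kop lam u v + Kop lam u v' := by
  rw [Kop_fs hl hu (hv.add hv'), Kop_fs hl hu hv, Kop_fs hl hu hv']
  funext x i
  rw [Pi.add_apply, Pi.add_apply, ← Complex.add_re, ← fs_add' (RD_summ (RD_kc hl hu hv i)) (RD_summ (RD_kc hl hu hv' i))]
  congr 2
  funext k
  unfold kc
  rw [fco_add hv.cont hv'.cont, Pi.add_apply, J_add, smul_add, Pi.add_apply]

theorem Kop_smul_left {lam : ℕ → ℝ} (hl : PG (kap lam)) (r : ℝ) {u v : V → V} (hu : SPV u)
    (hv : SPV v) : Kop lam (r • u) v = r • Kop lam u v := by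
  rw [Kop_fs hl (hu.smul r) hv, Kop_fs hl hu hv]
  funext x i
  rw [Pi.smul_apply, Pi.smul_apply, smul_eq_mul, ← Complex.re_ofReal_mul, ← fs_smul']
  congr 2
  funext k
  unfold kc
  rw [fco_smul, om_smul, mul_smul, Pi.smul_apply, Complex.real_smul]

theorem Kop_smul_right {lam : ℕ → ℝ} (hl : PG (kap lam)) (r : ℝ) {u v : V → V} (hu : SPV u)
    (hv : SPV v) : Kop lam u (r • v) = r • Kop lam u v := by
  rw [Kop_fs hl hu (hv.smul r), Kop_fs hl hu hv]
  funext x i
  rw [Pi.smul_apply, Pi.smul_apply, smul_eq_mul, ← Complex.re_ofReal_mul, ← fs_smul']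
  congr 2
  funext k
  unfold kc
  rw [fco_smul, J_smul, smul_comm, Pi.smul_apply, Complex.real_smul]

end Pool.Agent.N980.NU
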