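import Pool.Agent.N980.NU.Smo

/-!
Time change and smoothness in time.
-/

open MeasureTheory Set Filter Topology

set_option linter.unusedVariables false

namespace Pool.Agent.N980.NU

open Pool.Agent.H356R3.NS

/-- The decaying factor. -/
noncomputable def ed (t : ℝ) : ℝ := Real.exp (-max t 0)

theorem ed_cont : Continuous ed := by unfold ed; fun_prop

theorem ed_pos (t : ℝ) : 0 < ed t := Real.exp_pos _

theorem ed_le (t : ℝ) : ed t ≤ 1 := by
  unfold ed
  rw [Real.exp_le_one_iff, neg_nonpos]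
  exact le_max_right _ _

theorem ed_deriv {t : ℝ} (ht : 0 < t) : HasDerivAt ed (-ed t) t := by
  have h1 : HasDerivAt (fun s : ℝ => Real.exp (-s)) (-ed t) t := by
    have := (hasDerivAt_neg t).exp
    refine this.congr_deriv ?_
    unfold ed
    rw [max_eq_left ht.le]; ring
  refine h1.congr_of_eventuallyEq ?_
  filter_upwards [lt_mem_nhds ht] with s hs
  unfold ed
  rw [max_eq_left hs.le]

theorem RD.ed {c : SFam} (hc : RD c) : RD (fun k t => (ed t : ℂ) * c k t) := by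
  intro m
  obtain ⟨b, hb, h⟩ := hc m
  refine ⟨b, hb, fun k t => ?_⟩
  rw [norm_mul, Complex.norm_real, Real.norm_of_nonneg (ed_pos t).le]
  refine le_trans ?_ (h k t)
  refine mul_le_mul_of_nonneg_left ?_ (pow_pos (pw_pos k) m).le
  exact mul_le_of_le_one_left (norm_nonneg _) (ed_le t)

theorem TT.neg {n : ℕ} {c : SFam} (h : TT n c) : TT n (fun k t => -c k t) := by
  have := TT.mul (n := n) (p := fun _ => -1) (C := 1) (r := 0) (fun k => by simp) h
  simpa using this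

theorem TT.ed {n : ℕ} : ∀ {c : SFam}, TT n c → TT n (fun k t => (ed t : ℂ) * c k t) := by
  induction n with
  | zero =>
    intro c hc
    exact ⟨RD.ed hc.1, fun k => (Complex.continuous_ofReal.comp ed_cont).mul (hc.2 k)⟩
  | succ n ih =>
    intro c hc
    have hc0 := hc.pred
    obtain ⟨h1, h2, c', h3, h4⟩ := hc
    refine ⟨RD.ed h1, fun k => (Complex.continuous_ofReal.comp ed_cont).mul (h2 k),
      fun k t => -((NU.ed t : ℂ) * c k t) + (NU.ed t : ℂ) * c' k t, fun k t ht => ?_,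
      (TT.neg (ih hc0)).add (ih h4)⟩
    refine ((ed_deriv ht).ofReal_comp.mul (h3 k t ht)).congr_deriv ?_
    push_cast
    ring

/-- Products of families at the same frequency. -/
theorem RD.pmul {c d : SFam} (hc : RD c) (hd : RD d) : RD (fun k t => c k t * d k t) := by
  intro m
  obtain ⟨b, hb, h⟩ := hc m
  obtain ⟨b', hb', h'⟩ := hd.summ
  have hb0' : ∀ k, 0 ≤ b' k := fun k => (norm_nonneg _).trans (h' k 0)
  have hb0 : ∀ k, 0 ≤ b k := fun k =>
    (mul_nonneg (pow_pos (pw_pos k) m).le (norm_nonneg _)).trans (h k 0)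
  refine ⟨fun k => b k * ∑' l, b' l, hb.mul_right _, fun k t => ?_⟩
  rw [norm_mul, ← mul_assoc]
  exact mul_le_mul (h k t) ((h' k t).trans (hb'.le_tsum _ fun _ _ => hb0' _)) (norm_nonneg _) (hb0 k)

theorem TT.pmul {n : ℕ} : ∀ {c d : SFam}, TT n c → TT n d → TT n (fun k t => c k t * d k t) := by
  induction n with
  | zero => intro c d hc hd; exact ⟨RD.pmul hc.1 hd.1, fun k => (hc.2 k).mul (hd.2 k)⟩
  | succ n ih =>
    intro c d hc hd
    have hc0 := hc.pred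
    have hd0 := hd.pred
    obtain ⟨h1, h2, c', h3, h4⟩ := hc
    obtain ⟨g1, g2, d', g3, g4⟩ := hd
    exact ⟨RD.pmul h1 g1, fun k => (h2 k).mul (g2 k), _,
      fun k t ht => (h3 k t ht).mul (g3 k t ht), (ih h4 hd0).add (ih hc0 g4)⟩

/-- The rate of rotation as a family, from the third component. -/
noncomputable def OF (κ : ℕ → ℝ) (d : SFam) : SFam := fun k t =>
  ((om' κ (fun l => ![0, 0, d l t]) k : ℝ) : ℂ)

theorem OF_lev (κ : ℕ → ℝ) (d : SFam) {k : K} {n : ℕ} (hn : k = fk n ∨ k = -fk n) (t : ℝ) :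
    OF κ d k t = ((κ n * (2 * (d (fk (n + 1)) t).re) : ℝ) : ℂ) := by
  unfold OF
  rw [om_lev κ _ hn]
  rfl

theorem OF_not (κ : ℕ → ℝ) (d : SFam) {k : K} (h : ¬∃ n, k = fk n ∨ k = -fk n) (t : ℝ) :
    OF κ d k t = 0 := by
  unfold OF
  rw [om_not κ _ h]; simp

theorem pw_fk_mono (n : ℕ) : pw (fk n) ≤ pw (fk (n + 1)) := by
  have e : ∀ n, pw (fk n) = 1 + 20 ^ n := by
    intro n
    have : |((20 : ℤ) ^ n : ℝ)| = 20 ^ n := by push_cast; exact abs_of_pos (by positivity)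
    simp [pw, l1, fk, Fin.sum_univ_three]
  rw [e, e]
  have : (20 : ℝ) ^ n ≤ 20 ^ (n + 1) := pow_le_pow_right₀ (by norm_num) (Nat.le_succ n)
  linarith

theorem pow_le_pw_fk (n : ℕ) : (20 : ℝ) ^ n ≤ pw (fk n) := by
  have := nk_le_pw (fk n)
  rwa [nk_fk] at this

/-- Polynomial growth of the coefficients. -/
def PG (κ : ℕ → ℝ) : Prop := ∃ C : ℝ, ∃ r : ℕ, ∀ n, |κ n| ≤ C * (20 ^ n) ^ r

theorem twenty_inj : Function.Injective fun k : K => (20 : ℤ) • k := by
  intro k l h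
  funext i
  have := congrFun h i
  simpa using this

theorem twenty_fk (n : ℕ) : (20 : ℤ) • fk n = fk (n + 1) := by
  funext i
  fin_cases i
  · show (20 : ℤ) • (20 ^ n : ℤ) = 20 ^ (n + 1)
    rw [smul_eq_mul]; ring
  · show (20 : ℤ) • (0 : ℤ) = 0
    simp
  · show (20 : ℤ) • (0 : ℤ) = 0
    simp

theorem RD.OF {κ : ℕ → ℝ} (hκ : PG κ) {d : SFam} (hd : RD d) : RD (OF κ d) := by
  obtain ⟨C, r, hC⟩ := hκ
  have hC0 : 0 ≤ C := by
    have := (abs_nonneg _).trans (hC 0)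
    simpa using this
  intro m
  obtain ⟨b, hb, h⟩ := hd (m + r)
  have hb0 : ∀ k, 0 ≤ b k := fun k =>
    (mul_nonneg (pow_pos (pw_pos k) _).le (norm_nonneg _)).trans (h k 0)
  have hs1 : Summable fun k : K => b ((20 : ℤ) • k) := hb.comp_injective twenty_inj
  have hs2 : Summable fun k : K => b (-((20 : ℤ) • k)) :=
    hb.comp_injective (neg_injective.comp twenty_inj)
  refine ⟨fun k => 2 * C * (b ((20 : ℤ) • k) + b (-((20 : ℤ) • k))), (hs1.add hs2).mul_left _,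
    fun k t => ?_⟩
  have hbb : 0 ≤ 2 * C * (b ((20 : ℤ) • k) + b (-((20 : ℤ) • k))) :=
    mul_nonneg (by positivity) (add_nonneg (hb0 _) (hb0 _))
  by_cases hk : ∃ n, k = fk n ∨ k = -fk n
  · obtain ⟨n, hn⟩ := hk
    have hpk : pw k = pw (fk n) := by
      rcases hn with hn | hn
      · rw [hn]
      · rw [hn]; simp [pw, l1_neg]
    have hbk : b (fk (n + 1)) ≤ b ((20 : ℤ) • k) + b (-((20 : ℤ) • k)) := by
      rcases hn with hn | hn
      · rw [hn, twenty_fk]; linarith [hb0 (-fk (n + 1))]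
      · rw [hn, smul_neg, neg_neg, twenty_fk]; linarith [hb0 (-fk (n + 1))]
    rw [OF_lev κ d hn, hpk, Complex.norm_real, Real.norm_eq_abs, abs_mul, abs_mul, abs_two]
    have h1 : |(d (fk (n + 1)) t).re| ≤ ‖d (fk (n + 1)) t‖ := Complex.abs_re_le_norm _
    have h2 : pw (fk n) ^ m * |κ n| ≤ C * pw (fk (n + 1)) ^ (m + r) := by
      have h3 : |κ n| ≤ C * pw (fk (n + 1)) ^ r := by
        refine (hC n).trans (mul_le_mul_of_nonneg_left ?_ hC0)
        refine pow_le_pow_left₀ (by positivity) ?_ r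
        exact (pow_le_pw_fk n).trans (pw_fk_mono n)
      have h4 : pw (fk n) ^ m ≤ pw (fk (n + 1)) ^ m :=
        pow_le_pow_left₀ (pw_pos _).le (pw_fk_mono n) m
      calc pw (fk n) ^ m * |κ n| ≤ pw (fk (n + 1)) ^ m * (C * pw (fk (n + 1)) ^ r) :=
            mul_le_mul h4 h3 (abs_nonneg _) (pow_pos (pw_pos _) _).le
        _ = _ := by rw [pow_add]; ring
    calc pw (fk n) ^ m * (|κ n| * (2 * |(d (fk (n + 1)) t).re|))
        = 2 * (pw (fk n) ^ m * |κ n|) * |(d (fk (n + 1)) t).re| := by ring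
      _ ≤ 2 * (C * pw (fk (n + 1)) ^ (m + r)) * ‖d (fk (n + 1)) t‖ := by
          have : 0 ≤ pw (fk n) ^ m * |κ n| := mul_nonneg (pow_pos (pw_pos _) _).le (abs_nonneg _)
          have h5 : 0 ≤ C * pw (fk (n + 1)) ^ (m + r) := mul_nonneg hC0 (pow_pos (pw_pos _) _).le
          exact mul_le_mul (mul_le_mul_of_nonneg_left h2 (by norm_num)) h1 (abs_nonneg _) (by positivity)
      _ = 2 * C * (pw (fk (n + 1)) ^ (m + r) * ‖d (fk (n + 1)) t‖) := by ring
      _ ≤ 2 * C * b (fk (n + 1)) := mul_le_mul_of_nonneg_left (h _ t) (by positivity)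
      _ ≤ _ := mul_le_mul_of_nonneg_left hbk (by positivity)
  · rw [OF_not κ d hk, norm_zero, mul_zero]
    exact hbb

theorem OF_cont (κ : ℕ → ℝ) {d : SFam} (hd : ∀ k, Continuous (d k)) (k : K) : Continuous (OF κ d k) := by
  by_cases hk : ∃ n, k = fk n ∨ k = -fk n
  · obtain ⟨n, hn⟩ := hk
    have e : OF κ d k = fun t => ((κ n * (2 * (d (fk (n + 1)) t).re) : ℝ) : ℂ) :=
      funext fun t => OF_lev κ d hn t
    rw [e]
    have := hd (fk (n + 1))
    fun_prop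
  · have e : OF κ d k = fun t => 0 := funext fun t => OF_not κ d hk t
    rw [e]
    exact continuous_const

theorem OF_deriv (κ : ℕ → ℝ) {d d' : SFam} {t : ℝ} (h : ∀ k, HasDerivAt (d k) (d' k t) t) (k : K) :
    HasDerivAt (OF κ d k) (OF κ d' k t) t := by
  by_cases hk : ∃ n, k = fk n ∨ k = -fk n
  · obtain ⟨n, hn⟩ := hk
    have e : OF κ d k = fun t => ((κ n * (2 * (d (fk (n + 1)) t).re) : ℝ) : ℂ) :=
      funext fun t => OF_lev κ d hn t
    rw [e, OF_lev κ d' hn]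
    have h1 : HasDerivAt (fun s => (d (fk (n + 1)) s).re) (d' (fk (n + 1)) t).re t :=
      Complex.reCLM.hasFDerivAt.comp_hasDerivAt t (h (fk (n + 1)))
    exact ((h1.const_mul 2).const_mul (κ n)).ofReal_comp
  · have e : OF κ d k = fun t => 0 := funext fun t => OF_not κ d hk t
    rw [e, OF_not κ d' hk]
    exact hasDerivAt_const _ _

theorem TT.OF {κ : ℕ → ℝ} (hκ : PG κ) {n : ℕ} : ∀ {d : SFam}, TT n d → TT n (OF κ d) := by
  induction n with
  | zero => intro d hd; exact ⟨RD.OF hκ hd.1, OF_cont κ hd.2⟩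
  | succ n ih =>
    intro d hd
    obtain ⟨h1, h2, d', h3, h4⟩ := hd
    exact ⟨RD.OF hκ h1, OF_cont κ h2, NU.OF κ d', fun k t ht => OF_deriv κ (fun k => h3 k t ht) k,
      ih h4⟩

/-- The rotation term. -/
noncomputable def RF (κ : ℕ → ℝ) (u : Fam) (i : Fin 3) : SFam := fun k t =>
  OF κ (cf' u 2) k t * J (u k t) i

theorem RF_eq (κ : ℕ → ℝ) (u : Fam) (i : Fin 3) (k : K) (t : ℝ) :
    RF κ u i k t = (om' κ (at' u t) k • J (u k t)) i := by
  unfold RF OF
  rw [Pi.smul_apply, Complex.real_smul]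
  have e : om' κ (fun l => ![0, 0, cf' u 2 l t]) k = om' κ (at' u t) k := by
    by_cases hk : ∃ n, k = fk n ∨ k = -fk n
    · obtain ⟨n, hn⟩ := hk
      rw [om_lev κ _ hn, om_lev κ _ hn]
      rfl
    · rw [om_not κ _ hk, om_not κ _ hk]
  rw [e]

theorem TT_J {u : Fam} {n : ℕ} (h : ∀ i, TT n (cf' u i)) (i : Fin 3) : TT n (fun k t => J (u k t) i) := by
  fin_cases i
  · have := TT.mul (n := n) (p := fun _ => 0) (C := 0) (r := 0) (fun k => by simp) (h 0)
    simpa [J] using this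
  · exact TT.neg (h 2)
  · exact h 1

theorem TT_RF {κ : ℕ → ℝ} (hκ : PG κ) {u : Fam} {n : ℕ} (h : ∀ i, TT n (cf' u i)) (i : Fin 3) :
    TT n (RF κ u i) := TT.pmul (TT.OF hκ (h 2)) (TT_J h i)

/-- The right hand side as a family. -/
noncomputable def RS (c : ℝ) (κ : ℕ → ℝ) (u : Fam) (i : Fin 3) : SFam := fun k t =>
  dU c u i k t + RF κ u i k t

theorem RS_eq (c : ℝ) (κ : ℕ → ℝ) (u : Fam) (i : Fin 3) (k : K) (t : ℝ) :
    RS c κ u i k t = RR c κ (at' u t) k i := by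
  unfold RS RR
  rw [Pi.add_apply, RF_eq, Pi.add_apply]
  congr 1
  unfold dU Bf cvv cv at'
  rw [Pi.smul_apply, Complex.real_smul, ← nk_sq]
  push_cast
  ring

theorem TT_RS {κ : ℕ → ℝ} (hκ : PG κ) (c : ℝ) {u : Fam} {n : ℕ} (h : ∀ i, TT n (cf' u i)) (i : Fin 3) :
    TT n (RS c κ u i) := (TT_dU h i).add (TT_RF hκ h i)

/-- The time change. -/
noncomputable def tc (t1 t2 τ : ℝ) : ℝ := t2 - (t2 - t1) * ed τ

theorem tc_mem {t1 t2 : ℝ} (h : t1 < t2) (τ : ℝ) : tc t1 t2 τ ∈ Ico t1 t2 := by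
  unfold tc
  have h1 := ed_pos τ
  have h2 := ed_le τ
  constructor
  · nlinarith
  · nlinarith

theorem tc_mem' {t1 t2 : ℝ} (h : t1 < t2) {τ : ℝ} (hτ : 0 < τ) : tc t1 t2 τ ∈ Ioo t1 t2 := by
  refine ⟨?_, (tc_mem h τ).2⟩
  unfold tc
  have h2 : ed τ < 1 := by
    unfold ed
    rw [max_eq_left hτ.le, Real.exp_lt_one_iff]
    linarith
  nlinarith

theorem tc_cont (t1 t2 : ℝ) : Continuous (tc t1 t2) := by
  unfold tc
  have := ed_cont
  fun_prop

theorem tc_deriv (t1 t2 : ℝ) {τ : ℝ} (hτ : 0 < τ) : HasDerivAt (tc t1 t2) ((t2 - t1) * ed τ) τ := by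
  unfold tc
  refine (((ed_deriv hτ).const_mul (t2 - t1)).const_sub t2).congr_deriv ?_
  ring

/-- The family in the new time. -/
noncomputable def CC (t1 t2 : ℝ) (u : Fam) : Fam := fun k τ => u k (tc t1 t2 τ)

variable {c T : ℝ} {κ : ℕ → ℝ} {a : K → C3} {u : Fam}

theorem LSol.CC_TT (h : LSol c κ T a u) (hc : 0 < c) (hκ : PG κ) {t1 t2 : ℝ} (h1 : 0 < t1) (h12 : t1 < t2)
    (h2 : t2 ≤ T) (n : ℕ) : ∀ i, TT n (cf' (CC t1 t2 u) i) := by
  have hmem : ∀ τ, tc t1 t2 τ ∈ Icc t1 T := fun τ =>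
    ⟨(tc_mem h12 τ).1, ((tc_mem h12 τ).2.trans_le h2).le⟩
  have hrd : ∀ i, RD (cf' (CC t1 t2 u) i) := by
    intro i m
    obtain ⟨b, hb, hb0, hbd⟩ := h.smooth hc m t1 h1
    refine ⟨b, hb, fun k τ => ?_⟩
    refine le_trans ?_ (hbd k _ (hmem τ))
    refine mul_le_mul_of_nonneg_left ?_ (pow_pos (pw_pos k) m).le
    exact (norm_le_pi_norm _ i).trans (norm_le_nw _)
  have hct : ∀ i k, Continuous (cf' (CC t1 t2 u) i k) := by
    intro i k
    have hc1 : Continuous fun τ => u k (tc t1 t2 τ) :=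
      (h.cont k).comp_continuous (tc_cont t1 t2) fun τ => ⟨h1.le.trans (hmem τ).1, (hmem τ).2⟩
    exact (continuous_apply i).comp hc1
  have hder : ∀ i k τ, 0 < τ → HasDerivAt (cf' (CC t1 t2 u) i k)
      (((t2 - t1 : ℝ) : ℂ) * ((ed τ : ℂ) * RS c κ (CC t1 t2 u) i k τ)) τ := by
    intro i k τ hτ
    have hm := tc_mem' h12 hτ
    have hd := h.ode k (tc t1 t2 τ) ⟨h1.trans hm.1, hm.2.trans_le h2⟩
    have hd2 := HasDerivAt.scomp τ hd (tc_deriv t1 t2 hτ)
    have hd3 := hasDerivAt_pi.1 hd2 i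
    refine hd3.congr_deriv ?_
    rw [RS_eq, Pi.smul_apply, Complex.real_smul]
    push_cast
    rw [mul_assoc]
    rfl
  induction n with
  | zero => intro i; exact ⟨hrd i, hct i⟩
  | succ n ih =>
    intro i
    refine ⟨hrd i, hct i, _, hder i, ?_⟩
    exact TT.mul (p := fun _ => ((t2 - t1 : ℝ) : ℂ)) (C := |t2 - t1|) (r := 0)
      (fun k => by rw [Complex.norm_real, Real.norm_eq_abs]; simp) (TT.ed (TT_RS hκ c ih i))

theorem LSol.CC_deriv (h : LSol c κ T a u) {t1 t2 : ℝ} (h1 : 0 < t1) (h12 : t1 < t2)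
    (h2 : t2 ≤ T) (i : Fin 3) (k : K) {τ : ℝ} (hτ : 0 < τ) : HasDerivAt (cf' (CC t1 t2 u) i k)
      (((t2 - t1 : ℝ) : ℂ) * ((ed τ : ℂ) * RS c κ (CC t1 t2 u) i k τ)) τ := by
  have hm := tc_mem' h12 hτ
  have hd := h.ode k (tc t1 t2 τ) ⟨h1.trans hm.1, hm.2.trans_le h2⟩
  have hd2 := HasDerivAt.scomp τ hd (tc_deriv t1 t2 hτ)
  have hd3 := hasDerivAt_pi.1 hd2 i
  refine hd3.congr_deriv ?_
  rw [RS_eq, Pi.smul_apply, Complex.real_smul]
  push_cast
  rw [mul_assoc]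
  rfl

end Pool.Agent.N980.NU
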