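import Pool.Agent.N980.NU.Kph
import Pool.Agent.H356R3.NS.Reg4

/-!
Properties of the bilinear operator on smooth periodic fields.
-/

open MeasureTheory Set Filter Topology
open scoped ContDiff

set_option linter.unusedVariables false

namespace Pool.Agent.N980.NU

open Pool.Agent.H356R3.NS (K C3 E3 R3 ex SN Sym RD TT SF SFam Fam cf' at' nk pw fj dS Bf dt)

/-! ### time independent families -/

/-- A family constant in time. -/
def cst (a : K → ℂ) : SFam := fun k _ => a k

theorem TT_cst {a : K → ℂ} (h : RD (cst a)) (n : ℕ) : TT n (cst a) := by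
  have h0 : ∀ n, TT n (cst fun _ => 0) := by
    intro n
    have hr : RD (cst fun _ => 0) := fun m => ⟨fun _ => 0, summable_zero, fun k t => by simp [cst]⟩
    induction n with
    | zero => exact ⟨hr, fun k => continuous_const⟩
    | succ n ih => exact ⟨hr, fun k => continuous_const, _, fun k t _ => hasDerivAt_const _ _, ih⟩
  cases n with
  | zero => exact ⟨h, fun k => continuous_const⟩
  | succ n => exact ⟨h, fun k => continuous_const, _, fun k t _ => hasDerivAt_const _ _, h0 n⟩

/-- The sum of the Fourier series. -/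
noncomputable def fs (a : K → ℂ) (x : V) : ℂ := ∑' k, a k * ex k x

theorem fs_SF (a : K → ℂ) (x : V) : fs a x = SF (cst a) (0, x) := rfl

theorem fs_GS (a : K → ℂ) (x : V) : fs a x = H356R3.NS.GS 0 (cst a) 0 x := by
  unfold H356R3.NS.GS
  rw [fs_SF]
  simp

theorem fs_smooth {a : K → ℂ} (h : RD (cst a)) : ContDiff ℝ ∞ fun x => (fs a x).re := by
  have h1 := H356R3.NS.GS_smooth_re 0 (c := cst a) (TT_cst h)
  rw [← contDiffOn_univ]
  have h2 : ContDiffOn ℝ ∞ (fun x : V => ((0 : ℝ), x)) univ :=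
    (contDiff_const.prodMk contDiff_id).contDiffOn
  have h3 := h1.comp h2 fun x _ => ⟨mem_Ici.2 le_rfl, mem_univ _⟩
  refine h3.congr fun x _ => ?_
  rw [fs_GS]
  rfl

theorem fs_per (a : K → ℂ) (x : V) (j : Fin 3) : fs a (x + Pi.single j 1) = fs a x := by
  unfold fs
  simp only [H356R3.NS.ex_periodic']

theorem pd_fs {a : K → ℂ} (h : RD (cst a)) (j : Fin 3) (x : V) :
    pd j (fun y => (fs a y).re) x = (fs (fun k => fj k j * a k) x).re := by
  have h1 := H356R3.NS.pd_GS' 0 (TT_cst h 1) le_rfl j x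
  have e1 : (fun y => (fs a y).re) = fun y => (H356R3.NS.GS 0 (cst a) 0 y).re :=
    funext fun y => by rw [fs_GS]
  have e2 : H356R3.NS.GS 0 (dS j (cst a)) 0 x = fs (fun k => fj k j * a k) x := by
    rw [fs_GS]; rfl
  rw [e1, ← e2]
  exact h1

theorem RD_fj {a : K → ℂ} (h : RD (cst a)) (j : Fin 3) : RD (cst fun k => fj k j * a k) :=
  h.mul fun k => H356R3.NS.norm_fj_le k j

theorem RD_summ {a : K → ℂ} (h : RD (cst a)) : Summable fun k => ‖a k‖ := by
  obtain ⟨b, hb, h⟩ := h.summ
  exact hb.of_nonneg_of_le (fun _ => norm_nonneg _) fun k => h k 0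

/-! ### comparison with the other library -/

theorem ee_ex (k : K) (x : V) : H459R3.NS.ee k x = ex k x := by
  unfold H459R3.NS.ee ex H459R3.NS.ph
  congr 2
  push_cast
  rfl

theorem fco_fr (v : V → V) (k : K) (i : Fin 3) : fco v k i = H459R3.NS.fr (fun x => v x i) k := by
  rw [fco_eq_ex]
  unfold H459R3.NS.fr H459R3.NS.fc
  congr 1
  funext x
  rw [ee_ex, mul_comm]

theorem fs_S (a : K → ℂ) (x : V) : fs a x = H459R3.NS.S a x := by
  unfold fs H459R3.NS.S
  simp only [ee_ex]

theorem SPV.sp {v : V → V} (h : SPV v) (i : Fin 3) : H459R3.NS.SP fun x => v x i where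
  smooth := (contDiff_apply ℝ ℝ i).comp h.1
  per := fun j x => by
    show v (x + Pi.single j 1) i = v x i
    rw [h.2 x j]

theorem RD_of_rap {a : K → ℂ} (h : H459R3.NS.Rap a) : RD (cst a) := by
  intro m
  have hN : ∀ k : K, pw k ≤ 3 * (1 + (H459R3.NS.N k : ℝ)) := by
    intro k
    unfold pw H356R3.NS.l1
    have h1 : ∀ i, |(k i : ℝ)| ≤ H459R3.NS.N k := by
      intro i
      have := (H459R3.NS.N_le_iff k _).1 le_rfl i
      exact_mod_cast this
    calc 1 + ∑ i, |(k i : ℝ)| ≤ 1 + ∑ i : Fin 3, (H459R3.NS.N k : ℝ) := by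
          gcongr with i
          exact h1 i
      _ = 1 + 3 * (H459R3.NS.N k : ℝ) := by simp
      _ ≤ _ := by linarith
  have h2 : ∀ k : K, pw k ^ m ≤ 3 ^ m * (2 ^ m * (1 + (H459R3.NS.N k : ℝ) ^ m)) := by
    intro k
    have h0 : (0 : ℝ) ≤ H459R3.NS.N k := by positivity
    calc pw k ^ m ≤ (3 * (1 + (H459R3.NS.N k : ℝ))) ^ m := pow_le_pow_left₀ (H356R3.NS.pw_pos k).le (hN k) m
      _ = 3 ^ m * (1 + (H459R3.NS.N k : ℝ)) ^ m := by rw [mul_pow]
      _ ≤ 3 ^ m * (2 ^ m * (1 + (H459R3.NS.N k : ℝ) ^ m)) := by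
          refine mul_le_mul_of_nonneg_left ?_ (by positivity)
          rcases le_total (H459R3.NS.N k : ℝ) 1 with h3 | h3
          · calc (1 + (H459R3.NS.N k : ℝ)) ^ m ≤ 2 ^ m := pow_le_pow_left₀ (by positivity) (by linarith) m
              _ ≤ 2 ^ m * (1 + (H459R3.NS.N k : ℝ) ^ m) := by
                  have : (0 : ℝ) ≤ (H459R3.NS.N k : ℝ) ^ m := by positivity
                  nlinarith [pow_pos (two_pos : (0 : ℝ) < 2) m]
          · calc (1 + (H459R3.NS.N k : ℝ)) ^ m ≤ (2 * (H459R3.NS.N k : ℝ)) ^ m :=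
                  pow_le_pow_left₀ (by positivity) (by linarith) m
              _ = 2 ^ m * (H459R3.NS.N k : ℝ) ^ m := by rw [mul_pow]
              _ ≤ _ := by
                  refine mul_le_mul_of_nonneg_left ?_ (by positivity)
                  linarith
  refine ⟨fun k => 3 ^ m * (2 ^ m * ((H459R3.NS.N k : ℝ) ^ 0 * ‖a k‖ + (H459R3.NS.N k : ℝ) ^ m * ‖a k‖)),
    (((h 0).add (h m)).mul_left _).mul_left _, fun k t => ?_⟩
  calc pw k ^ m * ‖cst a k t‖ ≤ 3 ^ m * (2 ^ m * (1 + (H459R3.NS.N k : ℝ) ^ m)) * ‖a k‖ :=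
        mul_le_mul_of_nonneg_right (h2 k) (norm_nonneg _)
    _ = _ := by ring

theorem SPV.rd {v : V → V} (h : SPV v) (i : Fin 3) : RD (cst fun k => fco v k i) := by
  have e : (fun k => fco v k i) = H459R3.NS.fr (fun x => v x i) := funext fun k => fco_fr v k i
  rw [e]
  exact RD_of_rap (H459R3.NS.rap_fr (h.sp i))

/-- Fourier inversion. -/
theorem SPV.inv {v : V → V} (h : SPV v) (x : V) (i : Fin 3) : ((v x i : ℝ) : ℂ) = fs (fun k => fco v k i) x := by
  have e : (fun k => fco v k i) = H459R3.NS.fr (fun x => v x i) := funext fun k => fco_fr v k i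
  rw [e, fs_S, H459R3.NS.S_fr (h.sp i)]

theorem SPV.cont {v : V → V} (h : SPV v) : Continuous v := h.1.continuous

/-- `SN` of the coefficients. -/
theorem SN_of_comp {a : K → C3} (h : ∀ i, Summable fun k => ‖a k i‖) : SN a := by
  refine (summable_sum fun i (_ : i ∈ Finset.univ) => h i).of_nonneg_of_le (fun _ => norm_nonneg _) fun k => ?_
  rw [pi_norm_le_iff_of_nonneg (Finset.sum_nonneg fun _ _ => norm_nonneg _)]
  intro i
  exact Finset.single_le_sum (f := fun i => ‖a k i‖) (fun _ _ => norm_nonneg _) (Finset.mem_univ i)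

/-- The Fourier coefficients of an absolutely convergent series. -/
theorem fco_fs {a : K → C3} (ha : SN a) (hs : Sym a) (k : K) (i : Fin 3) :
    fco (fun x i => (fs (fun k => a k i) x).re) k i = a k i := by
  have hsum : Summable fun k => a k i :=
    Summable.of_norm (ha.of_nonneg_of_le (fun _ => norm_nonneg _) fun k => norm_le_pi_norm _ i)
  have hreal : ∀ x, (((fs (fun k => a k i) x).re : ℝ) : ℂ) = fs (fun k => a k i) x := by
    intro x
    have h1 : (fs (fun k => a k i) x).im = 0 := by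
      rw [fs_SF]
      exact H356R3.NS.SF_real (c := cst fun k => a k i) (fun k t => hs k i) _
    apply Complex.ext
    · simp
    · simp [h1]
  rw [fco_eq_ex]
  have h2 := H459R3.NS.integral_ee_S (-k) hsum
  rw [neg_neg] at h2
  rw [← h2]
  congr 1
  funext x
  rw [hreal, fs_S, ee_ex, mul_comm]

/-- Parseval's identity. -/
theorem ip_fs {a : K → C3} (ha : SN a) (hs : Sym a) {w : V → V} (hw : Continuous w) :
    ip (fun x i => (fs (fun k => a k i) x).re) w = (∑' k, ∑ i, a k i * star (fco w k i)).re := by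
  have hsum : ∀ i, Summable fun k => a k i := fun i =>
    Summable.of_norm (ha.of_nonneg_of_le (fun _ => norm_nonneg _) fun k => norm_le_pi_norm _ i)
  have hreal : ∀ i x, (((fs (fun k => a k i) x).re : ℝ) : ℂ) = fs (fun k => a k i) x := by
    intro i x
    have h1 : (fs (fun k => a k i) x).im = 0 := by
      rw [fs_SF]
      exact H356R3.NS.SF_real (c := cst fun k => a k i) (fun k t => hs k i) _
    apply Complex.ext
    · simp
    · simp [h1]
  have hwc : ∀ i, Continuous fun x => ((w x i : ℝ) : ℂ) := fun i =>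
    Complex.continuous_ofReal.comp ((continuous_apply i).comp hw)
  have h1 : ∀ i, HasSum (fun k => a k i * star (fco w k i))
      (∫ x in cube, fs (fun k => a k i) x * ((w x i : ℝ) : ℂ)) := by
    intro i
    have h2 := H459R3.NS.integral_S_mul (hsum i) (hwc i)
    have e1 : (fun k => a k i * ∫ x in H459R3.NS.cube, H459R3.NS.ee k x * ((w x i : ℝ) : ℂ))
        = fun k => a k i * star (fco w k i) := by
      funext k
      have : star (fco w k i) = fco w (-k) i := (fco_sym w k i).symm
      rw [this, fco_eq_ex, neg_neg]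
      congr 2
      funext x
      rw [ee_ex, mul_comm]
    rw [e1] at h2
    have e2 : (∫ x in H459R3.NS.cube, H459R3.NS.S (fun k => a k i) x * ((w x i : ℝ) : ℂ))
        = ∫ x in cube, fs (fun k => a k i) x * ((w x i : ℝ) : ℂ) := by
      congr 1
      funext x
      rw [fs_S]
    rwa [e2] at h2
  have h3 : HasSum (fun k => ∑ i, a k i * star (fco w k i))
      (∑ i, ∫ x in cube, fs (fun k => a k i) x * ((w x i : ℝ) : ℂ)) := hasSum_sum fun i _ => h1 i
  rw [h3.tsum_eq]
  have hSc : ∀ i, Continuous fun x => fs (fun k => a k i) x := by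
    intro i
    have e : (fun x => fs (fun k => a k i) x) = H459R3.NS.S fun k => a k i := funext fun x => fs_S _ x
    rw [e]
    exact H459R3.NS.S_continuous (hsum i)
  have h4 : ∀ i, ∫ x in cube, fs (fun k => a k i) x * ((w x i : ℝ) : ℂ)
      = ((∫ x in cube, (fs (fun k => a k i) x).re * w x i : ℝ) : ℂ) := by
    intro i
    rw [← integral_complex_ofReal]
    congr 1
    funext x
    rw [Complex.ofReal_mul, hreal]
  simp only [h4]
  rw [← Complex.ofReal_sum, Complex.ofReal_re]
  unfold ip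
  rw [integral_finsetSum]
  intro i _
  exact int_on_cube ((Complex.continuous_re.comp (hSc i)).mul ((continuous_apply i).comp hw))

/-! ### the operator -/

/-- The coefficients of `K(u,v)`. -/
noncomputable def kc (lam : ℕ → ℝ) (u v : V → V) (k : K) : C3 :=
  om' (kap lam) (fco u) k • J (fco v k)

theorem kc_eq (lam : ℕ → ℝ) (u v : V → V) (k : K) (i : Fin 3) :
    kc lam u v k i = OF (kap lam) (cst fun k => fco u k 2) k 0 * J (fco v k) i := by
  unfold kc OF
  rw [Pi.smul_apply, Complex.real_smul]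
  have e : om' (kap lam) (fun l => ![0, 0, cst (fun k => fco u k 2) l 0]) k = om' (kap lam) (fco u) k := by
    by_cases hk : ∃ n, k = fk n ∨ k = -fk n
    · obtain ⟨n, hn⟩ := hk
      rw [om_lev _ _ hn, om_lev _ _ hn]
      rfl
    · rw [om_not _ _ hk, om_not _ _ hk]
  rw [e]

theorem RD_J {v : V → V} (hv : SPV v) (i : Fin 3) : RD (cst fun k => J (fco v k) i) := by
  fin_cases i
  · have := (hv.rd 0).mul (p := fun _ => 0) (C := 0) (r := 0) (fun k => by simp)
    simp only [zero_mul] at this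
    exact this
  · have := (hv.rd 2).mul (p := fun _ => -1) (C := 1) (r := 0) (fun k => by simp)
    simp only [neg_one_mul] at this
    exact this
  · exact hv.rd 1

theorem RD_kc {lam : ℕ → ℝ} (hl : PG (kap lam)) {u v : V → V} (hu : SPV u) (hv : SPV v) (i : Fin 3) :
    RD (cst fun k => kc lam u v k i) := by
  have h1 : RD (OF (kap lam) (cst fun k => fco u k 2)) := RD.OF hl (hu.rd 2)
  have h2 := RD.pmul h1 (RD_J hv i)
  intro m
  obtain ⟨b, hb, h⟩ := h2 m
  refine ⟨b, hb, fun k t => ?_⟩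
  have := h k 0
  show pw k ^ m * ‖kc lam u v k i‖ ≤ b k
  rw [kc_eq]
  exact this

theorem SN_kc {lam : ℕ → ℝ} (hl : PG (kap lam)) {u v : V → V} (hu : SPV u) (hv : SPV v) :
    SN (kc lam u v) := SN_of_comp fun i => RD_summ (RD_kc hl hu hv i)

theorem Sym_kc (lam : ℕ → ℝ) (u v : V → V) : Sym (kc lam u v) := by
  rw [Sym_iff]
  intro k
  unfold kc
  rw [om_neg', (Sym_iff.1 (fco_sym v)) k, ← cj_J, cj_smul]

theorem Kop_fs {lam : ℕ → ℝ} (hl : PG (kap lam)) {u v : V → V} (hu : SPV u) (hv : SPV v) :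
    Kop lam u v = fun x i => (fs (fun k => kc lam u v k i) x).re := by
  funext x i
  exact Kop_eq hu.cont hv.cont (SN_kc hl hu hv) x i

theorem SPV_Kop {lam : ℕ → ℝ} (hl : PG (kap lam)) {u v : V → V} (hu : SPV u) (hv : SPV v) :
    SPV (Kop lam u v) := by
  rw [Kop_fs hl hu hv]
  refine ⟨contDiff_pi.2 fun i => fs_smooth (RD_kc hl hu hv i), fun x j => ?_⟩
  funext i
  simp only [fs_per]

theorem fs_finsum {ι : Type*} (s : Finset ι) {a : ι → K → ℂ} (h : ∀ j ∈ s, Summable fun k => ‖a j k‖) (x : V) :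
    fs (fun k => ∑ j ∈ s, a j k) x = ∑ j ∈ s, fs (a j) x := by
  unfold fs
  rw [← Summable.tsum_finsetSum]
  · exact tsum_congr fun k => by rw [Finset.sum_mul]
  · intro j hj
    refine Summable.of_norm_bounded (h j hj) fun k => ?_
    rw [norm_mul, H356R3.NS.norm_ex, mul_one]

theorem dv_Kop {lam : ℕ → ℝ} (hl : PG (kap lam)) {u v : V → V} (hu : SPV u) (hv : SPV v) (x : V) :
    dv (Kop lam u v) x = 0 := by
  rw [Kop_fs hl hu hv]
  unfold dv
  simp only [pd_fs (RD_kc hl hu hv _)]
  rw [← Complex.re_sum, ← fs_finsum Finset.univ (a := fun j k => fj k j * kc lam u v k j)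
    (fun j _ => RD_summ (RD_fj (RD_kc hl hu hv j) j))]
  have : (fun k => ∑ j, fj k j * kc lam u v k j) = fun _ => 0 := by
    funext k
    have h1 : dt k (kc lam u v k) = 0 := dt_om_J _ _ k _
    unfold dt at h1
    unfold fj
    calc ∑ j, 2 * Real.pi * Complex.I * (k j : ℂ) * kc lam u v k j
        = 2 * Real.pi * Complex.I * ∑ j, (k j : ℂ) * kc lam u v k j := by
          rw [Finset.mul_sum]; exact Finset.sum_congr rfl fun j _ => by ring
      _ = 0 := by rw [h1, mul_zero]
  rw [this]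
  simp [fs]

theorem fco_Kop {lam : ℕ → ℝ} (hl : PG (kap lam)) {u v : V → V} (hu : SPV u) (hv : SPV v) :
    fco (Kop lam u v) = kc lam u v := by
  rw [Kop_fs hl hu hv]
  funext k i
  exact fco_fs (SN_kc hl hu hv) (Sym_kc lam u v) k i

theorem ip_comm (v w : V → V) : ip v w = ip w v := by
  unfold ip
  congr 1
  funext x
  exact Finset.sum_congr rfl fun i _ => mul_comm _ _

theorem Kop_skew {lam : ℕ → ℝ} (hl : PG (kap lam)) {u v w : V → V} (hu : SPV u) (hv : SPV v) (hw : SPV w) :
    ip (Kop lam u v) w = -ip v (Kop lam u w) := by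
  rw [ip_comm v, Kop_fs hl hu hv, Kop_fs hl hu hw, ip_fs (SN_kc hl hu hv) (Sym_kc _ _ _) hw.cont,
    ip_fs (SN_kc hl hu hw) (Sym_kc _ _ _) hv.cont]
  have hsum : ∀ {v w : V → V}, SPV v → SPV w → Summable fun k => ∑ i, kc lam u v k i * star (fco w k i) := by
    intro v w hv hw
    refine summable_sum fun i _ => ?_
    have h1 := RD_summ (RD_kc hl hu hv i)
    have h2 := RD_summ (hw.rd i)
    refine Summable.of_norm_bounded (h1.mul_right (∑' l, ‖fco w l i‖)) fun k => ?_
    rw [norm_mul, norm_star]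
    exact mul_le_mul_of_nonneg_left (h2.le_tsum k fun _ _ => norm_nonneg _) (norm_nonneg _)
  rw [Complex.re_tsum (hsum hv hw), Complex.re_tsum (hsum hw hv), ← tsum_neg]
  refine tsum_congr fun k => ?_
  unfold kc
  simp only [Fin.sum_univ_three, Pi.smul_apply, Complex.real_smul]
  simp only [J, Matrix.cons_val_zero, Matrix.cons_val_one, Matrix.cons_val, mul_zero, zero_mul, zero_add,
    Complex.star_def, Complex.add_re, Complex.mul_re, Complex.mul_im, Complex.neg_re, Complex.neg_im,
    Complex.conj_re, Complex.conj_im, Complex.ofReal_re, Complex.ofReal_im]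
  ring

/-- Bound of the trilinear form. -/
theorem sum_tri_le {lam : ℕ → ℝ} {u v w : V → V} (k : K) :
    ‖∑ i, kc lam u v k i * star (fco w k i)‖ ≤ |om' (kap lam) (fco u) k| *
      (Real.sqrt (∑ i, ‖fco v k i‖ ^ 2) * Real.sqrt (∑ i, ‖fco w k i‖ ^ 2)) := by
  have h1 : ∑ i, kc lam u v k i * star (fco w k i)
      = (om' (kap lam) (fco u) k : ℂ) * ∑ i, J (fco v k) i * star (fco w k i) := by
    rw [Finset.mul_sum]
    refine Finset.sum_congr rfl fun i _ => ?_
    unfold kc
    rw [Pi.smul_apply, Complex.real_smul]; ring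
  rw [h1, norm_mul, Complex.norm_real, Real.norm_eq_abs]
  refine mul_le_mul_of_nonneg_left ?_ (abs_nonneg _)
  have h2 : ‖∑ i, J (fco v k) i * star (fco w k i)‖ ≤ ∑ i, ‖J (fco v k) i‖ * ‖fco w k i‖ := by
    refine (norm_sum_le _ _).trans (Finset.sum_le_sum fun i _ => ?_)
    rw [norm_mul, norm_star]
  refine h2.trans ?_
  have h3 := Real.sum_mul_le_sqrt_mul_sqrt Finset.univ (fun i => ‖J (fco v k) i‖) (fun i => ‖fco w k i‖)
  refine h3.trans (mul_le_mul_of_nonneg_right ?_ (Real.sqrt_nonneg _))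
  apply Real.sqrt_le_sqrt
  simp only [Fin.sum_univ_three]
  simp only [J, Matrix.cons_val_zero, Matrix.cons_val_one, Matrix.cons_val, norm_neg, norm_zero]
  nlinarith [sq_nonneg ‖fco v k 0‖]

end Pool.Agent.N980.NU
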