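import Mathlib

/-!
Scalar linear differential equations with a rotation term.
-/

open MeasureTheory Set Filter Topology
open scoped Interval

namespace Pool.Agent.N980.NU

/-- The Duhamel integral. -/
noncomputable def gD (μ a : ℝ) (β : ℝ → ℝ) (t : ℝ) : ℝ :=
  ∫ s in a..t, Real.exp (-(μ * (t - s))) * β s

theorem gD_eq (μ a : ℝ) (β : ℝ → ℝ) (t : ℝ) :
    gD μ a β t = Real.exp (-(μ * (t - a))) * ∫ s in a..t, Real.exp (μ * (s - a)) * β s := by
  unfold gD
  rw [← intervalIntegral.integral_const_mul]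
  congr 1
  funext s
  rw [← mul_assoc, ← Real.exp_add]
  congr 2
  ring

theorem ii_of_cont {E : Type*} [NormedAddCommGroup E] {f : ℝ → E} {a T t : ℝ} (h : ContinuousOn f (Icc a T))
    (ht : t ∈ Icc a T) : IntervalIntegrable f volume a t := by
  refine ContinuousOn.intervalIntegrable_of_Icc ht.1 (h.mono (Icc_subset_Icc le_rfl ht.2))

theorem prim_cont {E : Type*} [NormedAddCommGroup E] [NormedSpace ℝ E] {f : ℝ → E} {a T : ℝ}
    (haT : a ≤ T) (h : ContinuousOn f (Icc a T)) :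
    ContinuousOn (fun t => ∫ s in a..t, f s) (Icc a T) := by
  have h1 : IntegrableOn f (uIcc a T) volume := by
    rw [uIcc_of_le haT]; exact h.integrableOn_Icc
  have := intervalIntegral.continuousOn_primitive_interval (μ := volume) h1
  rwa [uIcc_of_le haT] at this

theorem prim_deriv {E : Type*} [NormedAddCommGroup E] [NormedSpace ℝ E] [CompleteSpace E] {f : ℝ → E} {a T : ℝ}
    (h : ContinuousOn f (Icc a T)) {t : ℝ} (ht : t ∈ Ioo a T) :
    HasDerivAt (fun t => ∫ s in a..t, f s) (f t) t := by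
  have h0 : Icc a T ∈ 𝓝 t := Icc_mem_nhds ht.1 ht.2
  refine intervalIntegral.integral_hasDerivAt_right (ii_of_cont h ⟨ht.1.le, ht.2.le⟩) ?_
    (h.continuousAt h0)
  exact ContinuousOn.stronglyMeasurableAtFilter isOpen_Ioo (h.mono Ioo_subset_Icc_self) t ht

theorem gD_cont {μ a T : ℝ} {β : ℝ → ℝ} (haT : a ≤ T) (h : ContinuousOn β (Icc a T)) :
    ContinuousOn (gD μ a β) (Icc a T) := by
  have e : gD μ a β = fun t => Real.exp (-(μ * (t - a))) * ∫ s in a..t, Real.exp (μ * (s - a)) * β s :=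
    funext fun t => gD_eq μ a β t
  rw [e]
  refine ContinuousOn.mul (by fun_prop) (prim_cont haT ?_)
  exact ContinuousOn.mul (by fun_prop) h

theorem gD_deriv {μ a T : ℝ} {β : ℝ → ℝ} (h : ContinuousOn β (Icc a T)) {t : ℝ}
    (ht : t ∈ Ioo a T) : HasDerivAt (gD μ a β) (-μ * gD μ a β t + β t) t := by
  have e : gD μ a β = fun t => Real.exp (-(μ * (t - a))) * ∫ s in a..t, Real.exp (μ * (s - a)) * β s :=
    funext fun t => gD_eq μ a β t
  have h1 : HasDerivAt (fun t => Real.exp (-(μ * (t - a)))) (Real.exp (-(μ * (t - a))) * (-μ)) t := by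
    have : HasDerivAt (fun t => -(μ * (t - a))) (-μ) t := by
      simpa using (((hasDerivAt_id' t).sub_const a).const_mul μ).fun_neg
    exact this.exp
  have h2 : HasDerivAt (fun t => ∫ s in a..t, Real.exp (μ * (s - a)) * β s)
      (Real.exp (μ * (t - a)) * β t) t :=
    prim_deriv (f := fun s => Real.exp (μ * (s - a)) * β s) (ContinuousOn.mul (by fun_prop) h) ht
  have h3 := h1.fun_mul h2
  rw [e]
  refine h3.congr_deriv ?_
  have h4 : Real.exp (-(μ * (t - a))) * (Real.exp (μ * (t - a)) * β t) = β t := by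
    rw [← mul_assoc, ← Real.exp_add, neg_add_cancel, Real.exp_zero, one_mul]
  rw [h4]
  ring

theorem gD_self (μ a : ℝ) (β : ℝ → ℝ) : gD μ a β a = 0 := by simp [gD]

theorem gD_int {μ a T : ℝ} {β : ℝ → ℝ} (h : ContinuousOn β (Icc a T)) {t : ℝ}
    (ht : t ∈ Icc a T) : gD μ a β t + μ * ∫ s in a..t, gD μ a β s = ∫ s in a..t, β s := by
  have haT : a ≤ T := ht.1.trans ht.2
  have hc := gD_cont (μ := μ) haT h
  have hsub : Icc a t ⊆ Icc a T := Icc_subset_Icc le_rfl ht.2
  have i1 := ii_of_cont hc ht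
  have i2 := ii_of_cont h ht
  have key := intervalIntegral.integral_eq_sub_of_hasDerivAt_of_le ht.1 (hc.mono hsub)
    (f' := fun s => -μ * gD μ a β s + β s)
    (fun s hs => gD_deriv h ⟨hs.1, hs.2.trans_le ht.2⟩) ((i1.const_mul _).add i2)
  rw [gD_self, sub_zero, intervalIntegral.integral_add (i1.const_mul _) i2,
    intervalIntegral.integral_const_mul] at key
  linarith

theorem gD_nonneg {μ a T : ℝ} {β : ℝ → ℝ} (h : ∀ s ∈ Icc a T, 0 ≤ β s) {t : ℝ}
    (ht : t ∈ Icc a T) : 0 ≤ gD μ a β t :=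
  intervalIntegral.integral_nonneg ht.1 fun s hs =>
    mul_nonneg (Real.exp_nonneg _) (h s ⟨hs.1, hs.2.trans ht.2⟩)

theorem gD_le {μ a T : ℝ} {β : ℝ → ℝ} (hμ : 0 ≤ μ) (hc : ContinuousOn β (Icc a T))
    (h : ∀ s ∈ Icc a T, 0 ≤ β s) {t : ℝ}
    (ht : t ∈ Icc a T) : gD μ a β t ≤ ∫ s in a..t, β s := by
  have haT : a ≤ T := ht.1.trans ht.2
  have h1 := gD_int (μ := μ) hc ht
  have h2 : 0 ≤ ∫ s in a..t, gD μ a β s :=
    intervalIntegral.integral_nonneg ht.1 fun s hs => gD_nonneg h ⟨hs.1, hs.2.trans ht.2⟩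
  have := mul_nonneg hμ h2
  linarith

theorem gD_int_le {μ a T : ℝ} {β : ℝ → ℝ} (hc : ContinuousOn β (Icc a T))
    (h : ∀ s ∈ Icc a T, 0 ≤ β s) {t : ℝ}
    (ht : t ∈ Icc a T) : μ * ∫ s in a..t, gD μ a β s ≤ ∫ s in a..t, β s := by
  have h1 := gD_int (μ := μ) hc ht
  have h2 := gD_nonneg (μ := μ) h ht
  linarith

/-- Upper bound by a constant source. -/
theorem gD_le_const {μ a T B : ℝ} {β : ℝ → ℝ} (hμ : 0 < μ) (hc : ContinuousOn β (Icc a T))
    (h : ∀ s ∈ Icc a T, β s ≤ B) (hB : 0 ≤ B) {t : ℝ}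
    (ht : t ∈ Icc a T) : gD μ a β t ≤ B / μ := by
  have h1 : gD μ a β t ≤ ∫ s in a..t, Real.exp (-(μ * (t - s))) * B := by
    refine intervalIntegral.integral_mono_on ht.1 ?_ ?_ fun s hs => ?_
    · exact ii_of_cont (T := T) (ContinuousOn.mul (by fun_prop) hc) ht
    · exact (by fun_prop : Continuous fun s => Real.exp (-(μ * (t - s))) * B).intervalIntegrable _ _
    · exact mul_le_mul_of_nonneg_left (h s ⟨hs.1, hs.2.trans ht.2⟩) (Real.exp_nonneg _)
  have h2 : ∫ s in a..t, Real.exp (-(μ * (t - s))) * B = (1 - Real.exp (-(μ * (t - a)))) * B / μ := by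
    have hd : ∀ s ∈ uIcc a t, HasDerivAt (fun s => Real.exp (-(μ * (t - s))) * B / μ)
        (Real.exp (-(μ * (t - s))) * B) s := by
      intro s _
      have : HasDerivAt (fun s => -(μ * (t - s))) μ s := by
        simpa using (((hasDerivAt_id' s).const_sub t).const_mul μ).fun_neg
      refine ((this.exp.mul_const B).div_const μ).congr_deriv ?_
      field_simp
    rw [intervalIntegral.integral_eq_sub_of_hasDerivAt hd
      ((by fun_prop : Continuous fun s => Real.exp (-(μ * (t - s))) * B).intervalIntegrable _ _)]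
    rw [sub_self, mul_zero, neg_zero, Real.exp_zero]
    ring
  refine h1.trans (h2.le.trans ?_)
  apply div_le_div_of_nonneg_right _ hμ.le
  have := Real.exp_nonneg (-(μ * (t - a)))
  nlinarith

section
variable {μ a T σ : ℝ} {w b : ℝ → ℂ} {Ψ ω β : ℝ → ℝ} (haT : a ≤ T)
  (hwc : ContinuousOn w (Icc a T))
  (hw : ∀ t ∈ Ioo a T, HasDerivAt w ((-(μ : ℂ) + Complex.I * σ * ω t) * w t + b t) t)
  (hΨc : ContinuousOn Ψ (Icc a T)) (hΨ : ∀ t ∈ Ioo a T, HasDerivAt Ψ (ω t) t)
  (hb : ContinuousOn b (Icc a T)) (hβ : ContinuousOn β (Icc a T))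
  (hbβ : ∀ t ∈ Icc a T, ‖b t‖ ≤ β t)
include hwc hw hΨc hΨ hb hβ hbβ

/-- Duhamel's formula with a rotation. -/
theorem duh1 {t : ℝ} (ht : t ∈ Icc a T) :
    ‖w t - Complex.exp (-(μ * (t - a) : ℝ) + Complex.I * σ * (Ψ t - Ψ a : ℝ)) * w a‖
      ≤ gD μ a β t := by
  set e : ℝ → ℂ := fun s => ((μ * (s - a) : ℝ) : ℂ) - Complex.I * σ * ((Ψ s - Ψ a : ℝ) : ℂ) with he
  set F : ℝ → ℂ := fun s => Complex.exp (e s) * w s with hF
  have hsub : Icc a t ⊆ Icc a T := Icc_subset_Icc le_rfl ht.2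
  have hec : ContinuousOn e (Icc a T) := by
    refine ContinuousOn.sub (by fun_prop) (ContinuousOn.mul continuousOn_const ?_)
    exact Complex.continuous_ofReal.comp_continuousOn (hΨc.sub continuousOn_const)
  have hFc : ContinuousOn F (Icc a T) := (Complex.continuous_exp.comp_continuousOn hec).mul hwc
  have hFd : ∀ s ∈ Ioo a t, HasDerivAt F (Complex.exp (e s) * b s) s := by
    intro s hs
    have hs' : s ∈ Ioo a T := ⟨hs.1, hs.2.trans_le ht.2⟩
    have h1 : HasDerivAt e ((μ : ℂ) - Complex.I * σ * (ω s : ℂ)) s := by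
      have h2 : HasDerivAt (fun s => ((μ * (s - a) : ℝ) : ℂ)) (μ : ℂ) s := by
        have : HasDerivAt (fun s : ℝ => μ * (s - a)) μ s := by
          simpa using ((hasDerivAt_id' s).sub_const a).const_mul μ
        exact this.ofReal_comp
      have h3 : HasDerivAt (fun s => ((Ψ s - Ψ a : ℝ) : ℂ)) (ω s : ℂ) s :=
        ((hΨ s hs').sub_const _).ofReal_comp
      exact h2.sub (h3.const_mul _)
    have h4 := h1.cexp.fun_mul (hw s hs')
    refine h4.congr_deriv ?_
    ring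
  have hint : IntervalIntegrable (fun s => Complex.exp (e s) * b s) volume a t :=
    ii_of_cont (T := T) ((Complex.continuous_exp.comp_continuousOn hec).mul hb) ht
  have key := intervalIntegral.integral_eq_sub_of_hasDerivAt_of_le ht.1 (hFc.mono hsub) hFd hint
  have hnorm : ∀ s, ‖Complex.exp (e s)‖ = Real.exp (μ * (s - a)) := by
    intro s
    rw [Complex.norm_exp]
    congr 1
    simp [he, mul_assoc]
  have hFa : F a = w a := by
    simp [hF, he]
  have h5 : ‖F t - w a‖ ≤ ∫ s in a..t, Real.exp (μ * (s - a)) * β s := by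
    rw [← hFa, ← key]
    refine intervalIntegral.norm_integral_le_of_norm_le ht.1 (Eventually.of_forall fun s hs => ?_) ?_
    · rw [norm_mul, hnorm]
      exact mul_le_mul_of_nonneg_left (hbβ s ⟨hs.1.le, hs.2.trans ht.2⟩) (Real.exp_nonneg _)
    · exact ii_of_cont (T := T) (ContinuousOn.mul (by fun_prop) hβ) ht
  have h6 : w t - Complex.exp (-(μ * (t - a) : ℝ) + Complex.I * σ * (Ψ t - Ψ a : ℝ)) * w a
      = Complex.exp (-e t) * (F t - w a) := by
    have e1 : (-(μ * (t - a) : ℝ) + Complex.I * σ * (Ψ t - Ψ a : ℝ) : ℂ) = -e t := by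
      simp only [he]; ring
    have e2 : Complex.exp (-e t) * (F t) = w t := by
      show Complex.exp (-e t) * (Complex.exp (e t) * w t) = w t
      rw [← mul_assoc, ← Complex.exp_add, neg_add_cancel, Complex.exp_zero, one_mul]
    rw [mul_sub (Complex.exp (-e t)) (F t) (w a), e2, e1]
  rw [h6, norm_mul, Complex.exp_neg, norm_inv, hnorm, gD_eq, Real.exp_neg]
  exact mul_le_mul_of_nonneg_left h5 (inv_nonneg.2 (Real.exp_nonneg _))

theorem duh2 {t : ℝ} (ht : t ∈ Icc a T) :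
    ‖w t‖ ≤ Real.exp (-(μ * (t - a))) * ‖w a‖ + gD μ a β t := by
  have h1 := duh1 hwc hw hΨc hΨ hb hβ hbβ ht
  have h2 : ‖Complex.exp (-(μ * (t - a) : ℝ) + Complex.I * σ * (Ψ t - Ψ a : ℝ)) * w a‖
      = Real.exp (-(μ * (t - a))) * ‖w a‖ := by
    rw [norm_mul, Complex.norm_exp]
    congr 2
    simp [mul_assoc]
  calc ‖w t‖ ≤ ‖w t - Complex.exp (-(μ * (t - a) : ℝ) + Complex.I * σ * (Ψ t - Ψ a : ℝ)) * w a‖
        + ‖Complex.exp (-(μ * (t - a) : ℝ) + Complex.I * σ * (Ψ t - Ψ a : ℝ)) * w a‖ := by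
        have := norm_add_le (w t - Complex.exp (-(μ * (t - a) : ℝ) + Complex.I * σ * (Ψ t - Ψ a : ℝ)) * w a)
          (Complex.exp (-(μ * (t - a) : ℝ) + Complex.I * σ * (Ψ t - Ψ a : ℝ)) * w a)
        simpa using this
    _ ≤ _ := by rw [h2]; linarith

theorem duh3 {t : ℝ} (ht : t ∈ Icc a T) (hμ : 0 ≤ μ) :
    ‖w t‖ + μ * ∫ s in a..t, ‖w s‖ ≤ ‖w a‖ + ∫ s in a..t, β s := by
  have haT : a ≤ T := ht.1.trans ht.2
  have h1 := duh2 hwc hw hΨc hΨ hb hβ hbβ ht
  have hsub : Icc a t ⊆ Icc a T := Icc_subset_Icc le_rfl ht.2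
  have hgc := gD_cont (μ := μ) haT hβ
  have i1 : IntervalIntegrable (fun s => ‖w s‖) volume a t := ii_of_cont (T := T) hwc.norm ht
  have i2 : IntervalIntegrable (fun s => Real.exp (-(μ * (s - a))) * ‖w a‖) volume a t :=
    (by fun_prop : Continuous fun s => Real.exp (-(μ * (s - a))) * ‖w a‖).intervalIntegrable _ _
  have i3 : IntervalIntegrable (gD μ a β) volume a t := ii_of_cont hgc ht
  have h2 : ∫ s in a..t, ‖w s‖ ≤ ∫ s in a..t, (Real.exp (-(μ * (s - a))) * ‖w a‖ + gD μ a β s) :=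
    intervalIntegral.integral_mono_on ht.1 i1 (i2.add i3) fun s hs =>
      duh2 hwc hw hΨc hΨ hb hβ hbβ (hsub hs)
  rw [intervalIntegral.integral_add i2 i3, intervalIntegral.integral_mul_const] at h2
  have h3 : μ * ∫ s in a..t, Real.exp (-(μ * (s - a))) = 1 - Real.exp (-(μ * (t - a))) := by
    have hd : ∀ s ∈ uIcc a t, HasDerivAt (fun s => -Real.exp (-(μ * (s - a))))
        (μ * Real.exp (-(μ * (s - a)))) s := by
      intro s _
      have : HasDerivAt (fun s => -(μ * (s - a))) (-μ) s := by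
        simpa using (((hasDerivAt_id' s).sub_const a).const_mul μ).fun_neg
      refine this.exp.fun_neg.congr_deriv ?_
      ring
    rw [← intervalIntegral.integral_const_mul, intervalIntegral.integral_eq_sub_of_hasDerivAt hd
      ((by fun_prop : Continuous fun s => μ * Real.exp (-(μ * (s - a)))).intervalIntegrable _ _)]
    rw [sub_self, mul_zero, neg_zero, Real.exp_zero]
    ring
  have h4 := gD_int (μ := μ) hβ ht
  have h5 := mul_le_mul_of_nonneg_left h2 hμ
  have h6 : μ * ((∫ s in a..t, Real.exp (-(μ * (s - a)))) * ‖w a‖ + ∫ s in a..t, gD μ a β s)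
      = (1 - Real.exp (-(μ * (t - a)))) * ‖w a‖ + μ * ∫ s in a..t, gD μ a β s := by
    rw [mul_add, ← mul_assoc, h3]
  rw [h6] at h5
  linarith

end

end Pool.Agent.N980.NU
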