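import Pool.Agent.N980.NU.Mode

/-!
A priori bounds for the truncated system.
-/

open MeasureTheory Set Filter Topology

set_option linter.unusedVariables false

namespace Pool.Agent.N980.NU

open Pool.Agent.H356R3.NS

/-- A solution of the truncated system on `[0, T]`. -/
structure Gal (c : ℝ) (κ : ℕ → ℝ) (F : Finset K) (T : ℝ) (u : Fam) : Prop where
  supp : ∀ k, k ∉ F → ∀ t, u k t = 0
  cont : ∀ k, ContinuousOn (u k) (Icc 0 T)
  ode : ∀ k ∈ F, ∀ t ∈ Ioo 0 T, HasDerivAt (u k)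
    (-(c * nk k ^ 2) • u k t + Bf (at' u t) (at' u t) k + om' κ (at' u t) k • J (u k t)) t

/-- The source bound. -/
noncomputable def bt' (u : Fam) (k : K) (t : ℝ) : ℝ :=
  C1 * nk k * cc (fun l => nw (u l t)) (fun l => nw (u l t)) k

/-- The total size. -/
noncomputable def YY (F : Finset K) (u : Fam) (t : ℝ) : ℝ := ∑ k ∈ F, nw (u k t)

/-- The total dissipation. -/
noncomputable def DD (F : Finset K) (u : Fam) (t : ℝ) : ℝ := ∑ k ∈ F, nk k ^ 2 * nw (u k t)

variable {c : ℝ} {κ : ℕ → ℝ} {F : Finset K} {T : ℝ} {u : Fam}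

section supp
variable (hs : ∀ k, k ∉ F → ∀ t, u k t = 0)
include hs

theorem supp_summ (t : ℝ) : Summable fun k => nw (u k t) :=
  summable_of_ne_finset_zero (s := F) fun k hk => by rw [hs k hk t, nw_zero]

theorem supp_summ2 (t : ℝ) : Summable fun k => nk k ^ 2 * nw (u k t) :=
  summable_of_ne_finset_zero (s := F) fun k hk => by rw [hs k hk t, nw_zero, mul_zero]

theorem supp_tsum (t : ℝ) : ∑' k, nw (u k t) = YY F u t :=
  tsum_eq_sum fun k hk => by rw [hs k hk t, nw_zero]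

theorem supp_tsum2 (t : ℝ) : ∑' k, nk k ^ 2 * nw (u k t) = DD F u t :=
  tsum_eq_sum fun k hk => by rw [hs k hk t, nw_zero, mul_zero]

theorem supp_tsum1 (t : ℝ) : ∑' k, nk k * nw (u k t) = ∑ k ∈ F, nk k * nw (u k t) :=
  tsum_eq_sum fun k hk => by rw [hs k hk t, nw_zero, mul_zero]

theorem supp_SN (t : ℝ) : SN (at' u t) := SN_of_nw (supp_summ hs t)

theorem supp_cc (k : K) (t : ℝ) : cc (fun l => nw (u l t)) (fun l => nw (u l t)) k
    = ∑ l ∈ F, nw (u l t) * nw (u (k - l) t) :=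
  tsum_eq_sum fun l hl => by
    show nw (u l t) * nw (u (k - l) t) = 0
    rw [hs l hl t, nw_zero, zero_mul]

theorem supp_cv (k : K) (i j : Fin 3) (t : ℝ) : cv (at' u t) (at' u t) k i j
    = ∑ l ∈ F, u l t i * u (k - l) t j :=
  tsum_eq_sum fun l hl => by
    show u l t i * u (k - l) t j = 0
    rw [hs l hl t]; simp

variable {s : Set ℝ} (hc : ∀ k, ContinuousOn (u k) s)
include hc

theorem bt_cont (k : K) : ContinuousOn (bt' u k) s := by
  unfold bt'
  refine ContinuousOn.mul continuousOn_const ?_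
  have e : (fun t => cc (fun l => nw (u l t)) (fun l => nw (u l t)) k)
      = fun t => ∑ l ∈ F, nw (u l t) * nw (u (k - l) t) := funext fun t => supp_cc hs k t
  rw [e]
  exact continuousOn_finsetSum _ fun l _ =>
    (nw_continuous.comp_continuousOn (hc l)).mul (nw_continuous.comp_continuousOn (hc (k - l)))

theorem Bf_cont (k : K) : ContinuousOn (fun t => Bf (at' u t) (at' u t) k) s := by
  rw [continuousOn_pi]
  intro i
  unfold Bf
  refine continuousOn_finsetSum _ fun j _ => continuousOn_finsetSum _ fun m _ => ?_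
  refine ContinuousOn.mul continuousOn_const ?_
  have e : (fun t => cv (at' u t) (at' u t) k j m)
      = fun t => ∑ l ∈ F, u l t j * u (k - l) t m := funext fun t => supp_cv hs k j m t
  rw [e]
  refine continuousOn_finsetSum _ fun l _ => ?_
  exact ((continuous_apply j).comp_continuousOn (hc l)).mul
    ((continuous_apply m).comp_continuousOn (hc (k - l)))

end supp

theorem th_cont {s : Set ℝ} (hc : ∀ k, ContinuousOn (u k) s) (n : ℕ) :
    ContinuousOn (fun t => th n (at' u t)) s := by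
  unfold th at'
  refine ContinuousOn.mul continuousOn_const ?_
  exact Complex.continuous_re.comp_continuousOn ((continuous_apply 2).comp_continuousOn (hc _))

theorem om_cont {s : Set ℝ} (hc : ∀ k, ContinuousOn (u k) s) (κ : ℕ → ℝ) (k : K) :
    ContinuousOn (fun t => om' κ (at' u t) k) s := by
  by_cases h : ∃ n, k = fk n ∨ k = -fk n
  · obtain ⟨n, hn⟩ := h
    have e : (fun t => om' κ (at' u t) k) = fun t => κ n * th (n + 1) (at' u t) :=
      funext fun t => om_lev κ _ hn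
    rw [e]
    exact continuousOn_const.mul (th_cont hc _)
  · have e : (fun t => om' κ (at' u t) k) = fun t => 0 := funext fun t => om_not κ _ h
    rw [e]
    exact continuousOn_const

theorem Gal.mode (h : Gal c κ F T u) {k : K} (hk : k ∈ F) :
    Mode (c * nk k ^ 2) 0 T (u k) (fun t => Bf (at' u t) (at' u t) k)
      (fun t => om' κ (at' u t) k) where
  cont := h.cont k
  bcont := Bf_cont h.supp h.cont k
  ocont := om_cont h.cont κ k
  ode := fun t ht => h.ode k hk t ht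

theorem Gal.nwBf (h : Gal c κ F T u) (k : K) (t : ℝ) :
    nw (Bf (at' u t) (at' u t) k) ≤ bt' u k t := nw_Bf_le (supp_summ h.supp t) k

theorem bt_nonneg (u : Fam) (k : K) (t : ℝ) : 0 ≤ bt' u k t :=
  mul_nonneg (mul_nonneg C1_pos.le (nk_nonneg k))
    (cc_nonneg (fun _ => nw_nonneg _) (fun _ => nw_nonneg _) k)

theorem YY_nonneg (F : Finset K) (u : Fam) (t : ℝ) : 0 ≤ YY F u t :=
  Finset.sum_nonneg fun _ _ => nw_nonneg _

theorem DD_nonneg (F : Finset K) (u : Fam) (t : ℝ) : 0 ≤ DD F u t :=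
  Finset.sum_nonneg fun _ _ => mul_nonneg (sq_nonneg _) (nw_nonneg _)

theorem YY_cont {s : Set ℝ} (hc : ∀ k, ContinuousOn (u k) s) : ContinuousOn (YY F u) s :=
  continuousOn_finsetSum _ fun k _ => nw_continuous.comp_continuousOn (hc k)

theorem DD_cont {s : Set ℝ} (hc : ∀ k, ContinuousOn (u k) s) : ContinuousOn (DD F u) s :=
  continuousOn_finsetSum _ fun k _ =>
    continuousOn_const.mul (nw_continuous.comp_continuousOn (hc k))

theorem Gal.sum_bt (h : Gal c κ F T u) (hc : 0 < c) (t : ℝ) :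
    ∑ k ∈ F, bt' u k t ≤ c / 2 * DD F u t + 2 * C1 ^ 2 / c * YY F u t ^ 3 := by
  have h1 := sum_nk_cc (supp_summ h.supp t) (fun _ => nw_nonneg _) (supp_summ2 h.supp t) F
  rw [supp_tsum h.supp, supp_tsum1 h.supp] at h1
  have hY := YY_nonneg F u t
  have e : ∑ k ∈ F, bt' u k t
      = C1 * ∑ k ∈ F, nk k * cc (fun l => nw (u l t)) (fun l => nw (u l t)) k := by
    unfold bt'
    rw [Finset.mul_sum]
    exact Finset.sum_congr rfl fun k _ => by ring
  rw [e]
  have h2 : 2 * C1 * ((∑ k ∈ F, nk k * nw (u k t)) * YY F u t)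
      ≤ c / 2 * DD F u t + 2 * C1 ^ 2 / c * YY F u t ^ 2 * YY F u t := by
    rw [Finset.sum_mul, Finset.mul_sum]
    have e2 : c / 2 * DD F u t + 2 * C1 ^ 2 / c * YY F u t ^ 2 * YY F u t
        = ∑ k ∈ F, (c / 2 * nk k ^ 2 + 2 * C1 ^ 2 / c * YY F u t ^ 2) * nw (u k t) := by
      simp only [add_mul, Finset.sum_add_distrib]
      unfold DD
      rw [Finset.mul_sum]
      congr 1
      · exact Finset.sum_congr rfl fun k _ => by ring
      · rw [← Finset.mul_sum]; rfl
    rw [e2]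
    refine Finset.sum_le_sum fun k _ => ?_
    have h3 : 2 * C1 * (nk k * YY F u t) ≤ c / 2 * nk k ^ 2 + 2 * C1 ^ 2 / c * YY F u t ^ 2 := by
      have h4 : 0 ≤ (c * nk k - 2 * C1 * YY F u t) ^ 2 / (2 * c) := by positivity
      have h5 : (c * nk k - 2 * C1 * YY F u t) ^ 2 / (2 * c)
          = c / 2 * nk k ^ 2 + 2 * C1 ^ 2 / c * YY F u t ^ 2 - 2 * C1 * (nk k * YY F u t) := by
        field_simp; ring
      linarith
    have := mul_le_mul_of_nonneg_right h3 (nw_nonneg (u k t))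
    linarith
  have h6 := mul_le_mul_of_nonneg_left h1 C1_pos.le
  calc C1 * ∑ k ∈ F, nk k * cc (fun l => nw (u l t)) (fun l => nw (u l t)) k
      ≤ C1 * (2 * ((∑ k ∈ F, nk k * nw (u k t)) * YY F u t)) := h6
    _ = 2 * C1 * ((∑ k ∈ F, nk k * nw (u k t)) * YY F u t) := by ring
    _ ≤ _ := h2
    _ = _ := by ring

theorem Gal.sum_nk_bt (h : Gal c κ F T u) (S : Finset K) (t : ℝ) :
    ∑ k ∈ S, nk k * bt' u k t ≤ 4 * C1 * (DD F u t * YY F u t) := by
  have h1 := sum_nk2_cc (supp_summ h.supp t) (fun _ => nw_nonneg _) (supp_summ2 h.supp t) S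
  rw [supp_tsum h.supp, supp_tsum2 h.supp] at h1
  have e : ∑ k ∈ S, nk k * bt' u k t
      = C1 * ∑ k ∈ S, nk k ^ 2 * cc (fun l => nw (u l t)) (fun l => nw (u l t)) k := by
    unfold bt'
    rw [Finset.mul_sum]
    exact Finset.sum_congr rfl fun k _ => by ring
  rw [e]
  have h6 := mul_le_mul_of_nonneg_left h1 C1_pos.le
  linarith

theorem Gal.bal (h : Gal c κ F T u) (hc : 0 < c) {t : ℝ} (ht : t ∈ Icc 0 T) :
    YY F u t + c / 2 * ∫ s in (0 : ℝ)..t, DD F u s
      ≤ YY F u 0 + 2 * C1 ^ 2 / c * ∫ s in (0 : ℝ)..t, YY F u s ^ 3 := by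
  have h1 : ∀ k ∈ F, nw (u k t) + c * nk k ^ 2 * ∫ s in (0 : ℝ)..t, nw (u k s)
      ≤ nw (u k 0) + ∫ s in (0 : ℝ)..t, bt' u k s := by
    intro k hk
    have h2 := (h.mode hk).balance (by positivity) ht
    have h3 : ∫ s in (0 : ℝ)..t, nw (Bf (at' u s) (at' u s) k) ≤ ∫ s in (0 : ℝ)..t, bt' u k s := by
      refine intervalIntegral.integral_mono_on ht.1 ?_ ?_ fun s _ => h.nwBf k s
      · exact ii_of_cont (T := T) (nw_continuous.comp_continuousOn (h.mode hk).bcont) ht
      · exact ii_of_cont (T := T) (bt_cont h.supp h.cont k) ht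
    linarith
  have h4 := Finset.sum_le_sum h1
  rw [Finset.sum_add_distrib, Finset.sum_add_distrib] at h4
  have hYc := YY_cont (F := F) h.cont
  have hDc := DD_cont (F := F) h.cont
  have e1 : ∑ k ∈ F, c * nk k ^ 2 * ∫ s in (0 : ℝ)..t, nw (u k s)
      = c * ∫ s in (0 : ℝ)..t, DD F u s := by
    unfold DD
    rw [intervalIntegral.integral_finsetSum]
    · rw [Finset.mul_sum]
      refine Finset.sum_congr rfl fun k _ => ?_
      rw [intervalIntegral.integral_const_mul]; ring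
    · intro k _
      exact (ii_of_cont (T := T) (nw_continuous.comp_continuousOn (h.cont k)) ht).const_mul _
  have e2 : ∑ k ∈ F, ∫ s in (0 : ℝ)..t, bt' u k s = ∫ s in (0 : ℝ)..t, ∑ k ∈ F, bt' u k s := by
    rw [intervalIntegral.integral_finsetSum]
    intro k _
    exact ii_of_cont (T := T) (bt_cont h.supp h.cont k) ht
  rw [e1, e2] at h4
  have i1 : IntervalIntegrable (fun s => c / 2 * DD F u s) volume 0 t :=
    (ii_of_cont (T := T) hDc ht).const_mul _
  have i2 : IntervalIntegrable (fun s => 2 * C1 ^ 2 / c * YY F u s ^ 3) volume 0 t :=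
    (ii_of_cont (T := T) (hYc.pow 3) ht).const_mul _
  have h5 : ∫ s in (0 : ℝ)..t, ∑ k ∈ F, bt' u k s
      ≤ ∫ s in (0 : ℝ)..t, (c / 2 * DD F u s + 2 * C1 ^ 2 / c * YY F u s ^ 3) := by
    refine intervalIntegral.integral_mono_on ht.1 ?_ (i1.add i2) fun s _ => h.sum_bt hc s
    exact ii_of_cont (T := T) (continuousOn_finsetSum _ fun k _ => bt_cont h.supp h.cont k) ht
  rw [intervalIntegral.integral_add i1 i2, intervalIntegral.integral_const_mul,
    intervalIntegral.integral_const_mul] at h5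
  change YY F u t + c * ∫ s in (0 : ℝ)..t, DD F u s ≤ YY F u 0 + _ at h4
  linarith

/-- The life span. -/
noncomputable def T0 (c A : ℝ) : ℝ := c / (32 * C1 ^ 2 * A ^ 2)

theorem T0_pos {c A : ℝ} (hc : 0 < c) (hA : 0 < A) : 0 < T0 c A := by
  have := C1_pos
  unfold T0; positivity

theorem Gal.apri (h : Gal c κ F T u) (hc : 0 < c) {A : ℝ} (hA : 0 < A) (h0 : YY F u 0 ≤ A) {t : ℝ}
    (ht : t ∈ Icc 0 T) (htT : t ≤ T0 c A) (hY : ∀ s ∈ Icc 0 t, YY F u s ≤ 2 * A) :
    YY F u t + c / 2 * ∫ s in (0 : ℝ)..t, DD F u s ≤ 3 / 2 * A := by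
  have h1 := h.bal hc ht
  have hC := C1_pos
  have h2 : ∫ s in (0 : ℝ)..t, YY F u s ^ 3 ≤ (2 * A) ^ 3 * t := by
    have h3 : ∫ s in (0 : ℝ)..t, YY F u s ^ 3 ≤ ∫ s in (0 : ℝ)..t, (2 * A) ^ 3 := by
      refine intervalIntegral.integral_mono_on ht.1 ?_ (by simp) fun s hs =>
        pow_le_pow_left₀ (YY_nonneg F u s) (hY s hs) 3
      exact ii_of_cont (T := T) ((YY_cont h.cont).pow 3) ht
    rw [intervalIntegral.integral_const, smul_eq_mul, sub_zero] at h3
    linarith
  have h4 : 2 * C1 ^ 2 / c * ((2 * A) ^ 3 * t) ≤ A / 2 := by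
    have h5 : 2 * C1 ^ 2 / c * ((2 * A) ^ 3 * t) ≤ 2 * C1 ^ 2 / c * ((2 * A) ^ 3 * T0 c A) := by
      apply mul_le_mul_of_nonneg_left _ (by positivity)
      exact mul_le_mul_of_nonneg_left htT (by positivity)
    refine h5.trans (le_of_eq ?_)
    unfold T0
    field_simp
    ring
  have h6 : 2 * C1 ^ 2 / c * ∫ s in (0 : ℝ)..t, YY F u s ^ 3 ≤ 2 * C1 ^ 2 / c * ((2 * A) ^ 3 * t) :=
    mul_le_mul_of_nonneg_left h2 (by positivity)
  linarith

/-- The first-exit argument. -/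
theorem exit {f : ℝ → ℝ} {B T : ℝ} (hT : 0 ≤ T) (hf : ContinuousOn f (Icc 0 T)) (h0 : f 0 < B)
    (h : ∀ t ∈ Icc 0 T, (∀ s ∈ Icc 0 t, f s ≤ B) → f t < B) : ∀ t ∈ Icc 0 T, f t ≤ B := by
  have hcl : IsClosed ({t | ∀ s ∈ Icc 0 t, f s ≤ B} ∩ Icc 0 T) := by
    have e : {t | ∀ s ∈ Icc 0 t, f s ≤ B} ∩ Icc 0 T
        = {t | t ∈ Icc 0 T ∧ ∀ s ∈ Ico 0 t, f s ≤ B} := by
      ext t
      constructor
      · rintro ⟨h1, h2⟩
        exact ⟨h2, fun s hs => h1 s ⟨hs.1, hs.2.le⟩⟩
      · rintro ⟨h1, h2⟩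
        refine ⟨fun s hs => ?_, h1⟩
        rcases hs.2.lt_or_eq with h3 | h3
        · exact h2 s ⟨hs.1, h3⟩
        · subst h3
          rcases hs.1.lt_or_eq with h4 | h4
          · have h5 : ContinuousWithinAt f (Ico 0 s) s :=
              (hf s h1).mono fun r hr => ⟨hr.1, hr.2.le.trans h1.2⟩
            have h6 : (𝓝[Ico 0 s] s).NeBot := by
              rw [← mem_closure_iff_nhdsWithin_neBot, closure_Ico h4.ne]
              exact ⟨h4.le, le_rfl⟩
            exact le_of_tendsto h5 (eventually_nhdsWithin_of_forall fun r hr => h2 r hr)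
          · rw [← h4]; exact h0.le
    rw [e]
    have e2 : {t | t ∈ Icc 0 T ∧ ∀ s ∈ Ico 0 t, f s ≤ B}
        = Icc 0 T ∩ ⋂ s ∈ {s | 0 ≤ s ∧ ¬f s ≤ B}, Iic s := by
      ext t
      simp only [mem_ofPred_eq, mem_inter_iff, mem_iInter, mem_Iic, mem_Ico]
      refine and_congr_right fun _ => ⟨fun h1 s hs => ?_, fun h1 s hs => ?_⟩
      · by_contra h2
        exact hs.2 (h1 s ⟨hs.1, not_le.1 h2⟩)
      · by_contra h2
        exact absurd hs.2 (not_lt.2 (h1 s ⟨hs.1, h2⟩))
    rw [e2]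
    exact isClosed_Icc.inter (isClosed_biInter fun _ _ => isClosed_Iic)
  have key := hcl.Icc_subset_of_forall_mem_nhdsWithin (a := 0) (b := T)
    (by intro s hs
        have : s = 0 := le_antisymm hs.2 hs.1
        rw [this]; exact h0.le)
    (fun t ht => by
      have hlt := h t ⟨ht.2.1, ht.2.2.le⟩ ht.1
      have h1 : ∀ᶠ s in 𝓝[Icc 0 T] t, f s < B := (hf t ⟨ht.2.1, ht.2.2.le⟩).eventually (gt_mem_nhds hlt)
      rw [eventually_nhdsWithin_iff, Metric.eventually_nhds_iff] at h1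
      obtain ⟨r, hr, h2⟩ := h1
      have h3 : Ioo t (min (t + r) T) ∈ 𝓝[>] t :=
        Ioo_mem_nhdsGT (lt_min (by linarith) ht.2.2)
      refine mem_of_superset h3 fun z hz s hs => ?_
      rcases le_or_gt s t with h4 | h4
      · exact ht.1 s ⟨hs.1, h4⟩
      · refine (h2 ?_ ⟨hs.1, hs.2.trans (hz.2.le.trans (min_le_right _ _))⟩).le
        rw [Real.dist_eq, abs_of_pos (by linarith)]
        have := hz.2.trans_le (min_le_left (t + r) T)
        linarith [hs.2])
  intro t ht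
  exact key ht t ⟨ht.1, le_rfl⟩

end Pool.Agent.N980.NU
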