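import Pool.Agent.H356R3.NS.Reg3

/-!
The rotation term on the Fourier side.
-/

open MeasureTheory Set Filter Topology

namespace Pool.Agent.N980.NU

open Pool.Agent.H356R3.NS

/-- The frequency `(20^n, 0, 0)`. -/
def fk (n : ℕ) : K := ![20 ^ n, 0, 0]

theorem fk_inj {n m : ℕ} (h : fk n = fk m) : n = m := by
  have h1 := congrFun h 0
  simp only [fk, Matrix.cons_val_zero] at h1
  exact Int.pow_right_injective (by norm_num) h1

theorem fk_ne_neg (n m : ℕ) : fk n ≠ -fk m := by
  intro h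
  have h1 := congrFun h 0
  simp only [fk, Matrix.cons_val_zero, Pi.neg_apply] at h1
  have h2 : (0 : ℤ) < 20 ^ n := by positivity
  have h3 : (0 : ℤ) < 20 ^ m := by positivity
  omega

theorem fk_ne_zero (n : ℕ) : fk n ≠ 0 := by
  intro h
  have h1 := congrFun h 0
  simp only [fk, Matrix.cons_val_zero, Pi.zero_apply] at h1
  have h2 : (0 : ℤ) < 20 ^ n := by positivity
  omega

theorem sq_fk (n : ℕ) : H356R3.NS.sq (fk n) = (20 ^ n) ^ 2 := by
  simp [H356R3.NS.sq, fk, Fin.sum_univ_three]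

theorem nk_fk (n : ℕ) : nk (fk n) = 20 ^ n := by
  rw [nk, sq_fk, Real.sqrt_sq (by positivity)]

/-- The driving coefficient. -/
noncomputable def th (n : ℕ) (x : K → C3) : ℝ := 2 * (x (fk n) 2).re

/-- `e₁ × v`. -/
def J (v : C3) : C3 := ![0, -v 2, v 1]

open Classical in
/-- The rate of rotation of the mode `k`. -/
noncomputable def om' (κ : ℕ → ℝ) (x : K → C3) (k : K) : ℝ :=
  if h : ∃ n, k = fk n ∨ k = -fk n then κ h.choose * th (h.choose + 1) x else 0

theorem lev_uniq {k : K} {n m : ℕ} (hn : k = fk n ∨ k = -fk n) (hm : k = fk m ∨ k = -fk m) : n = m := by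
  rcases hn with hn | hn <;> rcases hm with hm | hm
  · exact fk_inj (hn.symm.trans hm)
  · exact absurd (hn.symm.trans hm) (fk_ne_neg _ _)
  · exact absurd (hm.symm.trans hn) (fk_ne_neg _ _)
  · exact fk_inj (neg_injective (hn.symm.trans hm))

theorem om_lev (κ : ℕ → ℝ) (x : K → C3) {k : K} {n : ℕ} (hn : k = fk n ∨ k = -fk n) :
    om' κ x k = κ n * th (n + 1) x := by
  have h : ∃ n, k = fk n ∨ k = -fk n := ⟨n, hn⟩
  rw [om', dif_pos h, lev_uniq h.choose_spec hn]

theorem om_fk (κ : ℕ → ℝ) (x : K → C3) (n : ℕ) : om' κ x (fk n) = κ n * th (n + 1) x :=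
  om_lev κ x (Or.inl rfl)

theorem om_not (κ : ℕ → ℝ) (x : K → C3) {k : K} (h : ¬∃ n, k = fk n ∨ k = -fk n) :
    om' κ x k = 0 := by
  rw [om', dif_neg h]

theorem lev_neg {k : K} : (∃ n, -k = fk n ∨ -k = -fk n) ↔ ∃ n, k = fk n ∨ k = -fk n := by
  constructor
  · rintro ⟨n, h | h⟩
    · exact ⟨n, Or.inr (by rw [← h, neg_neg])⟩
    · exact ⟨n, Or.inl (neg_injective h)⟩
  · rintro ⟨n, h | h⟩
    · exact ⟨n, Or.inr (by rw [h])⟩
    · exact ⟨n, Or.inl (by rw [h, neg_neg])⟩

theorem om_neg' (κ : ℕ → ℝ) (x : K → C3) (k : K) : om' κ x (-k) = om' κ x k := by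
  by_cases h : ∃ n, k = fk n ∨ k = -fk n
  · obtain ⟨n, hn⟩ := h
    rw [om_lev κ x hn]
    refine om_lev κ x ?_
    rcases hn with hn | hn
    · right; rw [hn]
    · left; rw [hn, neg_neg]
  · rw [om_not κ x h, om_not κ x (fun h' => h (lev_neg.1 h'))]

/-! ### components -/

/-- The sign of the rotation. -/
def sg : Fin 3 → ℝ := ![0, 1, -1]

/-- The components in which the rotation is diagonal. -/
noncomputable def el (i : Fin 3) (v : C3) : ℂ :=
  (![v 0, v 1 + Complex.I * v 2, v 1 - Complex.I * v 2] : Fin 3 → ℂ) i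

@[simp] theorem el_zero (v : C3) : el 0 v = v 0 := rfl
@[simp] theorem el_one (v : C3) : el 1 v = v 1 + Complex.I * v 2 := rfl
@[simp] theorem el_two (v : C3) : el 2 v = v 1 - Complex.I * v 2 := rfl

theorem el_J (i : Fin 3) (v : C3) : el i (J v) = Complex.I * sg i * el i v := by
  fin_cases i
  · simp [J, sg]
  · simp only [J, sg, Fin.mk_one, Fin.isValue, el_one, Matrix.cons_val_one, Matrix.cons_val_zero,
      Matrix.cons_val, Complex.ofReal_one, mul_one]
    linear_combination (-(v 2)) * Complex.I_mul_I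
  · simp only [J, sg, Fin.reduceFinMk, Fin.isValue, el_two, Matrix.cons_val_one, Matrix.cons_val_zero,
      Matrix.cons_val, Complex.ofReal_neg, Complex.ofReal_one, mul_neg, mul_one]
    linear_combination (-(v 2)) * Complex.I_mul_I

theorem el_add (i : Fin 3) (v w : C3) : el i (v + w) = el i v + el i w := by
  fin_cases i
  · simp
  · simp only [Fin.mk_one, Fin.isValue, el_one, Pi.add_apply]; ring
  · simp only [Fin.reduceFinMk, Fin.isValue, el_two, Pi.add_apply]; ring

theorem el_smul (i : Fin 3) (r : ℝ) (v : C3) : el i (r • v) = r * el i v := by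
  fin_cases i
  · simp
  · simp only [Fin.mk_one, Fin.isValue, el_one, Pi.smul_apply, Complex.real_smul]; ring
  · simp only [Fin.reduceFinMk, Fin.isValue, el_two, Pi.smul_apply, Complex.real_smul]; ring

theorem el_sub (i : Fin 3) (v w : C3) : el i (v - w) = el i v - el i w := by
  fin_cases i
  · simp
  · simp only [Fin.mk_one, Fin.isValue, el_one, Pi.sub_apply]; ring
  · simp only [Fin.reduceFinMk, Fin.isValue, el_two, Pi.sub_apply]; ring

theorem el_zero_vec (i : Fin 3) : el i 0 = 0 := by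
  fin_cases i <;> simp

theorem el_continuous (i : Fin 3) : Continuous (el i) := by
  fin_cases i
  · simp only [Fin.zero_eta, Fin.isValue]
    show Continuous fun v : C3 => v 0
    fun_prop
  · simp only [Fin.mk_one, Fin.isValue]
    show Continuous fun v : C3 => v 1 + Complex.I * v 2
    fun_prop
  · simp only [Fin.reduceFinMk, Fin.isValue]
    show Continuous fun v : C3 => v 1 - Complex.I * v 2
    fun_prop

theorem el_deriv (i : Fin 3) {f : ℝ → C3} {f' : C3} {t : ℝ} (h : HasDerivAt f f' t) :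
    HasDerivAt (fun s => el i (f s)) (el i f') t := by
  have h0 := hasDerivAt_pi.1 h
  fin_cases i
  · exact h0 0
  · exact (h0 1).fun_add ((h0 2).const_mul Complex.I)
  · exact (h0 1).fun_sub ((h0 2).const_mul Complex.I)

/-- The norm. -/
noncomputable def nw (v : C3) : ℝ := ∑ i, ‖el i v‖

theorem nw_nonneg (v : C3) : 0 ≤ nw v := Finset.sum_nonneg fun _ _ => norm_nonneg _

theorem el_le_nw (i : Fin 3) (v : C3) : ‖el i v‖ ≤ nw v :=
  Finset.single_le_sum (f := fun i => ‖el i v‖) (fun _ _ => norm_nonneg _) (Finset.mem_univ i)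

theorem nw_zero : nw 0 = 0 := by simp [nw, el_zero_vec]

theorem nw_continuous : Continuous nw := by
  unfold nw
  exact continuous_finsetSum _ fun i _ => (el_continuous i).norm

theorem nw_add (v w : C3) : nw (v + w) ≤ nw v + nw w := by
  unfold nw
  rw [← Finset.sum_add_distrib]
  refine Finset.sum_le_sum fun i _ => ?_
  rw [el_add]; exact norm_add_le _ _

theorem nw_smul (r : ℝ) (v : C3) : nw (r • v) = |r| * nw v := by
  unfold nw
  rw [Finset.mul_sum]
  refine Finset.sum_congr rfl fun i _ => ?_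
  rw [el_smul, norm_mul, Complex.norm_real, Real.norm_eq_abs]

theorem norm_le_nw (v : C3) : ‖v‖ ≤ nw v := by
  have h1 := el_le_nw 0 v
  have hs : ‖v 1 + Complex.I * v 2‖ + ‖v 1 - Complex.I * v 2‖ ≤ nw v := by
    unfold nw
    rw [Fin.sum_univ_three, el_one, el_two]
    have := norm_nonneg (el 0 v)
    linarith
  rw [pi_norm_le_iff_of_nonneg (nw_nonneg v)]
  intro i
  fin_cases i
  · exact h1
  · show ‖v 1‖ ≤ nw v
    have e : v 1 = (1 / 2 : ℂ) * ((v 1 + Complex.I * v 2) + (v 1 - Complex.I * v 2)) := by ring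
    have h2 : ‖v 1‖ ≤ (1 / 2) * (‖v 1 + Complex.I * v 2‖ + ‖v 1 - Complex.I * v 2‖) := by
      calc ‖v 1‖ = ‖(1 / 2 : ℂ) * ((v 1 + Complex.I * v 2) + (v 1 - Complex.I * v 2))‖ := by rw [← e]
        _ = (1 / 2) * ‖(v 1 + Complex.I * v 2) + (v 1 - Complex.I * v 2)‖ := by
            rw [norm_mul]; norm_num
        _ ≤ _ := by
            apply mul_le_mul_of_nonneg_left (norm_add_le _ _) (by norm_num)
    have := nw_nonneg v
    linarith
  · show ‖v 2‖ ≤ nw v
    have e : v 2 = (-Complex.I / 2 : ℂ) * ((v 1 + Complex.I * v 2) - (v 1 - Complex.I * v 2)) := by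
      linear_combination (v 2) * Complex.I_mul_I
    have h2 : ‖v 2‖ ≤ (1 / 2) * (‖v 1 + Complex.I * v 2‖ + ‖v 1 - Complex.I * v 2‖) := by
      calc ‖v 2‖ = ‖(-Complex.I / 2 : ℂ) * ((v 1 + Complex.I * v 2) - (v 1 - Complex.I * v 2))‖ := by
            rw [← e]
        _ = (1 / 2) * ‖(v 1 + Complex.I * v 2) - (v 1 - Complex.I * v 2)‖ := by
            rw [norm_mul]; norm_num
        _ ≤ _ := by
            apply mul_le_mul_of_nonneg_left (norm_sub_le _ _) (by norm_num)
    have := nw_nonneg v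
    linarith

theorem nw_le_norm (v : C3) : nw v ≤ 5 * ‖v‖ := by
  have h0 := norm_le_pi_norm v 0
  have h1 := norm_le_pi_norm v 1
  have h2 := norm_le_pi_norm v 2
  unfold nw
  rw [Fin.sum_univ_three, el_zero, el_one, el_two]
  have h3 : ‖v 1 + Complex.I * v 2‖ ≤ ‖v 1‖ + ‖v 2‖ := by
    refine (norm_add_le _ _).trans ?_
    rw [norm_mul, Complex.norm_I, one_mul]
  have h4 : ‖v 1 - Complex.I * v 2‖ ≤ ‖v 1‖ + ‖v 2‖ := by
    refine (norm_sub_le _ _).trans ?_
    rw [norm_mul, Complex.norm_I, one_mul]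
  linarith

theorem nw_J_le (v : C3) : ‖J v‖ ≤ ‖v‖ := by
  rw [pi_norm_le_iff_of_nonneg (norm_nonneg v)]
  intro i
  fin_cases i
  · simp [J]
  · show ‖-v 2‖ ≤ ‖v‖
    rw [norm_neg]; exact norm_le_pi_norm v 2
  · exact norm_le_pi_norm v 1

theorem J_continuous : Continuous J := by
  unfold J
  refine continuous_pi fun i => ?_
  fin_cases i
  · exact continuous_const
  · show Continuous fun v : C3 => -v 2
    fun_prop
  · show Continuous fun v : C3 => v 1
    fun_prop

/-! ### the triangle inequality for frequencies -/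

theorem nk_add (k l : K) : nk (k + l) ≤ nk k + nk l := by
  have e : ∀ k : K, nk k = ‖(WithLp.toLp 2 (fun i => (k i : ℝ)) : EuclideanSpace ℝ (Fin 3))‖ := by
    intro k
    rw [EuclideanSpace.norm_eq, nk, H356R3.NS.sq]
    congr 1
    refine Finset.sum_congr rfl fun i _ => ?_
    simp
  rw [e, e, e]
  have h : (WithLp.toLp 2 (fun i => ((k + l) i : ℝ)) : EuclideanSpace ℝ (Fin 3))
      = WithLp.toLp 2 (fun i => (k i : ℝ)) + WithLp.toLp 2 (fun i => (l i : ℝ)) := by
    ext i
    simp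
  rw [h]
  exact norm_add_le _ _

theorem nk_sub (k l : K) : nk k ≤ nk l + nk (k - l) := by
  have := nk_add l (k - l)
  rwa [add_sub_cancel] at this

end Pool.Agent.N980.NU
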