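import Pool.Agent.N980.NU.Gex

/-!
Uniform bounds for the truncated solutions.
-/

open MeasureTheory Set Filter Topology

set_option linter.unusedVariables false

namespace Pool.Agent.N980.NU

open Pool.Agent.H356R3.NS

/-- The bound of the weighted total source. -/
noncomputable def M1 (c A : ℝ) : ℝ := 24 * C1 * A ^ 2 / c

theorem M1_nonneg {c A : ℝ} (hc : 0 < c) : 0 ≤ M1 c A := by
  have := C1_pos
  unfold M1; positivity

variable {c A : ℝ} {κ : ℕ → ℝ} {F : Finset K} {a : K → C3} {u : Fam}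

/-- The total source. -/
noncomputable def BB (c A : ℝ) (u : Fam) (k : K) : ℝ := ∫ s in (0 : ℝ)..T0 c A, bt' u k s

theorem GSol.T_pos (hc : 0 < c) (hA : 0 < A) : 0 < T0 c A := T0_pos hc hA

theorem GSol.int_DD (h : GSol c κ F A a u) (hc : 0 < c) (hA : 0 < A) (h0 : YY F u 0 ≤ A) :
    ∫ s in (0 : ℝ)..T0 c A, DD F u s ≤ 3 * A / c := by
  have hT := T0_pos hc hA
  have h1 := h.gal.apri hc hA h0 ⟨hT.le, le_rfl⟩ le_rfl (fun s hs => h.bound s hs)
  have h2 := YY_nonneg F u (T0 c A)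
  rw [le_div_iff₀ hc]
  linarith

theorem GSol.int_nk_bt (h : GSol c κ F A a u) (hc : 0 < c) (hA : 0 < A) (h0 : YY F u 0 ≤ A)
    (S : Finset K) : ∑ k ∈ S, nk k * BB c A u k ≤ M1 c A := by
  have hT := T0_pos hc hA
  have hC := C1_pos
  have hTm : T0 c A ∈ Icc 0 (T0 c A) := ⟨hT.le, le_rfl⟩
  have e : ∑ k ∈ S, nk k * BB c A u k = ∫ s in (0 : ℝ)..T0 c A, ∑ k ∈ S, nk k * bt' u k s := by
    rw [intervalIntegral.integral_finsetSum]
    · refine Finset.sum_congr rfl fun k _ => ?_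
      rw [intervalIntegral.integral_const_mul]; rfl
    · intro k _
      exact (ii_of_cont (T := T0 c A) (bt_cont h.gal.supp h.gal.cont k) hTm).const_mul _
  rw [e]
  have i1 : IntervalIntegrable (fun s => 4 * C1 * (DD F u s * (2 * A))) volume 0 (T0 c A) :=
    ((ii_of_cont (T := T0 c A) (DD_cont h.gal.cont) hTm).mul_const _).const_mul _
  have h1 : ∫ s in (0 : ℝ)..T0 c A, ∑ k ∈ S, nk k * bt' u k s
      ≤ ∫ s in (0 : ℝ)..T0 c A, 4 * C1 * (DD F u s * (2 * A)) := by
    refine intervalIntegral.integral_mono_on hT.le ?_ i1 fun s hs => ?_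
    · exact ii_of_cont (T := T0 c A) (continuousOn_finsetSum _ fun k _ =>
        continuousOn_const.mul (bt_cont h.gal.supp h.gal.cont k)) hTm
    · refine (h.gal.sum_nk_bt S s).trans ?_
      refine mul_le_mul_of_nonneg_left ?_ (by positivity)
      exact mul_le_mul_of_nonneg_left (h.bound s hs) (DD_nonneg F u s)
  rw [intervalIntegral.integral_const_mul, intervalIntegral.integral_mul_const] at h1
  refine h1.trans ?_
  have h2 := h.int_DD hc hA h0
  calc 4 * C1 * ((∫ s in (0 : ℝ)..T0 c A, DD F u s) * (2 * A))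
      ≤ 4 * C1 * ((3 * A / c) * (2 * A)) := by gcongr
    _ = M1 c A := by unfold M1; ring

theorem BB_nonneg (hc : 0 < c) (hA : 0 < A) (u : Fam) (k : K) : 0 ≤ BB c A u k :=
  intervalIntegral.integral_nonneg (T0_pos hc hA).le fun _ _ => bt_nonneg u k _

theorem GSol.nk_BB (h : GSol c κ F A a u) (hc : 0 < c) (hA : 0 < A) (h0 : YY F u 0 ≤ A) (k : K) :
    nk k * BB c A u k ≤ M1 c A := by
  have := h.int_nk_bt hc hA h0 {k}
  simpa using this

theorem GSol.int_bt_le (h : GSol c κ F A a u) (hc : 0 < c) (hA : 0 < A) (k : K) {t : ℝ}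
    (ht : t ∈ Icc 0 (T0 c A)) : ∫ s in (0 : ℝ)..t, bt' u k s ≤ BB c A u k := by
  have hT := T0_pos hc hA
  have hcont := bt_cont h.gal.supp h.gal.cont k
  have i1 := ii_of_cont hcont ht
  have i2 : IntervalIntegrable (bt' u k) volume t (T0 c A) :=
    ContinuousOn.intervalIntegrable_of_Icc ht.2 (hcont.mono (Icc_subset_Icc ht.1 le_rfl))
  unfold BB
  rw [← intervalIntegral.integral_add_adjacent_intervals i1 i2]
  have : 0 ≤ ∫ s in t..T0 c A, bt' u k s :=
    intervalIntegral.integral_nonneg ht.2 fun _ _ => bt_nonneg u k _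
  linarith

theorem GSol.pt (h : GSol c κ F A a u) (hc : 0 < c) (hA : 0 < A) (k : K) {t : ℝ}
    (ht : t ∈ Icc 0 (T0 c A)) : nw (u k t) ≤ nw (a k) + BB c A u k := by
  by_cases hk : k ∈ F
  · have h1 := (h.gal.mode hk).balance (by positivity) ht
    have h2 : ∫ s in (0 : ℝ)..t, nw (Bf (at' u s) (at' u s) k) ≤ ∫ s in (0 : ℝ)..t, bt' u k s := by
      refine intervalIntegral.integral_mono_on ht.1 ?_ ?_ fun s _ => h.gal.nwBf k s
      · exact ii_of_cont (T := T0 c A) (nw_continuous.comp_continuousOn (h.gal.mode hk).bcont) ht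
      · exact ii_of_cont (T := T0 c A) (bt_cont h.gal.supp h.gal.cont k) ht
    have h3 := h.int_bt_le hc hA k ht
    have h4 : 0 ≤ c * nk k ^ 2 * ∫ s in (0 : ℝ)..t, nw (u k s) :=
      mul_nonneg (by positivity) (intervalIntegral.integral_nonneg ht.1 fun _ _ => nw_nonneg _)
    rw [h.init] at h1
    linarith
  · rw [h.gal.supp k hk, nw_zero]
    exact add_nonneg (nw_nonneg _) (BB_nonneg hc hA u k)

theorem GSol.pt' (h : GSol c κ F A a u) (k : K) {t : ℝ}
    (ht : t ∈ Icc 0 (T0 c A)) (hA : 0 ≤ A) : nw (u k t) ≤ 2 * A := by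
  by_cases hk : k ∈ F
  · exact (Finset.single_le_sum (f := fun k => nw (u k t)) (fun _ _ => nw_nonneg _) hk).trans
      (h.bound t ht)
  · rw [h.gal.supp k hk, nw_zero]; linarith

theorem GSol.diss (h : GSol c κ F A a u) (hc : 0 < c) (hA : 0 < A) (h0 : YY F u 0 ≤ A) (S : Finset K) :
    ∫ s in (0 : ℝ)..T0 c A, ∑ k ∈ S, nk k ^ 2 * nw (u k s) ≤ 3 * A / c := by
  have hT := T0_pos hc hA
  have hTm : T0 c A ∈ Icc 0 (T0 c A) := ⟨hT.le, le_rfl⟩
  refine le_trans ?_ (h.int_DD hc hA h0)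
  refine intervalIntegral.integral_mono_on hT.le ?_ ?_ fun s hs => ?_
  · exact ii_of_cont (T := T0 c A) (continuousOn_finsetSum _ fun k _ =>
      continuousOn_const.mul (nw_continuous.comp_continuousOn (h.gal.cont k))) hTm
  · exact ii_of_cont (T := T0 c A) (DD_cont h.gal.cont) hTm
  · rw [← supp_tsum2 h.gal.supp]
    exact (supp_summ2 h.gal.supp s).sum_le_tsum _ fun k _ => mul_nonneg (sq_nonneg _) (nw_nonneg _)

/-! ### Lipschitz bounds in time -/

open Classical in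
/-- The coefficient at the level of `k`. -/
noncomputable def lk (κ : ℕ → ℝ) (k : K) : ℝ :=
  if h : ∃ n, k = fk n ∨ k = -fk n then κ h.choose else 0

theorem lk_lev (κ : ℕ → ℝ) {k : K} {n : ℕ} (hn : k = fk n ∨ k = -fk n) : lk κ k = κ n := by
  have h : ∃ n, k = fk n ∨ k = -fk n := ⟨n, hn⟩
  rw [lk, dif_pos h, lev_uniq h.choose_spec hn]

theorem om_abs_le {κ κ' : ℕ → ℝ} (hκ : ∀ n, |κ' n| ≤ κ n) (x : K → C3) {B : ℝ}
    (hB : ∀ k, nw (x k) ≤ B) (k : K) : |om' κ' x k| ≤ lk κ k * (2 * B) := by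
  by_cases h : ∃ n, k = fk n ∨ k = -fk n
  · obtain ⟨n, hn⟩ := h
    rw [om_lev κ' x hn, lk_lev κ hn, abs_mul]
    have h1 : |th (n + 1) x| ≤ 2 * B := by
      unfold th
      rw [abs_mul, abs_two]
      refine mul_le_mul_of_nonneg_left ?_ (by norm_num)
      refine (Complex.abs_re_le_norm _).trans ?_
      exact (norm_le_pi_norm _ 2).trans ((norm_le_nw _).trans (hB _))
    exact mul_le_mul (hκ n) h1 (abs_nonneg _) ((abs_nonneg _).trans (hκ n))
  · rw [om_not κ' x h, abs_zero, lk, dif_neg h, zero_mul]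

/-- Lipschitz constant in time of the mode `k`. -/
noncomputable def Lk (c A : ℝ) (κ : ℕ → ℝ) (k : K) : ℝ :=
  c * nk k ^ 2 * (2 * A) + C1 * nk k * ((2 * A) * (2 * A)) + lk κ k * (2 * (2 * A)) * (2 * A)

theorem GSol.rhs_bound {κ' : ℕ → ℝ} (hκ : ∀ n, |κ n| ≤ κ' n) (h : GSol c κ F A a u) (hc : 0 < c) (hA : 0 < A)
    (k : K) {t : ℝ} (ht : t ∈ Icc 0 (T0 c A)) :
    ‖-(c * nk k ^ 2) • u k t + Bf (at' u t) (at' u t) k + om' κ (at' u t) k • J (u k t)‖
      ≤ Lk c A κ' k := by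
  have h1 := h.pt' k ht hA.le
  have h2 : ‖u k t‖ ≤ 2 * A := (norm_le_nw _).trans h1
  have h3 : ‖Bf (at' u t) (at' u t) k‖ ≤ C1 * nk k * ((2 * A) * (2 * A)) := by
    refine (norm_le_nw _).trans ((h.gal.nwBf k t).trans ?_)
    unfold bt'
    refine mul_le_mul_of_nonneg_left ?_ (mul_nonneg C1_pos.le (nk_nonneg k))
    refine (cc_le_mul (supp_summ h.gal.supp t) (supp_summ h.gal.supp t) (fun _ => nw_nonneg _)
      (fun _ => nw_nonneg _) k).trans ?_
    rw [supp_tsum h.gal.supp]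
    exact mul_le_mul (h.bound t ht) (h.bound t ht) (YY_nonneg F u t) (by positivity)
  have h4 : |om' κ (at' u t) k| ≤ lk κ' k * (2 * (2 * A)) :=
    om_abs_le hκ _ (fun k => h.pt' k ht hA.le) k
  have h5 : ‖J (u k t)‖ ≤ 2 * A := (nw_J_le _).trans h2
  calc ‖-(c * nk k ^ 2) • u k t + Bf (at' u t) (at' u t) k + om' κ (at' u t) k • J (u k t)‖
      ≤ ‖-(c * nk k ^ 2) • u k t‖ + ‖Bf (at' u t) (at' u t) k‖
        + ‖om' κ (at' u t) k • J (u k t)‖ := norm_add₃_le
    _ ≤ c * nk k ^ 2 * (2 * A) + C1 * nk k * ((2 * A) * (2 * A)) + lk κ' k * (2 * (2 * A)) * (2 * A) := by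
        rw [norm_smul, norm_smul, norm_neg, Real.norm_of_nonneg (by positivity), Real.norm_eq_abs]
        refine add_le_add (add_le_add ?_ h3) ?_
        · exact mul_le_mul_of_nonneg_left h2 (by positivity)
        · exact mul_le_mul h4 h5 (norm_nonneg _) ((abs_nonneg _).trans h4)
    _ = _ := rfl

theorem lk_nonneg {κ : ℕ → ℝ} (hκ : ∀ n, 0 ≤ κ n) (k : K) : 0 ≤ lk κ k := by
  unfold lk
  split_ifs with h
  · exact hκ _
  · exact le_rfl

theorem Lk_nonneg {κ : ℕ → ℝ} (hκ : ∀ n, 0 ≤ κ n) (hc : 0 < c) (hA : 0 < A) (k : K) : 0 ≤ Lk c A κ k := by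
  have := lk_nonneg hκ k
  have := C1_pos
  have := nk_nonneg k
  unfold Lk; positivity

theorem GSol.lip {κ' : ℕ → ℝ} (hκ : ∀ n, |κ n| ≤ κ' n) (h : GSol c κ F A a u) (hc : 0 < c) (hA : 0 < A)
    (k : K) {s t : ℝ} (hs : s ∈ Icc 0 (T0 c A)) (ht : t ∈ Icc 0 (T0 c A)) :
    ‖u k t - u k s‖ ≤ Lk c A κ' k * |t - s| := by
  have hκ0 : ∀ n, 0 ≤ κ' n := fun n => (abs_nonneg _).trans (hκ n)
  by_cases hk : k ∈ F
  · have key : ∀ s ∈ Icc 0 (T0 c A), ∀ t ∈ Icc 0 (T0 c A), s ≤ t →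
        ‖u k t - u k s‖ ≤ Lk c A κ' k * |t - s| := by
      intro s hs t ht hst
      have h1 := norm_image_sub_le_of_norm_deriv_right_le_segment (f := u k) (a := s) (b := t)
        (C := Lk c A κ' k)
        (f' := fun t => -(c * nk k ^ 2) • u k t + Bf (at' u t) (at' u t) k
          + om' κ (at' u t) k • J (u k t))
        ((h.gal.cont k).mono (Icc_subset_Icc hs.1 ht.2))
      rcases hs.1.lt_or_eq with h0 | h0
      · have h2 := h1 (fun r hr => (h.gal.ode k hk r ⟨h0.trans_le hr.1, hr.2.trans_le ht.2⟩).hasDerivWithinAt)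
          (fun r hr => h.rhs_bound hκ hc hA k ⟨h0.le.trans hr.1, hr.2.le.trans ht.2⟩) t ⟨hst, le_rfl⟩
        rwa [abs_of_nonneg (by linarith)]
      · -- s = 0: use continuity
        subst h0
        rcases hst.lt_or_eq with h3 | h3
        · have hlim : Tendsto (fun r => ‖u k t - u k r‖) (𝓝[Ioc 0 t] 0) (𝓝 ‖u k t - u k 0‖) := by
            have : ContinuousWithinAt (u k) (Ioc 0 t) 0 :=
              (h.gal.cont k 0 hs).mono fun r hr => ⟨hr.1.le, hr.2.trans ht.2⟩
            exact (tendsto_const_nhds.sub this).norm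
          have hne : (𝓝[Ioc 0 t] (0 : ℝ)).NeBot := by
            rw [← mem_closure_iff_nhdsWithin_neBot, closure_Ioc h3.ne]
            exact ⟨le_rfl, h3.le⟩
          refine le_of_tendsto hlim (eventually_nhdsWithin_of_forall fun r hr => ?_)
          have h2 := norm_image_sub_le_of_norm_deriv_right_le_segment (f := u k) (a := r) (b := t)
            (C := Lk c A κ' k)
            (f' := fun t => -(c * nk k ^ 2) • u k t + Bf (at' u t) (at' u t) k
              + om' κ (at' u t) k • J (u k t))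
            ((h.gal.cont k).mono (Icc_subset_Icc hr.1.le ht.2))
            (fun q hq => (h.gal.ode k hk q ⟨hr.1.trans_le hq.1, hq.2.trans_le ht.2⟩).hasDerivWithinAt)
            (fun q hq => h.rhs_bound hκ hc hA k ⟨hr.1.le.trans hq.1, hq.2.le.trans ht.2⟩) t ⟨hr.2, le_rfl⟩
          refine h2.trans ?_
          rw [sub_zero, abs_of_pos h3]
          exact mul_le_mul_of_nonneg_left (by linarith [hr.1]) (Lk_nonneg hκ0 hc hA k)
        · rw [← h3]; simp
    rcases le_total s t with h1 | h1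
    · exact key s hs t ht h1
    · rw [norm_sub_rev, abs_sub_comm]; exact key t ht s hs h1
  · rw [h.gal.supp k hk, h.gal.supp k hk, sub_self, norm_zero]
    exact mul_nonneg (Lk_nonneg hκ0 hc hA k) (abs_nonneg _)

end Pool.Agent.N980.NU
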