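import Mathlib

/-!
A compactness lemma for countable families of Lipschitz functions of time, and convergence of sums
with uniform tails.
-/

open MeasureTheory Set Filter Topology
open scoped BoundedContinuousFunction

set_option linter.unusedVariables false

namespace Pool.Agent.N980.NU

theorem cpt_seq {ι E : Type*} [Countable ι] [NormedAddCommGroup E] [ProperSpace E] {T R : ℝ}
    (hT : 0 ≤ T) {Λ : ι → ℝ} (hΛ : ∀ i, 0 ≤ Λ i) (f : ℕ → ι → ℝ → E)
    (hb : ∀ j i, ∀ t ∈ Icc 0 T, ‖f j i t‖ ≤ R)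
    (hl : ∀ j i, ∀ s ∈ Icc 0 T, ∀ t ∈ Icc 0 T, ‖f j i t - f j i s‖ ≤ Λ i * |t - s|) :
    ∃ φ : ℕ → ℕ, StrictMono φ ∧ ∃ g : ι → ℝ → E, ∀ i, ∀ t ∈ Icc 0 T,
      Tendsto (fun j => f (φ j) i t) atTop (𝓝 (g i t)) := by
  let I := Icc (0 : ℝ) T
  let S : ι → Set (I →ᵇ E) := fun i =>
    {h | (∀ t, h t ∈ Metric.closedBall (0 : E) R) ∧ ∀ s t : I, ‖h t - h s‖ ≤ Λ i * |(t : ℝ) - s|}
  have hScl : ∀ i, IsClosed (S i) := by
    intro i
    have e : S i = (⋂ t, {h : I →ᵇ E | h t ∈ Metric.closedBall (0 : E) R}) ∩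
        ⋂ s : I, ⋂ t : I, {h : I →ᵇ E | ‖h t - h s‖ ≤ Λ i * |(t : ℝ) - s|} := by
      ext h
      simp only [S, mem_inter_iff, mem_iInter]
      rfl
    rw [e]
    refine IsClosed.inter (isClosed_iInter fun t => ?_) (isClosed_iInter fun s => isClosed_iInter fun t => ?_)
    · exact Metric.isClosed_closedBall.preimage (BoundedContinuousFunction.lipschitz_eval_const t).continuous
    · exact isClosed_le ((BoundedContinuousFunction.lipschitz_eval_const t).continuous.sub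
        (BoundedContinuousFunction.lipschitz_eval_const s).continuous).norm continuous_const
  have hScpt : ∀ i, IsCompact (S i) := by
    intro i
    refine BoundedContinuousFunction.arzela_ascoli₂ (Metric.closedBall (0 : E) R)
      (isCompact_closedBall _ _) (S i) (hScl i) (fun h t hh => hh.1 t) ?_
    refine Metric.equicontinuous_of_continuity_modulus (fun r => Λ i * r) ?_ _ ?_
    · have : Tendsto (fun r : ℝ => Λ i * r) (𝓝 0) (𝓝 (Λ i * 0)) := (continuous_const.mul continuous_id).tendsto 0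
      rwa [mul_zero] at this
    · intro s t h
      rw [dist_eq_norm]
      have := h.2.2 t s
      rw [Subtype.dist_eq, Real.dist_eq]
      exact this
  have hprod : IsCompact (Set.pi univ S) := isCompact_univ_pi hScpt
  have hcont : ∀ j i, Continuous fun t : I => f j i t := by
    intro j i
    refine LipschitzWith.continuous (K := (Λ i).toNNReal) (LipschitzWith.of_dist_le_mul fun t s => ?_)
    rw [dist_eq_norm, Subtype.dist_eq, Real.dist_eq, Real.coe_toNNReal _ (hΛ i)]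
    exact hl j i s s.2 t t.2
  let G : ℕ → ι → (I →ᵇ E) := fun j i =>
    BoundedContinuousFunction.mkOfCompact ⟨fun t : I => f j i t, hcont j i⟩
  have hG : ∀ j, G j ∈ Set.pi univ S := by
    intro j i _
    refine ⟨fun t => ?_, fun s t => ?_⟩
    · rw [mem_closedBall_zero_iff]
      exact hb j i t t.2
    · exact hl j i s s.2 t t.2
  obtain ⟨g, -, φ, hφ, hlim⟩ := hprod.tendsto_subseq hG
  refine ⟨φ, hφ, fun i t => g i (projIcc 0 T hT t), fun i t ht => ?_⟩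
  have h1 : Tendsto (fun j => G (φ j) i) atTop (𝓝 (g i)) := (tendsto_pi_nhds.1 hlim) i
  have h2 := ((BoundedContinuousFunction.lipschitz_eval_const (⟨t, ht⟩ : I)).continuous.tendsto (g i)).comp h1
  show Tendsto (fun j => f (φ j) i t) atTop (𝓝 (g i (projIcc 0 T hT t)))
  rw [projIcc_of_mem hT ht]
  exact h2

/-- Sums with uniform tails converge. -/
theorem tail_conv {ι : Type*} {x : ℕ → ι → ℝ} {y : ι → ℝ} (hx0 : ∀ j i, 0 ≤ x j i)
    (hlim : ∀ i, Tendsto (fun j => x j i) atTop (𝓝 (y i)))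
    (htail : ∀ ε > 0, ∃ Φ : Finset ι, ∀ j, ∀ S : Finset ι, Disjoint S Φ → ∑ i ∈ S, x j i ≤ ε) :
    Summable y ∧ ∀ ε > 0, ∃ Φ : Finset ι, ∀ S : Finset ι, Disjoint S Φ → ∑ i ∈ S, y i ≤ ε := by
  have hy0 : ∀ i, 0 ≤ y i := fun i => ge_of_tendsto' (hlim i) fun j => hx0 j i
  have ht : ∀ ε > 0, ∃ Φ : Finset ι, ∀ S : Finset ι, Disjoint S Φ → ∑ i ∈ S, y i ≤ ε := by
    intro ε hε
    obtain ⟨Φ, hΦ⟩ := htail ε hε
    refine ⟨Φ, fun S hS => ?_⟩
    exact le_of_tendsto' (tendsto_finsetSum S fun i _ => hlim i) fun j => hΦ j S hS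
  refine ⟨?_, ht⟩
  classical
  obtain ⟨Φ, hΦ⟩ := ht 1 one_pos
  refine summable_of_sum_le hy0 (c := ∑ i ∈ Φ, y i + 1) fun S => ?_
  rw [← Finset.sum_inter_add_sum_sdiff S Φ y]
  refine add_le_add ?_ (hΦ _ Finset.sdiff_disjoint)
  exact Finset.sum_le_sum_of_subset_of_nonneg Finset.inter_subset_right fun i _ _ => hy0 i

/-- `ℓ¹` convergence from pointwise convergence and uniform tails. -/
theorem l1_conv {ι E : Type*} [NormedAddCommGroup E] {x : ℕ → ι → E} {y : ι → E}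
    (hlim : ∀ i, Tendsto (fun j => x j i) atTop (𝓝 (y i)))
    (htail : ∀ ε > 0, ∃ Φ : Finset ι, ∀ j, ∀ S : Finset ι, Disjoint S Φ → ∑ i ∈ S, ‖x j i‖ ≤ ε) :
    (Summable fun i => ‖y i‖) ∧ Tendsto (fun j => ∑' i, ‖x j i - y i‖) atTop (𝓝 0) := by
  classical
  obtain ⟨hys, hyt⟩ := tail_conv (x := fun j i => ‖x j i‖) (y := fun i => ‖y i‖)
    (fun _ _ => norm_nonneg _) (fun i => (hlim i).norm) htail
  refine ⟨hys, ?_⟩
  rw [Metric.tendsto_atTop]
  intro ε hε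
  obtain ⟨Φ1, hΦ1⟩ := htail (ε / 4) (by positivity)
  obtain ⟨Φ2, hΦ2⟩ := hyt (ε / 4) (by positivity)
  set Φ := Φ1 ∪ Φ2 with hΦ
  have h1 : Tendsto (fun j => ∑ i ∈ Φ, ‖x j i - y i‖) atTop (𝓝 0) := by
    have : Tendsto (fun j => ∑ i ∈ Φ, ‖x j i - y i‖) atTop (𝓝 (∑ i ∈ Φ, (0 : ℝ))) := by
      refine tendsto_finsetSum Φ fun i _ => ?_
      have := ((hlim i).sub_const (y i)).norm
      rwa [sub_self, norm_zero] at this
    rwa [Finset.sum_const_zero] at this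
  obtain ⟨J, hJ⟩ := (Metric.tendsto_atTop.1 h1) (ε / 4) (by positivity)
  refine ⟨J, fun j hj => ?_⟩
  have h2 := hJ j hj
  rw [Real.dist_eq, sub_zero, abs_of_nonneg (Finset.sum_nonneg fun _ _ => norm_nonneg _)] at h2
  rw [Real.dist_eq, sub_zero, abs_of_nonneg (tsum_nonneg fun _ => norm_nonneg _)]
  have h3 : ∀ S : Finset ι, ∑ i ∈ S, ‖x j i - y i‖ ≤ 3 * (ε / 4) := by
    intro S
    rw [← Finset.sum_inter_add_sum_sdiff S Φ fun i => ‖x j i - y i‖]
    have h4 : ∑ i ∈ S ∩ Φ, ‖x j i - y i‖ ≤ ε / 4 :=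
      (Finset.sum_le_sum_of_subset_of_nonneg Finset.inter_subset_right
        fun i _ _ => norm_nonneg _).trans h2.le
    have hd : Disjoint (S \ Φ) Φ := Finset.sdiff_disjoint
    have hd1 : Disjoint (S \ Φ) Φ1 := hd.mono_right Finset.subset_union_left
    have hd2 : Disjoint (S \ Φ) Φ2 := hd.mono_right Finset.subset_union_right
    have h5 : ∑ i ∈ S \ Φ, ‖x j i - y i‖ ≤ ε / 4 + ε / 4 := by
      calc ∑ i ∈ S \ Φ, ‖x j i - y i‖ ≤ ∑ i ∈ S \ Φ, (‖x j i‖ + ‖y i‖) :=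
            Finset.sum_le_sum fun i _ => norm_sub_le _ _
        _ = ∑ i ∈ S \ Φ, ‖x j i‖ + ∑ i ∈ S \ Φ, ‖y i‖ := Finset.sum_add_distrib
        _ ≤ _ := add_le_add (hΦ1 j _ hd1) (hΦ2 _ hd2)
    linarith
  have h4 : ∑' i, ‖x j i - y i‖ ≤ 3 * (ε / 4) :=
    Real.tsum_le_of_sum_le (fun _ => norm_nonneg _) h3
  linarith

end Pool.Agent.N980.NU
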