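import Pool.Agent.N980.NU.Bnd
import Pool.Agent.N980.NU.Cpt

/-!
Limits of the truncated solutions.
-/

open MeasureTheory Set Filter Topology

set_option linter.unusedVariables false

namespace Pool.Agent.N980.NU

open Pool.Agent.H356R3.NS

/-- A box of frequencies. -/
noncomputable def box (Q : ℕ) : Finset K := Fintype.piFinset fun _ => Finset.Icc (-(Q : ℤ)) Q

theorem mem_box {Q : ℕ} {k : K} : k ∈ box Q ↔ ∀ i, |k i| ≤ Q := by
  unfold box
  simp only [Fintype.mem_piFinset, Finset.mem_Icc, abs_le]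

theorem not_box {Q : ℕ} {k : K} (h : k ∉ box Q) : (Q : ℝ) ≤ nk k := by
  rw [mem_box] at h
  push Not at h
  obtain ⟨i, hi⟩ := h
  refine le_trans ?_ (abs_le_nk k i)
  exact_mod_cast hi.le

theorem box_neg {Q : ℕ} {k : K} (h : k ∈ box Q) : -k ∈ box Q := by
  rw [mem_box] at h ⊢
  intro i
  rw [Pi.neg_apply, abs_neg]
  exact h i

theorem fk_mem_box {n Q : ℕ} (h : 20 ^ n ≤ Q) : fk n ∈ box Q := by
  rw [mem_box]
  intro i
  have h1 : (20 : ℤ) ^ n ≤ Q := by exact_mod_cast h
  have h2 : (0 : ℤ) < 20 ^ n := by positivity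
  fin_cases i
  · show |(20 : ℤ) ^ n| ≤ Q
    rw [abs_of_pos h2]; exact h1
  · show |(0 : ℤ)| ≤ Q
    simp
  · show |(0 : ℤ)| ≤ Q
    simp

theorem eventually_box (k : K) {Q : ℕ → ℕ} (hQ : Tendsto Q atTop atTop) : ∀ᶠ j in atTop, k ∈ box (Q j) := by
  filter_upwards [hQ.eventually_ge_atTop (Finset.univ.sup fun i => (k i).natAbs)] with j hj
  rw [mem_box]
  intro i
  have h1 : (k i).natAbs ≤ Finset.univ.sup fun i => (k i).natAbs :=
    Finset.le_sup (f := fun i => (k i).natAbs) (Finset.mem_univ i)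
  rw [Int.abs_eq_natAbs]
  exact_mod_cast h1.trans hj

/-- Convergence of the bilinear term. -/
theorem Bf_tendsto {x : ℕ → K → C3} {y : K → C3} (hx : ∀ j, SN (x j)) (hy : SN y)
    (h : Tendsto (fun j => ∑' k, ‖x j k - y k‖) atTop (𝓝 0)) (k : K) :
    Tendsto (fun j => Bf (x j) (x j) k) atTop (𝓝 (Bf y y k)) := by
  rw [tendsto_iff_norm_sub_tendsto_zero]
  set d : ℕ → ℝ := fun j => ∑' k, ‖x j k - y k‖ with hd
  set Y := ∑' k, ‖y k‖ with hY
  have hY0 : 0 ≤ Y := tsum_nonneg fun _ => norm_nonneg _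
  have hb : ∀ j, ‖Bf (x j) (x j) k - Bf y y k‖ ≤ C0 * nk k * (d j * (d j + Y) + Y * d j) := by
    intro j
    have hxy : SN (x j - y) := (hx j).sub hy
    have e : Bf (x j) (x j) k - Bf y y k = Bf (x j - y) (x j) k + Bf y (x j - y) k :=
      congrFun (Bf_diff (hx j) hy) k
    have hd0 : 0 ≤ d j := tsum_nonneg fun _ => norm_nonneg _
    have h1 : ∑' k, ‖x j k‖ ≤ d j + Y := by
      have e2 : d j + Y = ∑' k, (‖(x j - y) k‖ + ‖y k‖) := (Summable.tsum_add hxy hy).symm
      rw [e2]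
      refine (hx j).tsum_le_tsum (fun k => ?_) (Summable.add hxy hy)
      have := norm_add_le (x j k - y k) (y k)
      simpa using this
    have h2 := norm_Bf_le hxy (hx j) k
    have h3 := norm_Bf_le hy hxy k
    have h4 := cc_le_mul hxy (hx j) (fun _ => norm_nonneg _) (fun _ => norm_nonneg _) k
    have h5 := cc_le_mul hy hxy (fun _ => norm_nonneg _) (fun _ => norm_nonneg _) k
    have hn := mul_nonneg C0_pos.le (nk_nonneg k)
    rw [e]
    calc ‖Bf (x j - y) (x j) k + Bf y (x j - y) k‖ ≤ _ := norm_add_le _ _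
      _ ≤ C0 * nk k * ((∑' k, ‖(x j - y) k‖) * ∑' k, ‖x j k‖)
          + C0 * nk k * ((∑' k, ‖y k‖) * ∑' k, ‖(x j - y) k‖) :=
          add_le_add (h2.trans (mul_le_mul_of_nonneg_left h4 hn))
            (h3.trans (mul_le_mul_of_nonneg_left h5 hn))
      _ ≤ C0 * nk k * (d j * (d j + Y)) + C0 * nk k * (Y * d j) := by
          refine add_le_add (mul_le_mul_of_nonneg_left ?_ hn) le_rfl
          exact mul_le_mul_of_nonneg_left h1 hd0
      _ = _ := by ring
  have hlim : Tendsto (fun j => C0 * nk k * (d j * (d j + Y) + Y * d j)) atTop (𝓝 0) := by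
    have : Tendsto (fun j => C0 * nk k * (d j * (d j + Y) + Y * d j)) atTop
        (𝓝 (C0 * nk k * (0 * (0 + Y) + Y * 0))) :=
      ((h.mul (h.add_const Y)).add (h.const_mul Y)).const_mul _
    simpa using this
  exact squeeze_zero (fun _ => norm_nonneg _) hb hlim

theorem om_tendsto {κs : ℕ → ℕ → ℝ} {κ : ℕ → ℝ} (hκ : ∀ n, ∀ᶠ j in atTop, κs j n = κ n)
    {x : ℕ → K → C3} {y : K → C3} (h : ∀ k, Tendsto (fun j => x j k) atTop (𝓝 (y k))) (k : K) :
    Tendsto (fun j => om' (κs j) (x j) k) atTop (𝓝 (om' κ y k)) := by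
  by_cases hk : ∃ n, k = fk n ∨ k = -fk n
  · obtain ⟨n, hn⟩ := hk
    have h1 : Tendsto (fun j => κ n * th (n + 1) (x j)) atTop (𝓝 (κ n * th (n + 1) y)) := by
      refine Tendsto.const_mul _ ?_
      unfold th
      refine Tendsto.const_mul _ ?_
      exact ((Complex.continuous_re.comp (continuous_apply 2)).tendsto _).comp (h (fk (n + 1)))
    rw [om_lev κ y hn]
    refine h1.congr' ?_
    filter_upwards [hκ n] with j hj
    rw [om_lev _ _ hn, hj]
  · rw [om_not κ y hk]
    simp only [om_not _ _ hk]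
    exact tendsto_const_nhds

/-- The right hand side. -/
noncomputable def RR (c : ℝ) (κ : ℕ → ℝ) (x : K → C3) (k : K) : C3 :=
  -(c * nk k ^ 2) • x k + Bf x x k + om' κ x k • J (x k)

/-- Solutions of the full system. -/
structure LSol (c : ℝ) (κ : ℕ → ℝ) (T : ℝ) (a : K → C3) (u : Fam) : Prop where
  init : ∀ k, u k 0 = a k
  cont : ∀ k, ContinuousOn (u k) (Icc 0 T)
  dom : ∃ B : K → ℝ, Summable B ∧ ∀ k, ∀ t ∈ Icc 0 T, nw (u k t) ≤ B k
  ode : ∀ k, ∀ t ∈ Ioo 0 T, HasDerivAt (u k) (RR c κ (at' u t) k) t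
  sym : ∀ t ∈ Icc 0 T, Sym (at' u t)
  div : ∀ k, ∀ t ∈ Icc 0 T, dt k (u k t) = 0

/-- Continuity of the bilinear term along dominated families. -/
theorem Bf_cont_dom {u : Fam} {s : Set ℝ} (hc : ∀ k, ContinuousOn (u k) s) {B : K → ℝ}
    (hB : Summable B) (hd : ∀ k, ∀ t ∈ s, nw (u k t) ≤ B k) (k : K) :
    ContinuousOn (fun t => Bf (at' u t) (at' u t) k) s := by
  rcases s.eq_empty_or_nonempty with he | ⟨t0, ht0⟩
  · rw [he]; exact continuousOn_empty _
  have hB0 : ∀ k, 0 ≤ B k := fun k => (nw_nonneg _).trans (hd k t0 ht0)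
  rw [continuousOn_pi]
  intro i
  unfold Bf
  refine continuousOn_finsetSum _ fun j _ => continuousOn_finsetSum _ fun m _ => ?_
  refine ContinuousOn.mul continuousOn_const ?_
  unfold cv at'
  refine continuousOn_tsum (u := fun l => B l * ∑' l', B l') (fun l => ?_) (hB.mul_right _)
    fun l t ht => ?_
  · exact ((continuous_apply j).comp_continuousOn (hc l)).mul
      ((continuous_apply m).comp_continuousOn (hc (k - l)))
  · rw [norm_mul]
    have h1 : ∀ k j, ‖u k t j‖ ≤ B k := fun k j =>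
      (norm_le_pi_norm _ j).trans ((norm_le_nw _).trans (hd k t ht))
    exact mul_le_mul (h1 l j) ((h1 _ m).trans (hB.le_tsum _ fun _ _ => hB0 _)) (norm_nonneg _) (hB0 l)

theorem RR_cont_dom {u : Fam} {s : Set ℝ} (hc : ∀ k, ContinuousOn (u k) s) {B : K → ℝ}
    (hB : Summable B) (hd : ∀ k, ∀ t ∈ s, nw (u k t) ≤ B k) (c : ℝ) (κ : ℕ → ℝ) (k : K) :
    ContinuousOn (fun t => RR c κ (at' u t) k) s := by
  unfold RR
  refine ContinuousOn.add (ContinuousOn.add ?_ (Bf_cont_dom hc hB hd k)) ?_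
  · exact (hc k).const_smul (-(c * nk k ^ 2))
  · exact (om_cont hc κ k).smul (J_continuous.comp_continuousOn (hc k))

theorem LSol.mode {c T : ℝ} {κ : ℕ → ℝ} {a : K → C3} {u : Fam} (h : LSol c κ T a u) (k : K) :
    Mode (c * nk k ^ 2) 0 T (u k) (fun t => Bf (at' u t) (at' u t) k)
      (fun t => om' κ (at' u t) k) := by
  obtain ⟨B, hB, hd⟩ := h.dom
  exact ⟨h.cont k, Bf_cont_dom h.cont hB hd k, om_cont h.cont κ k, fun t ht => h.ode k t ht⟩

theorem lim_exists {c A : ℝ} (hc : 0 < c) (hA : 0 < A) {κ : ℕ → ℝ} {κs : ℕ → ℕ → ℝ}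
    (hκa : ∀ j n, |κs j n| ≤ κ n) (hκ : ∀ n, ∀ᶠ j in atTop, κs j n = κ n)
    {Fs : ℕ → Finset K} (hF : ∀ k, ∀ᶠ j in atTop, k ∈ Fs j) {as : ℕ → K → C3} {a : K → C3}
    (ha : ∀ k, Tendsto (fun j => as j k) atTop (𝓝 (a k))) {α : K → ℝ} (hα : Summable α)
    (hα2 : ∀ j k, nw (as j k) ≤ α k) {us : ℕ → Fam}
    (hs : ∀ j, GSol c (κs j) (Fs j) A (as j) (us j)) (hY : ∀ j, YY (Fs j) (us j) 0 ≤ A) :
    ∃ φ : ℕ → ℕ, StrictMono φ ∧ ∃ u : Fam, LSol c κ (T0 c A) a u ∧
      ∀ k, ∀ t ∈ Icc 0 (T0 c A), Tendsto (fun j => us (φ j) k t) atTop (𝓝 (u k t)) := by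
  set T := T0 c A with hTd
  have hT : 0 < T := T0_pos hc hA
  have hκ0 : ∀ n, 0 ≤ κ n := fun n => (abs_nonneg _).trans (hκa 0 n)
  have hα0 : ∀ k, 0 ≤ α k := fun k => (nw_nonneg _).trans (hα2 0 k)
  obtain ⟨φ, hφ, u, hu⟩ := cpt_seq (ι := K) (E := C3) (T := T) (R := 2 * A) hT.le
    (Λ := Lk c A κ) (fun k => Lk_nonneg hκ0 hc hA k) (fun j k t => us j k t)
    (fun j k t ht => (norm_le_nw _).trans ((hs j).pt' k ht hA.le))
    (fun j k s hs' t ht => (hs j).lip (hκa j) hc hA k hs' ht)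
  refine ⟨φ, hφ, u, ?_, hu⟩
  have hφt := hφ.tendsto_atTop
  -- uniform tails
  have htail : ∀ ε > 0, ∃ Φ : Finset K, ∀ j, ∀ t ∈ Icc 0 T, ∀ S : Finset K, Disjoint S Φ →
      ∑ k ∈ S, nw (us j k t) ≤ ε := by
    intro ε hε
    obtain ⟨Φ1, hΦ1⟩ := summable_iff_vanishing_norm.1 hα (ε / 2) (by positivity)
    obtain ⟨Q, hQ⟩ := exists_nat_gt (2 * M1 c A / ε)
    have hM := M1_nonneg (A := A) hc
    have hQ0 : (0 : ℝ) < Q := lt_of_le_of_lt (by positivity) hQ
    classical
    refine ⟨Φ1 ∪ box Q, fun j t ht S hS => ?_⟩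
    have hd1 : Disjoint S Φ1 := hS.mono_right Finset.subset_union_left
    have hd2 : Disjoint S (box Q) := hS.mono_right Finset.subset_union_right
    have h1 : ∑ k ∈ S, α k ≤ ε / 2 := (le_abs_self _).trans (hΦ1 S hd1).le
    have h2 : ∑ k ∈ S, BB c A (us j) k ≤ ε / 2 := by
      have h3 : (Q : ℝ) * ∑ k ∈ S, BB c A (us j) k ≤ M1 c A := by
        refine le_trans ?_ ((hs j).int_nk_bt hc hA (hY j) S)
        rw [Finset.mul_sum]
        refine Finset.sum_le_sum fun k hk => ?_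
        refine mul_le_mul_of_nonneg_right (not_box ?_) (BB_nonneg hc hA _ k)
        exact fun hk' => (Finset.disjoint_left.1 hd2 hk) hk'
      have h4 : 2 * M1 c A < Q * ε := by rwa [div_lt_iff₀ hε] at hQ
      by_contra h5
      push Not at h5
      have := mul_lt_mul_of_pos_left h5 hQ0
      linarith
    calc ∑ k ∈ S, nw (us j k t) ≤ ∑ k ∈ S, (α k + BB c A (us j) k) :=
          Finset.sum_le_sum fun k _ => ((hs j).pt hc hA k ht).trans
            (add_le_add (hα2 j k) le_rfl)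
      _ = ∑ k ∈ S, α k + ∑ k ∈ S, BB c A (us j) k := Finset.sum_add_distrib
      _ ≤ ε := by linarith
  have hl1 : ∀ t ∈ Icc 0 T, SN (at' u t) ∧
      Tendsto (fun j => ∑' k, ‖us (φ j) k t - u k t‖) atTop (𝓝 0) := by
    intro t ht
    refine l1_conv (x := fun j k => us (φ j) k t) (y := fun k => u k t) (fun k => hu k t ht) ?_
    intro ε hε
    obtain ⟨Φ, hΦ⟩ := htail ε hε
    exact ⟨Φ, fun j S hS => (Finset.sum_le_sum fun k _ => norm_le_nw _).trans (hΦ (φ j) t ht S hS)⟩
  have hnwlim : ∀ k, ∀ t ∈ Icc 0 T, Tendsto (fun j => nw (us (φ j) k t)) atTop (𝓝 (nw (u k t))) :=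
    fun k t ht => (nw_continuous.tendsto _).comp (hu k t ht)
  have hlip : ∀ k, ∀ s ∈ Icc 0 T, ∀ t ∈ Icc 0 T, ‖u k t - u k s‖ ≤ Lk c A κ k * |t - s| := by
    intro k s hs' t ht
    refine le_of_tendsto' ((hu k t ht).sub (hu k s hs')).norm fun j => ?_
    exact (hs (φ j)).lip (hκa (φ j)) hc hA k hs' ht
  have hcont : ∀ k, ContinuousOn (u k) (Icc 0 T) := by
    intro k
    have : LipschitzOnWith (Lk c A κ k).toNNReal (u k) (Icc 0 T) :=
      LipschitzOnWith.of_dist_le_mul fun t ht s hs' => by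
        rw [dist_eq_norm, Real.dist_eq, Real.coe_toNNReal _ (Lk_nonneg hκ0 hc hA k)]
        exact hlip k s hs' t ht
    exact this.continuousOn
  have hinit : ∀ k, u k 0 = a k := by
    intro k
    have h1 := hu k 0 ⟨le_rfl, hT.le⟩
    have h2 : Tendsto (fun j => us (φ j) k 0) atTop (𝓝 (a k)) := by
      simp only [(hs _).init]
      exact (ha k).comp hφt
    exact tendsto_nhds_unique h1 h2
  -- domination
  have hdom : ∃ B : K → ℝ, Summable B ∧ ∀ k, ∀ t ∈ Icc 0 T, nw (u k t) ≤ B k := by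
    have hmax : ∀ k, ∃ t ∈ Icc 0 T, ∀ s ∈ Icc 0 T, nw (u k s) ≤ nw (u k t) := fun k =>
      isCompact_Icc.exists_isMaxOn ⟨0, le_rfl, hT.le⟩ (nw_continuous.comp_continuousOn (hcont k))
    choose tm htm hmax using hmax
    refine ⟨fun k => nw (u k (tm k)), ?_, fun k t ht => hmax k t ht⟩
    have h1 : ∀ S : Finset K, (∀ k ∈ S, k ≠ 0) → ∑ k ∈ S, (nw (u k (tm k)) - α k) ≤ M1 c A := by
      intro S hS
      have h2 : Tendsto (fun j => ∑ k ∈ S, (nw (us (φ j) k (tm k)) - α k)) atTop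
          (𝓝 (∑ k ∈ S, (nw (u k (tm k)) - α k))) :=
        tendsto_finsetSum S fun k _ => (hnwlim k _ (htm k)).sub_const _
      refine le_of_tendsto' h2 fun j => ?_
      refine le_trans ?_ ((hs (φ j)).int_nk_bt hc hA (hY (φ j)) S)
      refine Finset.sum_le_sum fun k hk => ?_
      have h3 := (hs (φ j)).pt hc hA k (htm k)
      have h4 := hα2 (φ j) k
      have h5 := BB_nonneg hc hA (us (φ j)) k
      have h6 := one_le_nk (hS k hk)
      nlinarith
    have h7 : ∀ S : Finset K, ∑ k ∈ S, nw (u k (tm k)) ≤ nw (u 0 (tm 0)) + M1 c A + ∑' k, α k := by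
      intro S
      classical
      have h8 : ∑ k ∈ S, nw (u k (tm k)) ≤ nw (u 0 (tm 0)) + ∑ k ∈ S.erase 0, nw (u k (tm k)) := by
        by_cases h0 : (0 : K) ∈ S
        · rw [← Finset.add_sum_erase S _ h0]
        · rw [Finset.erase_eq_of_notMem h0]
          have := nw_nonneg (u 0 (tm 0))
          linarith
      have h9 := h1 (S.erase 0) fun k hk => Finset.ne_of_mem_erase hk
      rw [Finset.sum_sub_distrib] at h9
      have h10 : ∑ k ∈ S.erase 0, α k ≤ ∑' k, α k := hα.sum_le_tsum _ fun k _ => hα0 k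
      linarith
    exact summable_of_sum_le (fun k => nw_nonneg _) h7
  obtain ⟨B, hB, hBd⟩ := hdom
  have hRc : ∀ k, ContinuousOn (fun t => RR c κ (at' u t) k) (Icc 0 T) := fun k =>
    RR_cont_dom hcont hB hBd c κ k
  -- the integrated equation
  have hint : ∀ k, ∀ t ∈ Icc 0 T, u k t = a k + ∫ s in (0 : ℝ)..t, RR c κ (at' u s) k := by
    intro k t ht
    have hev : ∀ᶠ j in atTop, us (φ j) k t = as (φ j) k
        + ∫ s in (0 : ℝ)..t, RR c (κs (φ j)) (at' (us (φ j)) s) k := by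
      filter_upwards [hφt.eventually (hF k)] with j hj
      have hg := (hs (φ j)).gal
      have hRc' : ContinuousOn (fun s => RR c (κs (φ j)) (at' (us (φ j)) s) k) (Icc 0 T) := by
        unfold RR
        refine ContinuousOn.add (ContinuousOn.add ?_ (Bf_cont hg.supp hg.cont k)) ?_
        · exact (hg.cont k).const_smul (-(c * nk k ^ 2))
        · exact (om_cont hg.cont _ k).smul (J_continuous.comp_continuousOn (hg.cont k))
      have key := intervalIntegral.integral_eq_sub_of_hasDerivAt_of_le ht.1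
        ((hg.cont k).mono (Icc_subset_Icc le_rfl ht.2))
        (f' := fun s => RR c (κs (φ j)) (at' (us (φ j)) s) k)
        (fun s hs' => hg.ode k hj s ⟨hs'.1, hs'.2.trans_le ht.2⟩) (ii_of_cont hRc' ht)
      rw [key, (hs (φ j)).init]
      abel
    have hlim1 : Tendsto (fun j => as (φ j) k
        + ∫ s in (0 : ℝ)..t, RR c (κs (φ j)) (at' (us (φ j)) s) k) atTop (𝓝 (u k t)) :=
      (hu k t ht).congr' hev
    have hlim2 : Tendsto (fun j => ∫ s in (0 : ℝ)..t, RR c (κs (φ j)) (at' (us (φ j)) s) k) atTop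
        (𝓝 (∫ s in (0 : ℝ)..t, RR c κ (at' u s) k)) := by
      refine intervalIntegral.tendsto_integral_filter_of_dominated_convergence
        (fun _ => Lk c A κ k) ?_ ?_ intervalIntegrable_const ?_
      · refine Eventually.of_forall fun j => ?_
        have hg := (hs (φ j)).gal
        have hRc' : ContinuousOn (fun s => RR c (κs (φ j)) (at' (us (φ j)) s) k) (Icc 0 T) := by
          unfold RR
          refine ContinuousOn.add (ContinuousOn.add ?_ (Bf_cont hg.supp hg.cont k)) ?_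
          · exact (hg.cont k).const_smul (-(c * nk k ^ 2))
          · exact (om_cont hg.cont _ k).smul (J_continuous.comp_continuousOn (hg.cont k))
        refine (hRc'.mono ?_).aestronglyMeasurable measurableSet_uIoc
        rw [uIoc_of_le ht.1]
        exact fun s hs' => ⟨hs'.1.le, hs'.2.trans ht.2⟩
      · refine Eventually.of_forall fun j => Eventually.of_forall fun s hs' => ?_
        rw [uIoc_of_le ht.1] at hs'
        exact (hs (φ j)).rhs_bound (hκa (φ j)) hc hA k ⟨hs'.1.le, hs'.2.trans ht.2⟩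
      · refine Eventually.of_forall fun s hs' => ?_
        rw [uIoc_of_le ht.1] at hs'
        have hsT : s ∈ Icc 0 T := ⟨hs'.1.le, hs'.2.trans ht.2⟩
        unfold RR
        refine Tendsto.add (Tendsto.add ?_ ?_) ?_
        · exact (hu k s hsT).const_smul _
        · exact Bf_tendsto (x := fun j => at' (us (φ j)) s) (y := at' u s)
            (fun j => supp_SN (hs (φ j)).gal.supp s) (hl1 s hsT).1 (hl1 s hsT).2 k
        · refine Tendsto.smul ?_ ((J_continuous.tendsto _).comp (hu k s hsT))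
          exact om_tendsto (κs := fun j => κs (φ j)) (fun n => hφt.eventually (hκ n))
            (x := fun j => at' (us (φ j)) s) (y := at' u s) (fun k => hu k s hsT) k
    exact tendsto_nhds_unique hlim1 (((ha k).comp hφt).add hlim2)
  refine ⟨hinit, hcont, ⟨B, hB, hBd⟩, fun k t ht => ?_, fun t ht => ?_, fun k t ht => ?_⟩
  · have h1 := (prim_deriv (hRc k) ht).const_add (a k)
    refine h1.congr_of_eventuallyEq ?_
    filter_upwards [Icc_mem_nhds ht.1 ht.2] with s hs'
    exact hint k s hs'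
  · intro k i
    have h1 : Tendsto (fun j => us (φ j) (-k) t i) atTop (𝓝 (u (-k) t i)) :=
      ((continuous_apply i).tendsto _).comp (hu (-k) t ht)
    have h2 : Tendsto (fun j => star (us (φ j) k t i)) atTop (𝓝 (star (u k t i))) :=
      (((continuous_apply i).star).tendsto _).comp (hu k t ht)
    refine tendsto_nhds_unique h1 (h2.congr fun j => ?_)
    exact ((hs (φ j)).sym t ht k i).symm
  · have h1 : Tendsto (fun j => dt k (us (φ j) k t)) atTop (𝓝 (dt k (u k t))) := by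
      have : Continuous (dt k) := by unfold dt; fun_prop
      exact (this.tendsto _).comp (hu k t ht)
    have h2 : (fun j => dt k (us (φ j) k t)) = fun _ => 0 := funext fun j => (hs (φ j)).div k t ht
    rw [h2] at h1
    exact tendsto_nhds_unique h1 tendsto_const_nhds

end Pool.Agent.N980.NU
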