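import Pool.Agent.N980.NU.Bnd

/-!
The chain of rotations: phases are bounded away from zero.
-/

open MeasureTheory Set Filter Topology

set_option linter.unusedVariables false

namespace Pool.Agent.N980.NU

open Pool.Agent.H356R3.NS

/-- `sin ≥ 0.83` on `[1, 2]`. -/
theorem sin_ge {x : ℝ} (h1 : 1 ≤ x) (h2 : x ≤ 2) : (83 / 100 : ℝ) ≤ Real.sin x := by
  have hp1 := Real.pi_gt_d2
  have hp2 := Real.pi_lt_d2
  have h3 := Real.one_sub_sq_div_two_le_cos (x := x - Real.pi / 2)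
  rw [Real.cos_sub_pi_div_two] at h3
  have h4 : (x - Real.pi / 2) ^ 2 ≤ (575 / 1000 : ℝ) ^ 2 := by
    apply sq_le_sq'
    · norm_num at hp2 ⊢; linarith
    · norm_num at hp1 ⊢; linarith
  norm_num at h4
  linarith

/-- One step of the chain. -/
theorem step {μ t : ℝ} (hμ : 0 < μ) (ht : 8 ≤ μ * t) {φ : ℝ → ℝ} (hφ : ContinuousOn φ (Icc 0 t))
    (h : ∀ s ∈ Icc (1 / (50 * μ)) t, 1 ≤ φ s ∧ φ s ≤ 2) :
    5 / 4 ≤ ∫ s in (0 : ℝ)..t, 8 / 5 * μ * Real.exp (-(μ * s)) * Real.sin (φ s) ∧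
    (∫ s in (0 : ℝ)..t, 8 / 5 * μ * Real.exp (-(μ * s)) * Real.sin (φ s)) ≤ 8 / 5 := by
  have ht0 : 0 < t := by
    by_contra hn
    have : μ * t ≤ 0 := mul_nonpos_of_nonneg_of_nonpos hμ.le (not_lt.1 hn)
    linarith
  set τ := 1 / (50 * μ) with hτ
  have hτ0 : 0 < τ := by positivity
  have hτt : τ ≤ t := by
    rw [hτ, div_le_iff₀ (by positivity)]
    nlinarith
  have hμτ : μ * τ = 1 / 50 := by rw [hτ]; field_simp
  have hexp : ∀ a b : ℝ, ∫ s in a..b, 8 / 5 * μ * Real.exp (-(μ * s))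
      = 8 / 5 * (Real.exp (-(μ * a)) - Real.exp (-(μ * b))) := by
    intro a b
    have hd : ∀ s ∈ uIcc a b, HasDerivAt (fun s => -(8 / 5) * Real.exp (-(μ * s)))
        (8 / 5 * μ * Real.exp (-(μ * s))) s := by
      intro s _
      have : HasDerivAt (fun s => -(μ * s)) (-μ) s := by
        simpa using ((hasDerivAt_id' s).const_mul μ).fun_neg
      refine (this.exp.const_mul (-(8 / 5))).congr_deriv ?_
      ring
    rw [intervalIntegral.integral_eq_sub_of_hasDerivAt hd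
      ((by fun_prop : Continuous fun s => 8 / 5 * μ * Real.exp (-(μ * s))).intervalIntegrable _ _)]
    ring
  have hcE : ∀ a b : ℝ, IntervalIntegrable (fun s => 8 / 5 * μ * Real.exp (-(μ * s))) volume a b :=
    fun a b => (by fun_prop : Continuous fun s => 8 / 5 * μ * Real.exp (-(μ * s))).intervalIntegrable _ _
  have hfc : ContinuousOn (fun s => 8 / 5 * μ * Real.exp (-(μ * s)) * Real.sin (φ s)) (Icc 0 t) :=
    ContinuousOn.mul (by fun_prop) (Real.continuous_sin.comp_continuousOn hφ)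
  have i1 : IntervalIntegrable (fun s => 8 / 5 * μ * Real.exp (-(μ * s)) * Real.sin (φ s)) volume 0 τ :=
    ContinuousOn.intervalIntegrable_of_Icc hτ0.le (hfc.mono (Icc_subset_Icc le_rfl hτt))
  have i2 : IntervalIntegrable (fun s => 8 / 5 * μ * Real.exp (-(μ * s)) * Real.sin (φ s)) volume τ t :=
    ContinuousOn.intervalIntegrable_of_Icc hτt (hfc.mono (Icc_subset_Icc hτ0.le le_rfl))
  have e1 := Real.add_one_le_exp (-(1 / 50 : ℝ))
  have e8 : Real.exp (-(μ * t)) ≤ 1 / 1000 := by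
    have h1 : Real.exp (-(μ * t)) ≤ Real.exp (-8) := Real.exp_le_exp.2 (by linarith)
    have h2 : Real.exp (-8) = (Real.exp 1 ^ 8)⁻¹ := by
      rw [← Real.exp_nat_mul, ← Real.exp_neg]; norm_num
    have h3 : (1000 : ℝ) ≤ Real.exp 1 ^ 8 := by
      have h4 : (2.7 : ℝ) ≤ Real.exp 1 := by
        have := Real.exp_one_gt_d9
        linarith
      calc (1000 : ℝ) ≤ 2.7 ^ 8 := by norm_num
        _ ≤ _ := pow_le_pow_left₀ (by norm_num) h4 8
    rw [h2] at h1
    refine h1.trans ?_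
    rw [one_div]
    exact inv_anti₀ (by norm_num) h3
  constructor
  · rw [← intervalIntegral.integral_add_adjacent_intervals i1 i2]
    have h1 : -(8 / 5 * (Real.exp (-(μ * 0)) - Real.exp (-(μ * τ))))
        ≤ ∫ s in (0 : ℝ)..τ, 8 / 5 * μ * Real.exp (-(μ * s)) * Real.sin (φ s) := by
      rw [← hexp, ← intervalIntegral.integral_neg]
      refine intervalIntegral.integral_mono_on hτ0.le (hcE _ _).neg i1 fun s _ => ?_
      have h2 : 0 ≤ 8 / 5 * μ * Real.exp (-(μ * s)) := by positivity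
      nlinarith [Real.neg_one_le_sin (φ s)]
    have h2 : 83 / 100 * (8 / 5 * (Real.exp (-(μ * τ)) - Real.exp (-(μ * t))))
        ≤ ∫ s in τ..t, 8 / 5 * μ * Real.exp (-(μ * s)) * Real.sin (φ s) := by
      rw [← hexp, ← intervalIntegral.integral_const_mul]
      refine intervalIntegral.integral_mono_on hτt ((hcE _ _).const_mul _) i2 fun s hs => ?_
      have h2 : 0 ≤ 8 / 5 * μ * Real.exp (-(μ * s)) := by positivity
      have h3 := sin_ge (h s hs).1 (h s hs).2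
      nlinarith
    rw [mul_zero, neg_zero, Real.exp_zero, hμτ] at h1
    rw [hμτ] at h2
    linarith
  · have h1 : ∫ s in (0 : ℝ)..t, 8 / 5 * μ * Real.exp (-(μ * s)) * Real.sin (φ s)
        ≤ ∫ s in (0 : ℝ)..t, 8 / 5 * μ * Real.exp (-(μ * s)) := by
      refine intervalIntegral.integral_mono_on ht0.le ?_ (hcE _ _) fun s _ => ?_
      · exact ContinuousOn.intervalIntegrable_of_Icc ht0.le hfc
      · have h2 : 0 ≤ 8 / 5 * μ * Real.exp (-(μ * s)) := by positivity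
        nlinarith [Real.sin_le_one (φ s)]
    rw [hexp, mul_zero, neg_zero, Real.exp_zero] at h1
    have := Real.exp_nonneg (-(μ * t))
    linarith

variable {c A : ℝ} {κ : ℕ → ℝ} {F : Finset K} {a : K → C3} {u : Fam}

/-- The phase. -/
noncomputable def ps (κ : ℕ → ℝ) (u : Fam) (n : ℕ) (t : ℝ) : ℝ :=
  ∫ s in (0 : ℝ)..t, om' κ (at' u s) (fk n)

/-- The driving coefficient is given by the phase up to an error. -/
theorem GSol.th_formula (h : GSol c κ F A a u) (hc : 0 < c) {n : ℕ} (hn : fk n ∈ F) {ρ φ : ℝ}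
    (hρ : a (fk n) = ![0, ((ρ * Real.cos φ : ℝ) : ℂ), ((ρ * Real.sin φ : ℝ) : ℂ)]) {t : ℝ}
    (ht : t ∈ Icc 0 (T0 c A)) :
    |th n (at' u t) - 2 * ρ * Real.exp (-(c * (20 ^ n) ^ 2 * t)) * Real.sin (ps κ u n t + φ)|
      ≤ gD (c * (20 ^ n) ^ 2) 0 (bt' u (fk n)) t := by
  have hm := h.gal.mode hn
  rw [nk_fk] at hm
  set μ := c * ((20 : ℝ) ^ n) ^ 2 with hμ
  have h1 := hm.formula 1 ht
  have h2 := hm.formula 2 ht
  have hps : ∫ s in (0 : ℝ)..t, om' κ (at' u s) (fk n) = ps κ u n t := rfl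
  simp only [hps, sub_zero] at h1 h2
  rw [h.init, hρ] at h1 h2
  set P := ps κ u n t with hP
  set E1 : ℂ := Complex.exp (-(μ * t : ℝ) + Complex.I * sg 1 * (P : ℝ)) *
    el 1 ![0, ((ρ * Real.cos φ : ℝ) : ℂ), ((ρ * Real.sin φ : ℝ) : ℂ)] with hE1
  set E2 : ℂ := Complex.exp (-(μ * t : ℝ) + Complex.I * sg 2 * (P : ℝ)) *
    el 2 ![0, ((ρ * Real.cos φ : ℝ) : ℂ), ((ρ * Real.sin φ : ℝ) : ℂ)] with hE2
  have e1 : el 1 ![0, ((ρ * Real.cos φ : ℝ) : ℂ), ((ρ * Real.sin φ : ℝ) : ℂ)]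
      = (ρ : ℂ) * Complex.exp (φ * Complex.I) := by
    rw [el_one, Complex.exp_mul_I]
    simp only [Matrix.cons_val_one, Matrix.cons_val_zero, Matrix.cons_val]
    push_cast
    ring
  have e2 : el 2 ![0, ((ρ * Real.cos φ : ℝ) : ℂ), ((ρ * Real.sin φ : ℝ) : ℂ)]
      = (ρ : ℂ) * Complex.exp (-φ * Complex.I) := by
    rw [el_two, Complex.exp_mul_I, Complex.cos_neg, Complex.sin_neg]
    simp only [Matrix.cons_val_one, Matrix.cons_val_zero, Matrix.cons_val]
    push_cast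
    ring
  have hkey : -Complex.I / 2 * (E1 - E2)
      = ((ρ * Real.exp (-(μ * t)) * Real.sin (P + φ) : ℝ) : ℂ) := by
    have h3 : E1 = (ρ * Real.exp (-(μ * t)) : ℝ) * Complex.exp (((P + φ : ℝ) : ℂ) * Complex.I) := by
      rw [hE1, e1]
      have : sg 1 = 1 := rfl
      rw [this]
      push_cast
      rw [show (-(μ * t : ℂ) + Complex.I * 1 * P) = -(μ * t : ℂ) + P * Complex.I by ring,
        Complex.exp_add, show (((P : ℂ) + φ) * Complex.I) = P * Complex.I + φ * Complex.I by ring,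
        Complex.exp_add]
      ring
    have h4 : E2 = (ρ * Real.exp (-(μ * t)) : ℝ) * Complex.exp (-((P + φ : ℝ) : ℂ) * Complex.I) := by
      rw [hE2, e2]
      have : sg 2 = -1 := rfl
      rw [this]
      push_cast
      rw [show (-(μ * t : ℂ) + Complex.I * -1 * P) = -(μ * t : ℂ) + -P * Complex.I by ring,
        Complex.exp_add, show (-((P : ℂ) + φ) * Complex.I) = -P * Complex.I + -φ * Complex.I by ring,
        Complex.exp_add]
      ring
    rw [h3, h4, Complex.exp_mul_I, Complex.exp_mul_I, Complex.cos_neg, Complex.sin_neg]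
    push_cast
    linear_combination (-(ρ : ℂ) * Complex.exp (-((μ : ℂ) * t)) * Complex.sin ((P : ℂ) + φ)) * Complex.I_mul_I
  have hu : u (fk n) t 2 = -Complex.I / 2 * (el 1 (u (fk n) t) - el 2 (u (fk n) t)) := by
    rw [el_one, el_two]
    linear_combination (u (fk n) t 2) * Complex.I_mul_I
  have hdiff : ((th n (at' u t) - 2 * ρ * Real.exp (-(μ * t)) * Real.sin (P + φ) : ℝ))
      = 2 * (-Complex.I / 2 * ((el 1 (u (fk n) t) - E1) - (el 2 (u (fk n) t) - E2))).re := by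
    have h5 : -Complex.I / 2 * ((el 1 (u (fk n) t) - E1) - (el 2 (u (fk n) t) - E2))
        = u (fk n) t 2 - ((ρ * Real.exp (-(μ * t)) * Real.sin (P + φ) : ℝ) : ℂ) := by
      rw [← hkey, hu]; ring
    rw [h5, Complex.sub_re, Complex.ofReal_re]
    unfold th at'
    ring
  rw [hdiff, abs_mul, abs_two]
  have h6 : |(-Complex.I / 2 * ((el 1 (u (fk n) t) - E1) - (el 2 (u (fk n) t) - E2))).re|
      ≤ 1 / 2 * (‖el 1 (u (fk n) t) - E1‖ + ‖el 2 (u (fk n) t) - E2‖) := by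
    refine (Complex.abs_re_le_norm _).trans ?_
    rw [norm_mul]
    have : ‖-Complex.I / 2‖ = 1 / 2 := by simp
    rw [this]
    exact mul_le_mul_of_nonneg_left (norm_sub_le _ _) (by norm_num)
  have h7 : gD μ 0 (fun s => ‖el 1 (Bf (at' u s) (at' u s) (fk n))‖) t
      + gD μ 0 (fun s => ‖el 2 (Bf (at' u s) (at' u s) (fk n))‖) t ≤ gD μ 0 (bt' u (fk n)) t := by
    unfold gD
    have c1 := (hm.bcomp_cont 1).norm
    have c2 := (hm.bcomp_cont 2).norm
    have j1 : IntervalIntegrable (fun s => Real.exp (-(μ * (t - s))) *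
        ‖el 1 (Bf (at' u s) (at' u s) (fk n))‖) volume 0 t :=
      ii_of_cont (T := T0 c A) (ContinuousOn.mul (by fun_prop) c1) ht
    have j2 : IntervalIntegrable (fun s => Real.exp (-(μ * (t - s))) *
        ‖el 2 (Bf (at' u s) (at' u s) (fk n))‖) volume 0 t :=
      ii_of_cont (T := T0 c A) (ContinuousOn.mul (by fun_prop) c2) ht
    rw [← intervalIntegral.integral_add j1 j2]
    refine intervalIntegral.integral_mono_on ht.1 (j1.add j2) ?_ fun s _ => ?_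
    · exact ii_of_cont (T := T0 c A) (ContinuousOn.mul (by fun_prop)
        (bt_cont h.gal.supp h.gal.cont (fk n))) ht
    · rw [← mul_add]
      refine mul_le_mul_of_nonneg_left ?_ (Real.exp_nonneg _)
      refine le_trans ?_ (h.gal.nwBf (fk n) s)
      unfold nw
      rw [Fin.sum_univ_three]
      have := norm_nonneg (el 0 (Bf (at' u s) (at' u s) (fk n)))
      linarith
  linarith

/-- The times after which the phase of level `n` is under control. -/
noncomputable def tau (c : ℝ) (n : ℕ) : ℝ := 1 / (50 * (c * (20 ^ n) ^ 2))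

theorem tau_pos (hc : 0 < c) (n : ℕ) : 0 < tau c n := by unfold tau; positivity

theorem tau_mono (hc : 0 < c) {n m : ℕ} (h : n ≤ m) : tau c m ≤ tau c n := by
  unfold tau
  apply one_div_le_one_div_of_le (by positivity)
  have : ((20 : ℝ) ^ n) ≤ 20 ^ m := pow_le_pow_right₀ (by norm_num) h
  gcongr

/-- The data of the chain. -/
structure Chain (c A : ℝ) (κ ρ : ℕ → ℝ) (n0 : ℕ) : Prop where
  hc : 0 < c
  hA : 0 < A
  kpos : ∀ n, 0 < κ n
  rel : ∀ n, 2 * κ n * ρ (n + 1) = 8 / 5 * (c * (20 ^ (n + 1)) ^ 2)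
  err : ∀ n, n0 ≤ n → κ n / (c * (20 ^ (n + 1)) ^ 2) * (M1 c A / 20 ^ (n + 1)) ≤ 1 / 4
  err0 : M1 c A / 20 ^ n0 ≤ 3 / 10 * ρ n0
  tT : tau c n0 < T0 c A

/-- The truncated coefficients. -/
def kt (κ : ℕ → ℝ) (m : ℕ) (n : ℕ) : ℝ := if n ≤ m then κ n else 0

theorem kt_le {κ : ℕ → ℝ} {m n : ℕ} (h : n ≤ m) : kt κ m n = κ n := if_pos h

theorem kt_gt {κ : ℕ → ℝ} {m n : ℕ} (h : m < n) : kt κ m n = 0 := if_neg (by omega)

theorem kt_abs {κ : ℕ → ℝ} (hκ : ∀ n, 0 < κ n) (m n : ℕ) : |kt κ m n| ≤ κ n := by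
  unfold kt
  split_ifs
  · rw [abs_of_pos (hκ n)]
  · rw [abs_zero]; exact (hκ n).le

theorem ps_cont (h : GSol c κ F A a u) (hc : 0 < c) (hA : 0 < A) (n : ℕ) :
    ContinuousOn (ps κ u n) (Icc 0 (T0 c A)) :=
  prim_cont (T0_pos hc hA).le (om_cont h.gal.cont κ _)

theorem GSol.ps_step {κ ρ : ℕ → ℝ} {n0 m : ℕ} (hch : Chain c A κ ρ n0) (h : GSol c (kt κ m) F A a u)
    (h0 : YY F u 0 ≤ A) {n : ℕ} (hn0 : n0 ≤ n) (hnm : n ≤ m) (hF : fk (n + 1) ∈ F) {σ φ : ℝ}
    (hσ : σ = 1 ∨ σ = -1)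
    (hφ : a (fk (n + 1)) = ![0, ((ρ (n + 1) * Real.cos φ : ℝ) : ℂ), ((ρ (n + 1) * Real.sin φ : ℝ) : ℂ)])
    (ih : ∀ t ∈ Icc (tau c (n + 1)) (T0 c A), 1 ≤ σ * (ps (kt κ m) u (n + 1) t + φ) ∧
      σ * (ps (kt κ m) u (n + 1) t + φ) ≤ 2) :
    ∀ t ∈ Icc (tau c n) (T0 c A), 1 ≤ σ * ps (kt κ m) u n t ∧ σ * ps (kt κ m) u n t ≤ 2 := by
  have hc := hch.hc
  have hA := hch.hA
  intro t ht
  set T := T0 c A with hT
  set μ := c * ((20 : ℝ) ^ (n + 1)) ^ 2 with hμ
  have hμ0 : 0 < μ := by positivity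
  have htau := tau_pos hc n
  have ht' : t ∈ Icc 0 T := ⟨htau.le.trans ht.1, ht.2⟩
  have hκn := hch.kpos n
  -- the main term
  set φ1 : ℝ → ℝ := fun s => σ * (ps (kt κ m) u (n + 1) s + φ) with hφ1
  have hφ1c : ContinuousOn φ1 (Icc 0 T) :=
    continuousOn_const.mul ((ps_cont h hc hA (n + 1)).add continuousOn_const)
  have h8 : 8 ≤ μ * t := by
    have h1 : μ * tau c n = 8 := by
      rw [hμ]; unfold tau; field_simp; ring
    rw [← h1]
    exact mul_le_mul_of_nonneg_left ht.1 hμ0.le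
  have hstep := step hμ0 h8 (hφ1c.mono (Icc_subset_Icc le_rfl ht.2)) (fun s hs =>
    ih s ⟨hs.1, hs.2.trans ht.2⟩)
  -- comparison
  have hsin : ∀ s, σ * Real.sin (ps (kt κ m) u (n + 1) s + φ) = Real.sin (φ1 s) := by
    intro s
    rcases hσ with h1 | h1
    · simp [hφ1, h1]
    · simp only [hφ1, h1, neg_one_mul]; rw [Real.sin_neg]
  have hthc : ContinuousOn (fun s => th (n + 1) (at' u s)) (Icc 0 T) := th_cont h.gal.cont _
  have hps : ps (kt κ m) u n t = κ n * ∫ s in (0 : ℝ)..t, th (n + 1) (at' u s) := by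
    unfold ps
    rw [← intervalIntegral.integral_const_mul]
    congr 1
    funext s
    rw [om_fk, kt_le hnm]
  have hbtc := bt_cont h.gal.supp h.gal.cont (fk (n + 1))
  have hgDc := gD_cont (μ := μ) (T0_pos hc hA).le hbtc
  have i1 : IntervalIntegrable (fun s => th (n + 1) (at' u s)) volume 0 t := ii_of_cont hthc ht'
  have hEc : ContinuousOn (fun s => 2 * ρ (n + 1) * Real.exp (-(μ * s))
      * Real.sin (ps (kt κ m) u (n + 1) s + φ)) (Icc 0 T) :=
    ContinuousOn.mul (by fun_prop) (Real.continuous_sin.comp_continuousOn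
      ((ps_cont h hc hA (n + 1)).add continuousOn_const))
  have i2 := ii_of_cont hEc ht'
  have i3 := ii_of_cont hgDc ht'
  have hint : |(∫ s in (0 : ℝ)..t, th (n + 1) (at' u s)) - ∫ s in (0 : ℝ)..t, 2 * ρ (n + 1) *
      Real.exp (-(μ * s)) * Real.sin (ps (kt κ m) u (n + 1) s + φ)| ≤ (M1 c A / 20 ^ (n + 1)) / μ := by
    rw [← intervalIntegral.integral_sub i1 i2, ← Real.norm_eq_abs]
    have h1 : ‖∫ s in (0 : ℝ)..t, (th (n + 1) (at' u s) - 2 * ρ (n + 1) * Real.exp (-(μ * s))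
        * Real.sin (ps (kt κ m) u (n + 1) s + φ))‖ ≤ ∫ s in (0 : ℝ)..t, gD μ 0 (bt' u (fk (n + 1))) s := by
      refine intervalIntegral.norm_integral_le_of_norm_le ht'.1 (Eventually.of_forall fun s hs => ?_) i3
      rw [Real.norm_eq_abs]
      exact h.th_formula hc hF hφ ⟨hs.1.le, hs.2.trans ht'.2⟩
    refine h1.trans ?_
    rw [le_div_iff₀ hμ0, mul_comm]
    refine (gD_int_le hbtc (fun s _ => bt_nonneg u _ s) ht').trans ?_
    refine (h.int_bt_le hc hA (fk (n + 1)) ht').trans ?_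
    have h2 := h.nk_BB hc hA h0 (fk (n + 1))
    rw [nk_fk] at h2
    rw [le_div_iff₀ (by positivity)]
    linarith
  have hmain : ∫ s in (0 : ℝ)..t, 8 / 5 * μ * Real.exp (-(μ * s)) * Real.sin (φ1 s)
      = σ * (κ n * ∫ s in (0 : ℝ)..t, 2 * ρ (n + 1) * Real.exp (-(μ * s))
        * Real.sin (ps (kt κ m) u (n + 1) s + φ)) := by
    rw [← intervalIntegral.integral_const_mul, ← intervalIntegral.integral_const_mul]
    congr 1
    funext s
    rw [← hsin]
    have := hch.rel n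
    rw [← hμ] at this
    rw [← this]
    ring
  have herr := hch.err n hn0
  rw [← hμ] at herr
  have hfin : |σ * ps (kt κ m) u n t
      - ∫ s in (0 : ℝ)..t, 8 / 5 * μ * Real.exp (-(μ * s)) * Real.sin (φ1 s)| ≤ 1 / 4 := by
    rw [hmain, hps, ← mul_sub, ← mul_sub, abs_mul, abs_mul, abs_of_pos hκn]
    have hσ1 : |σ| = 1 := by rcases hσ with h1 | h1 <;> rw [h1] <;> simp
    rw [hσ1, one_mul]
    calc κ n * _ ≤ κ n * ((M1 c A / 20 ^ (n + 1)) / μ) := mul_le_mul_of_nonneg_left hint hκn.le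
      _ = κ n / μ * (M1 c A / 20 ^ (n + 1)) := by ring
      _ ≤ 1 / 4 := herr
  have h9 := abs_le.1 hfin
  constructor
  · linarith [hstep.1, h9.1]
  · linarith [hstep.2, h9.2]

/-- All phases from `m+1` down to `n0` are under control. -/
theorem GSol.ps_all {κ ρ : ℕ → ℝ} {n0 m : ℕ} (hch : Chain c A κ ρ n0) (h : GSol c (kt κ m) F A a u)
    (h0 : YY F u 0 ≤ A) (hm : n0 ≤ m) (hF : ∀ n, n ≤ m + 1 → fk n ∈ F) {σ θ : ℝ}
    (hσ : σ = 1 ∨ σ = -1) (hθ : 1 ≤ σ * θ ∧ σ * θ ≤ 2)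
    (ha : ∀ n, n0 ≤ n → n ≤ m → a (fk n) = ![0, ((ρ n : ℝ) : ℂ), 0])
    (hat : a (fk (m + 1)) = ![0, ((ρ (m + 1) * Real.cos θ : ℝ) : ℂ), ((ρ (m + 1) * Real.sin θ : ℝ) : ℂ)]) :
    ∀ t ∈ Icc (tau c n0) (T0 c A), 1 ≤ σ * ps (kt κ m) u n0 t ∧ σ * ps (kt κ m) u n0 t ≤ 2 := by
  have key : ∀ d n, n + d = m → n0 ≤ n → ∀ t ∈ Icc (tau c n) (T0 c A),
      1 ≤ σ * ps (kt κ m) u n t ∧ σ * ps (kt κ m) u n t ≤ 2 := by
    intro d
    induction d with
    | zero =>
      intro n hn hn0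
      rw [add_zero] at hn
      subst hn
      refine h.ps_step hch h0 hn0 le_rfl (hF _ le_rfl) hσ hat fun t ht => ?_
      have : ps (kt κ n) u (n + 1) t = 0 := by
        unfold ps
        simp only [om_fk, kt_gt (Nat.lt_succ_self n), zero_mul, intervalIntegral.integral_zero]
      rw [this, zero_add]
      exact hθ
    | succ d ih =>
      intro n hn hn0
      have h1 := ih (n + 1) (by omega) (by omega)
      have h2 := ha (n + 1) (by omega) (by omega)
      refine h.ps_step hch h0 hn0 (by omega) (hF _ (by omega)) hσ (φ := 0) ?_ fun t ht => ?_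
      · rw [h2]; simp
      · rw [add_zero]; exact h1 t ht
  exact key (m - n0) n0 (by omega) le_rfl

/-- The sign of the driving coefficient of level `n0` at time `tau c n0`. -/
theorem GSol.th_sign {κ ρ : ℕ → ℝ} {n0 m : ℕ} (hch : Chain c A κ ρ n0) (h : GSol c (kt κ m) F A a u)
    (h0 : YY F u 0 ≤ A) (hm : n0 ≤ m) (hF : ∀ n, n ≤ m + 1 → fk n ∈ F) {σ θ : ℝ}
    (hσ : σ = 1 ∨ σ = -1) (hθ : 1 ≤ σ * θ ∧ σ * θ ≤ 2)
    (ha : ∀ n, n0 ≤ n → n ≤ m → a (fk n) = ![0, ((ρ n : ℝ) : ℂ), 0])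
    (hat : a (fk (m + 1)) = ![0, ((ρ (m + 1) * Real.cos θ : ℝ) : ℂ), ((ρ (m + 1) * Real.sin θ : ℝ) : ℂ)])
    (hρ : 0 < ρ n0) :
    ρ n0 ≤ σ * th n0 (at' u (tau c n0)) := by
  have hc := hch.hc
  have hA := hch.hA
  have htp := tau_pos hc n0
  have ht : tau c n0 ∈ Icc 0 (T0 c A) := ⟨htp.le, hch.tT.le⟩
  obtain ⟨h1, h2⟩ := h.ps_all hch h0 hm hF hσ hθ ha hat (tau c n0) ⟨le_rfl, hch.tT.le⟩
  have h3 := sin_ge h1 h2
  have h4 := h.th_formula hc (hF n0 (by omega)) (ρ := ρ n0) (φ := 0) (by rw [ha n0 le_rfl hm]; simp) ht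
  rw [add_zero] at h4
  have hbtc := bt_cont h.gal.supp h.gal.cont (fk n0)
  have h5 : gD (c * (20 ^ n0) ^ 2) 0 (bt' u (fk n0)) (tau c n0) ≤ 3 / 10 * ρ n0 := by
    refine (gD_le (by positivity) hbtc (fun s _ => bt_nonneg u _ s) ht).trans ?_
    refine (h.int_bt_le hc hA (fk n0) ht).trans ?_
    refine le_trans ?_ hch.err0
    have h2 := h.nk_BB hc hA h0 (fk n0)
    rw [nk_fk] at h2
    rw [le_div_iff₀ (by positivity)]
    linarith
  have h6 : c * (20 ^ n0) ^ 2 * tau c n0 = 1 / 50 := by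
    unfold tau; field_simp
  rw [h6] at h4
  have h7 := Real.add_one_le_exp (-(1 / 50 : ℝ))
  have hσs : σ * Real.sin (ps (kt κ m) u n0 (tau c n0)) = Real.sin (σ * ps (kt κ m) u n0 (tau c n0)) := by
    rcases hσ with h1 | h1
    · simp [h1]
    · simp [h1, Real.sin_neg]
  have h8 : |σ * th n0 (at' u (tau c n0)) - 2 * ρ n0 * Real.exp (-(1 / 50))
      * Real.sin (σ * ps (kt κ m) u n0 (tau c n0))| ≤ 3 / 10 * ρ n0 := by
    rw [← hσs]
    have e : σ * th n0 (at' u (tau c n0)) - 2 * ρ n0 * Real.exp (-(1 / 50))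
      * (σ * Real.sin (ps (kt κ m) u n0 (tau c n0))) = σ * (th n0 (at' u (tau c n0))
        - 2 * ρ n0 * Real.exp (-(1 / 50)) * Real.sin (ps (kt κ m) u n0 (tau c n0))) := by ring
    rw [e, abs_mul]
    have hσ1 : |σ| = 1 := by rcases hσ with h1 | h1 <;> rw [h1] <;> simp
    rw [hσ1, one_mul]
    linarith
  have h9 := (abs_le.1 h8).1
  have h10 : (49 / 50 : ℝ) * (83 / 100) ≤ Real.exp (-(1 / 50))
      * Real.sin (σ * ps (kt κ m) u n0 (tau c n0)) :=
    mul_le_mul (by linarith) h3 (by norm_num) (Real.exp_nonneg _)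
  nlinarith

end Pool.Agent.N980.NU
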