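import Pool.Agent.N980.NU.Ene
import Pool.Agent.N980.NU.Lim
import Pool.Agent.N980.NU.Phase

/-!
The initial data.
-/

open MeasureTheory Set Filter Topology
open scoped ContDiff

set_option linter.unusedVariables false

namespace Pool.Agent.N980.NU

open Pool.Agent.H356R3.NS (K C3 E3 R3 ex SN Sym RD TT SF SFam Fam cf' at' nk pw fj dS Bf dt cvv PF dU Ph Dm')

/-- The frequencies of the levels from `n0` on. -/
def lev (n0 : ℕ) (k : K) : Prop := ∃ n, n0 ≤ n ∧ (k = fk n ∨ k = -fk n)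

open Classical in
/-- Prescribed values on the levels. -/
noncomputable def ofl {E : Type*} (n0 : ℕ) (g : ℕ → E) (b : K → E) (k : K) : E :=
  if h : lev n0 k then g h.choose else b k

theorem ofl_lev {E : Type*} {n0 n : ℕ} (g : ℕ → E) (b : K → E) {k : K} (hn : n0 ≤ n)
    (hk : k = fk n ∨ k = -fk n) : ofl n0 g b k = g n := by
  have h : lev n0 k := ⟨n, hn, hk⟩
  rw [ofl, dif_pos h, lev_uniq h.choose_spec.2 hk]

theorem ofl_not {E : Type*} {n0 : ℕ} (g : ℕ → E) (b : K → E) {k : K} (h : ¬lev n0 k) :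
    ofl n0 g b k = b k := by
  rw [ofl, dif_neg h]

theorem lev_neg' {n0 : ℕ} {k : K} : lev n0 (-k) ↔ lev n0 k := by
  constructor
  · rintro ⟨n, h0, h | h⟩
    · exact ⟨n, h0, Or.inr (by rw [← h, neg_neg])⟩
    · exact ⟨n, h0, Or.inl (neg_injective h)⟩
  · rintro ⟨n, h0, h | h⟩
    · exact ⟨n, h0, Or.inr (by rw [h])⟩
    · exact ⟨n, h0, Or.inl (by rw [h, neg_neg])⟩

/-- Sums over the levels. -/
theorem sum_lev {g : ℕ → ℝ} (hg : Summable g) (n0 : ℕ) :
    HasSum (ofl n0 g fun _ => (0 : ℝ)) (2 * ∑' n, g (n + n0)) := by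
  classical
  have i1 : Function.Injective fun n => fk (n + n0) := fun n m h => by
    have := fk_inj h; omega
  have i2 : Function.Injective fun n => -fk (n + n0) := fun n m h => by
    have := fk_inj (neg_injective h); omega
  have sg : Summable fun n => g (n + n0) := (summable_nat_add_iff n0).2 hg
  set G := ofl n0 g fun _ => (0 : ℝ) with hG
  set g1 : K → ℝ := fun k => if ∃ n, fk (n + n0) = k then G k else 0 with hg1
  set g2 : K → ℝ := fun k => if ∃ n, -fk (n + n0) = k then G k else 0 with hg2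
  have h1 : HasSum g1 (∑' n, g (n + n0)) := by
    refine (i1.hasSum_iff (f := g1) ?_).1 ?_
    · intro k hk
      exact if_neg hk
    · have : g1 ∘ (fun n => fk (n + n0)) = fun n => g (n + n0) := funext fun n => by
        have e1 : g1 (fk (n + n0)) = G (fk (n + n0)) := if_pos ⟨n, rfl⟩
        rw [Function.comp, e1, hG, ofl_lev _ _ (Nat.le_add_left _ _) (Or.inl rfl)]
      rw [this]; exact sg.hasSum
  have h2 : HasSum g2 (∑' n, g (n + n0)) := by
    refine (i2.hasSum_iff (f := g2) ?_).1 ?_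
    · intro k hk
      exact if_neg hk
    · have : g2 ∘ (fun n => -fk (n + n0)) = fun n => g (n + n0) := funext fun n => by
        have e1 : g2 (-fk (n + n0)) = G (-fk (n + n0)) := if_pos ⟨n, rfl⟩
        rw [Function.comp, e1, hG, ofl_lev _ _ (Nat.le_add_left _ _) (Or.inr rfl)]
      rw [this]; exact sg.hasSum
  have h3 : G = fun k => g1 k + g2 k := by
    funext k
    by_cases hk : lev n0 k
    · obtain ⟨n, hn0, hn | hn⟩ := hk
      · have e1 : g1 k = G k := if_pos ⟨n - n0, by rw [Nat.sub_add_cancel hn0, hn]⟩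
        have e2 : g2 k = 0 := if_neg (by
          rintro ⟨m, hm⟩
          exact fk_ne_neg n (m + n0) (hn.symm.trans hm.symm))
        rw [e1, e2, add_zero]
      · have e1 : g1 k = 0 := if_neg (by
          rintro ⟨m, hm⟩
          exact fk_ne_neg (m + n0) n (hm.trans hn))
        have e2 : g2 k = G k := if_pos ⟨n - n0, by rw [Nat.sub_add_cancel hn0, hn]⟩
        rw [e1, e2, zero_add]
    · have e0 : G k = 0 := ofl_not _ _ hk
      have e1 : g1 k = 0 := by simp [hg1, e0]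
      have e2 : g2 k = 0 := by simp [hg2, e0]
      rw [e0, e1, e2, zero_add]
  have h4 := h1.add h2
  rw [h3, two_mul]
  exact h4

/-- The vector of a level. -/
noncomputable def vl (r θ : ℝ) : C3 := ![0, ((r * Real.cos θ : ℝ) : ℂ), ((r * Real.sin θ : ℝ) : ℂ)]

theorem nw_vl {r : ℝ} (hr : 0 ≤ r) (θ : ℝ) : nw (vl r θ) = 2 * r := by
  have h1 : ‖((r * Real.cos θ : ℝ) : ℂ) + Complex.I * ((r * Real.sin θ : ℝ) : ℂ)‖ = r := by
    have : ((r * Real.cos θ : ℝ) : ℂ) + Complex.I * ((r * Real.sin θ : ℝ) : ℂ)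
        = (r : ℂ) * Complex.exp (θ * Complex.I) := by
      rw [Complex.exp_mul_I]
      push_cast
      ring
    rw [this, norm_mul, Complex.norm_exp_ofReal_mul_I, mul_one, Complex.norm_real, Real.norm_eq_abs,
      abs_of_nonneg hr]
  have h2 : ‖((r * Real.cos θ : ℝ) : ℂ) - Complex.I * ((r * Real.sin θ : ℝ) : ℂ)‖ = r := by
    have : ((r * Real.cos θ : ℝ) : ℂ) - Complex.I * ((r * Real.sin θ : ℝ) : ℂ)
        = (r : ℂ) * Complex.exp (((-θ : ℝ) : ℂ) * Complex.I) := by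
      rw [Complex.exp_mul_I, ← Complex.ofReal_cos, ← Complex.ofReal_sin, Real.cos_neg, Real.sin_neg]
      push_cast
      ring
    rw [this, norm_mul, Complex.norm_exp_ofReal_mul_I, mul_one, Complex.norm_real, Real.norm_eq_abs,
      abs_of_nonneg hr]
  unfold nw
  rw [Fin.sum_univ_three]
  have e0 : el 0 (vl r θ) = 0 := rfl
  have e1 : el 1 (vl r θ) = ((r * Real.cos θ : ℝ) : ℂ) + Complex.I * ((r * Real.sin θ : ℝ) : ℂ) := rfl
  have e2 : el 2 (vl r θ) = ((r * Real.cos θ : ℝ) : ℂ) - Complex.I * ((r * Real.sin θ : ℝ) : ℂ) := rfl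
  rw [e0, e1, e2, h1, h2, norm_zero]
  ring

theorem vl_cont (r : ℝ) : Continuous (vl r) := by
  refine continuous_pi fun i => ?_
  fin_cases i
  · exact continuous_const
  · show Continuous fun θ => ((r * Real.cos θ : ℝ) : ℂ)
    fun_prop
  · show Continuous fun θ => ((r * Real.sin θ : ℝ) : ℂ)
    fun_prop

theorem star_vl (r θ : ℝ) (i : Fin 3) : star (vl r θ i) = vl r θ i := by
  fin_cases i
  · simp [vl]
  · show star ((r * Real.cos θ : ℝ) : ℂ) = ((r * Real.cos θ : ℝ) : ℂ)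
    rw [Complex.star_def, Complex.conj_ofReal]
  · show star ((r * Real.sin θ : ℝ) : ℂ) = ((r * Real.sin θ : ℝ) : ℂ)
    rw [Complex.star_def, Complex.conj_ofReal]

theorem dt_fk (n : ℕ) {v : C3} (h : v 0 = 0) : dt (fk n) v = 0 ∧ dt (-fk n) v = 0 := by
  unfold H356R3.NS.dt
  constructor <;> simp [Fin.sum_univ_three, fk, h]

/-- The data with prescribed amplitudes and phases on the levels from `n0` on. -/
noncomputable def dat (n0 : ℕ) (ρ φ : ℕ → ℝ) (b : K → C3) : K → C3 := ofl n0 (fun n => vl (ρ n) (φ n)) b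

theorem dat_sym {n0 : ℕ} {ρ φ : ℕ → ℝ} {b : K → C3} (hb : Sym b) : Sym (dat n0 ρ φ b) := by
  intro k i
  by_cases h : lev n0 k
  · obtain ⟨n, h0, hn⟩ := h
    have hn' : -k = fk n ∨ -k = -fk n := by
      rcases hn with hn | hn
      · right; rw [hn]
      · left; rw [hn, neg_neg]
    unfold dat
    rw [ofl_lev _ _ h0 hn, ofl_lev _ _ h0 hn', star_vl]
  · unfold dat
    rw [ofl_not _ _ h, ofl_not _ _ (fun h' => h (lev_neg'.1 h')), hb k i]

theorem dat_div {n0 : ℕ} {ρ φ : ℕ → ℝ} {b : K → C3} (hb : ∀ k, dt k (b k) = 0) (k : K) :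
    dt k (dat n0 ρ φ b k) = 0 := by
  by_cases h : lev n0 k
  · obtain ⟨n, h0, hn⟩ := h
    unfold dat
    rw [ofl_lev _ _ h0 hn]
    have := dt_fk n (v := vl (ρ n) (φ n)) rfl
    rcases hn with hn | hn
    · rw [hn]; exact this.1
    · rw [hn]; exact this.2
  · unfold dat
    rw [ofl_not _ _ h, hb k]

/-- The dominating sequence. -/
noncomputable def dbd (n0 : ℕ) (ρ : ℕ → ℝ) (b : K → C3) (k : K) : ℝ :=
  nw (b k) + ofl n0 (fun n => 2 * ρ n) (fun _ => 0) k

theorem dat_le {n0 : ℕ} {ρ φ : ℕ → ℝ} (hρ : ∀ n, 0 ≤ ρ n) {b : K → C3} (k : K) :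
    nw (dat n0 ρ φ b k) ≤ dbd n0 ρ b k := by
  unfold dbd dat
  by_cases h : lev n0 k
  · obtain ⟨n, h0, hn⟩ := h
    rw [ofl_lev _ _ h0 hn, ofl_lev _ _ h0 hn, nw_vl (hρ n)]
    have := nw_nonneg (b k)
    linarith
  · rw [ofl_not _ _ h, ofl_not _ _ h, add_zero]

theorem dbd_sum {n0 : ℕ} {ρ : ℕ → ℝ} (hρs : Summable ρ) {b : K → C3} (hb : Summable fun k => nw (b k)) :
    HasSum (dbd n0 ρ b) ((∑' k, nw (b k)) + 2 * ∑' n, 2 * ρ (n + n0)) :=
  hb.hasSum.add (sum_lev (hρs.mul_left 2) n0)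

/-- Truncation. -/
noncomputable def trn (F : Finset K) (a : K → C3) (k : K) : C3 := if k ∈ F then a k else 0

theorem trn_dat {c A : ℝ} {n0 : ℕ} {ρ φ : ℕ → ℝ} (hρ : ∀ n, 0 ≤ ρ n) (hρs : Summable ρ) {b : K → C3}
    (hs : Sym b) (hd : ∀ k, dt k (b k) = 0) (hb : Summable fun k => nw (b k)) {F : Finset K}
    (hF : ∀ k ∈ F, -k ∈ F) (hA : (∑' k, nw (b k)) + 2 * ∑' n, 2 * ρ (n + n0) ≤ A) :
    Dat F A (trn F (dat n0 ρ φ b)) where
  supp := fun k hk => if_neg hk
  sym := by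
    intro k i
    unfold trn
    by_cases hk : k ∈ F
    · rw [if_pos hk, if_pos (hF k hk), dat_sym hs]
    · have : -k ∉ F := fun h => hk (by simpa using hF _ h)
      rw [if_neg hk, if_neg this]
      simp
  div := by
    intro k
    unfold trn
    split_ifs
    · exact dat_div hd k
    · unfold H356R3.NS.dt; simp
  size := by
    have h1 : ∑ k ∈ F, nw (trn F (dat n0 ρ φ b) k) ≤ ∑ k ∈ F, dbd n0 ρ b k := by
      refine Finset.sum_le_sum fun k hk => ?_
      unfold trn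
      rw [if_pos hk]
      exact dat_le hρ k
    have h2 : ∑ k ∈ F, dbd n0 ρ b k ≤ (∑' k, nw (b k)) + 2 * ∑' n, 2 * ρ (n + n0) :=
      sum_le_hasSum F (fun k _ => (nw_nonneg _).trans (dat_le (φ := fun _ => 0) hρ k)) (dbd_sum hρs hb)
    linarith

end Pool.Agent.N980.NU
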