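import Pool.Agent.N980.NU.Kpr

/-!
Further properties of the bilinear operator: Laplacian, curl, linearity, Sobolev bounds.
-/

open MeasureTheory Set Filter Topology
open scoped ContDiff

set_option linter.unusedVariables false

namespace Pool.Agent.N980.NU

open Pool.Agent.H356R3.NS (K C3 E3 R3 ex SN Sym RD TT SF SFam Fam cf' at' nk pw fj dS Bf dt)

/-! ### derivatives of coefficients -/

theorem fr_pd' {v : V → V} (hv : SPV v) (i j : Fin 3) (k : K) :
    H459R3.NS.fr (pd j fun y => v y i) k = fj k j * fco v k i := by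
  have h := congrFun (H459R3.NS.fr_pd (hv.sp i) j) k
  rw [fco_fr]
  exact h

theorem SPV_of_sp {v : V → V} (h : ∀ i, H459R3.NS.SP fun x => v x i) : SPV v :=
  ⟨contDiff_pi.2 fun i => (h i).smooth, fun x j => funext fun i => (h i).per j x⟩

theorem sp_pd {f : V → ℝ} (h : H459R3.NS.SP f) (j : Fin 3) : H459R3.NS.SP (pd j f) := h.pd j

theorem SPV.lap {v : V → V} (h : SPV v) : SPV (lap v) := by
  refine SPV_of_sp fun i => ?_
  exact H459R3.NS.SP.sum fun j _ => (sp_pd (sp_pd (h.sp i) j) j)

theorem SP_sub {f g : V → ℝ} (hf : H459R3.NS.SP f) (hg : H459R3.NS.SP g) :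
    H459R3.NS.SP fun x => f x - g x where
  smooth := hf.smooth.sub hg.smooth
  per := fun i x => by
    show f (x + Pi.single i 1) - g (x + Pi.single i 1) = f x - g x
    have h1 := hf.per i x
    have h2 := hg.per i x
    rw [h1, h2]

theorem SPV.curl {v : V → V} (h : SPV v) : SPV (curl v) := by
  refine SPV_of_sp fun i => ?_
  fin_cases i
  · exact SP_sub (sp_pd (h.sp 2) 1) (sp_pd (h.sp 1) 2)
  · exact SP_sub (sp_pd (h.sp 0) 2) (sp_pd (h.sp 2) 0)
  · exact SP_sub (sp_pd (h.sp 1) 0) (sp_pd (h.sp 0) 1)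

theorem fr_sum {ι : Type*} (s : Finset ι) {f : ι → V → ℝ} (h : ∀ j ∈ s, H459R3.NS.SP (f j)) (k : K) :
    H459R3.NS.fr (fun x => ∑ j ∈ s, f j x) k = ∑ j ∈ s, H459R3.NS.fr (f j) k := by
  unfold H459R3.NS.fr H459R3.NS.fc
  rw [← integral_finsetSum]
  · congr 1
    funext x
    push_cast
    rw [Finset.mul_sum]
  · intro j hj
    exact H459R3.NS.integrableOn_cube ((H459R3.NS.ee_continuous _).mul
      (Complex.continuous_ofReal.comp (h j hj).smooth.continuous))

theorem fr_sub {f g : V → ℝ} (hf : H459R3.NS.SP f) (hg : H459R3.NS.SP g) (k : K) :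
    H459R3.NS.fr (fun x => f x - g x) k = H459R3.NS.fr f k - H459R3.NS.fr g k := by
  unfold H459R3.NS.fr H459R3.NS.fc
  rw [← integral_sub]
  · congr 1
    funext x
    push_cast
    ring
  · exact H459R3.NS.integrableOn_cube ((H459R3.NS.ee_continuous _).mul
      (Complex.continuous_ofReal.comp hf.smooth.continuous))
  · exact H459R3.NS.integrableOn_cube ((H459R3.NS.ee_continuous _).mul
      (Complex.continuous_ofReal.comp hg.smooth.continuous))

theorem fr_pd2 {f : V → ℝ} (hf : H459R3.NS.SP f) (j : Fin 3) (k : K) :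
    H459R3.NS.fr (pd j f) k = fj k j * H459R3.NS.fr f k :=
  congrFun (H459R3.NS.fr_pd hf j) k

theorem fco_lap {v : V → V} (hv : SPV v) (k : K) (i : Fin 3) :
    fco (lap v) k i = (∑ j, fj k j * fj k j) * fco v k i := by
  rw [fco_fr]
  have e : (fun x => lap v x i) = fun x => ∑ j, pd j (pd j fun y => v y i) x := rfl
  rw [e, fr_sum Finset.univ (fun j _ => sp_pd (sp_pd (hv.sp i) j) j), Finset.sum_mul]
  refine Finset.sum_congr rfl fun j _ => ?_
  rw [fr_pd2 (sp_pd (hv.sp i) j), fr_pd2 (hv.sp i), fco_fr, mul_assoc]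

theorem fco_curl {v : V → V} (hv : SPV v) (k : K) :
    fco (curl v) k = ![fj k 1 * fco v k 2 - fj k 2 * fco v k 1, fj k 2 * fco v k 0 - fj k 0 * fco v k 2,
      fj k 0 * fco v k 1 - fj k 1 * fco v k 0] := by
  have h : ∀ i j, H459R3.NS.fr (pd j fun y => v y i) k = fj k j * fco v k i := fun i j => fr_pd' hv i j k
  funext i
  rw [fco_fr]
  fin_cases i
  · show H459R3.NS.fr (fun x => pd 1 (fun y => v y 2) x - pd 2 (fun y => v y 1) x) k = _
    rw [fr_sub (sp_pd (hv.sp 2) 1) (sp_pd (hv.sp 1) 2)]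
    change H459R3.NS.fr (pd 1 fun y => v y 2) k - H459R3.NS.fr (pd 2 fun y => v y 1) k = _
    rw [h, h]; rfl
  · show H459R3.NS.fr (fun x => pd 2 (fun y => v y 0) x - pd 0 (fun y => v y 2) x) k = _
    rw [fr_sub (sp_pd (hv.sp 0) 2) (sp_pd (hv.sp 2) 0)]
    change H459R3.NS.fr (pd 2 fun y => v y 0) k - H459R3.NS.fr (pd 0 fun y => v y 2) k = _
    rw [h, h]; rfl
  · show H459R3.NS.fr (fun x => pd 0 (fun y => v y 1) x - pd 1 (fun y => v y 0) x) k = _
    rw [fr_sub (sp_pd (hv.sp 1) 0) (sp_pd (hv.sp 0) 1)]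
    change H459R3.NS.fr (pd 0 fun y => v y 1) k - H459R3.NS.fr (pd 1 fun y => v y 0) k = _
    rw [h, h]; rfl

variable {lam : ℕ → ℝ} (hl : PG (kap lam))
include hl

theorem Kop_lap {u v : V → V} (hu : SPV u) (hv : SPV v) : Kop lam u (lap v) = lap (Kop lam u v) := by
  rw [Kop_fs hl hu hv.lap, Kop_fs hl hu hv]
  funext x i
  unfold lap
  have h1 : ∀ j, pd j (fun y => (fs (fun k => kc lam u v k i) y).re)
      = fun x => (fs (fun k => fj k j * kc lam u v k i) x).re := fun j =>
    funext fun x => pd_fs (RD_kc hl hu hv i) j x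
  simp only [h1]
  simp only [pd_fs (RD_fj (RD_kc hl hu hv i) _)]
  rw [← Complex.re_sum, ← fs_finsum Finset.univ
    (a := fun j k => fj k j * (fj k j * kc lam u v k i))
    (fun j _ => RD_summ (RD_fj (RD_fj (RD_kc hl hu hv i) j) j))]
  congr 2
  funext k
  have h2 : kc lam u (NU.lap v) k i = (∑ j, fj k j * fj k j) * kc lam u v k i := by
    unfold kc
    have h3 : ∀ i, fco (NU.lap v) k i = (∑ j, fj k j * fj k j) * fco v k i := fun i => fco_lap hv k i
    rw [Pi.smul_apply, Pi.smul_apply, Complex.real_smul, Complex.real_smul]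
    have h4 : J (fco (NU.lap v) k) i = (∑ j, fj k j * fj k j) * J (fco v k) i := by
      fin_cases i
      · simp [J]
      · show -(fco (NU.lap v) k 2) = _ * -(fco v k 2)
        rw [h3]; ring
      · show fco (NU.lap v) k 1 = _ * fco v k 1
        rw [h3]
    rw [h4]; ring
  change kc lam u (NU.lap v) k i = _
  rw [h2, Finset.sum_mul]
  exact Finset.sum_congr rfl fun j _ => by ring

theorem Kop_curl {u v : V → V} (hu : SPV u) (hv : SPV v) : Kop lam u (curl v) = curl (Kop lam u v) := by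
  rw [Kop_fs hl hu hv.curl, Kop_fs hl hu hv]
  funext x
  have hpd : ∀ i j, pd j (fun y => (fs (fun k => kc lam u v k i) y).re) x
      = (fs (fun k => fj k j * kc lam u v k i) x).re := fun i j => pd_fs (RD_kc hl hu hv i) j x
  have hsm : ∀ i j, Summable fun k => fj k j * kc lam u v k i * ex k x := by
    intro i j
    refine Summable.of_norm_bounded (RD_summ (RD_fj (RD_kc hl hu hv i) j)) fun k => ?_
    rw [norm_mul, H356R3.NS.norm_ex, mul_one]
  have hsub : ∀ i j i' j', (fs (fun k => fj k j * kc lam u v k i) x).re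
      - (fs (fun k => fj k j' * kc lam u v k i') x).re
      = (fs (fun k => fj k j * kc lam u v k i - fj k j' * kc lam u v k i') x).re := by
    intro i j i' j'
    rw [← Complex.sub_re]
    congr 1
    unfold fs
    rw [← (hsm i j).tsum_sub (hsm i' j')]
    exact tsum_congr fun k => by ring
  have hk : ∀ k, kc lam u (curl v) k = ![fj k 1 * kc lam u v k 2 - fj k 2 * kc lam u v k 1,
      fj k 2 * kc lam u v k 0 - fj k 0 * kc lam u v k 2,
      fj k 0 * kc lam u v k 1 - fj k 1 * kc lam u v k 0] := by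
    intro k
    unfold kc
    by_cases h : ∃ n, k = fk n ∨ k = -fk n
    · obtain ⟨n, hn⟩ := h
      have f1 : fj k 1 = 0 := by
        rcases hn with hn | hn <;> rw [hn] <;> simp [fj, fk]
      have f2 : fj k 2 = 0 := by
        rcases hn with hn | hn <;> rw [hn] <;> simp [fj, fk]
      rw [fco_curl hv]
      funext i
      fin_cases i
      · simp [J, f1, f2]
      · simp only [J, f1, f2, Fin.mk_one, Fin.isValue, Pi.smul_apply, Matrix.cons_val_one,
          Matrix.cons_val_zero, Matrix.cons_val, Complex.real_smul]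
        ring
      · simp only [J, f1, f2, Fin.reduceFinMk, Fin.isValue, Pi.smul_apply, Matrix.cons_val_one,
          Matrix.cons_val_zero, Matrix.cons_val, Complex.real_smul]
        ring
    · rw [om_not _ _ h]
      funext i
      fin_cases i <;> simp
  funext i
  fin_cases i
  · show (fs (fun k => kc lam u (curl v) k 0) x).re = pd 1 _ x - pd 2 _ x
    rw [hpd 2 1, hpd 1 2, hsub]
    simp only [hk, Matrix.cons_val_zero]
  · show (fs (fun k => kc lam u (curl v) k 1) x).re = pd 2 _ x - pd 0 _ x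
    rw [hpd 0 2, hpd 2 0, hsub]
    simp only [hk, Matrix.cons_val_one, Matrix.cons_val_zero]
  · show (fs (fun k => kc lam u (curl v) k 2) x).re = pd 0 _ x - pd 1 _ x
    rw [hpd 1 0, hpd 0 1, hsub]
    simp only [hk, Matrix.cons_val]

end Pool.Agent.N980.NU
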