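import Pool.Agent.N980.NU.Phy
import Pool.Agent.N980.NU.Kp2
import Pool.Agent.H459R3.NS.Sol

/-!
The energy equality.
-/

open MeasureTheory Set Filter Topology
open scoped ContDiff

set_option linter.unusedVariables false

namespace Pool.Agent.N980.NU

open Pool.Agent.H356R3.NS (K C3 E3 R3 ex SN Sym RD TT SF SFam Fam cf' at' nk pw fj dS Bf dt cvv PF dU Ph Dm')

variable {ν T : ℝ} {lam : ℕ → ℝ} {a : K → C3} {u : Fam}

theorem NSol.sp_p (h : NSol ν lam T a u) (hν : 0 < ν) {t : ℝ} (ht : t ∈ Ioo 0 T) :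
    H459R3.NS.SP (PP u t) where
  smooth := by
    have hAT : ∀ n i, TT n (cf' (fun k _ => u k t : Fam) i) := fun n i => TT_cst (h.rd hν ht i) n
    have hPF : RD (cst fun k => PF u k t) := by
      have : TT 0 (PF (fun k _ => u k t : Fam)) := H356R3.NS.TT_PF (hAT 0)
      intro m
      obtain ⟨b, hb, hbd⟩ := this.rd m
      exact ⟨b, hb, fun k s => hbd k 0⟩
    exact fs_smooth hPF
  per := fun j x => by
    unfold PP
    rw [fs_per]

theorem NSol.energy_deriv (h : NSol ν lam T a u) (hν : 0 < ν) (hl : PG (kap lam)) {t : ℝ}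
    (ht : t ∈ Ioo 0 T) :
    HasDerivAt (fun s => energy (UU u s)) (-(2 * ν * dissip (UU u t))) t := by
  have hsm := (h.smooth_on hν hl).1
  have hspv := h.spv hν ht
  set v : Fin 3 → V → ℝ := fun i y => UU u t y i with hv
  have hsp : ∀ i, H459R3.NS.SP (v i) := fun i => hspv.sp i
  have hdiv : ∀ x, ∑ i, H459R3.NS.pd i (v i) x = 0 := fun x => h.dv_zero hν ht x
  have hP := h.sp_p hν ht
  have hK : SPV (Kop lam (UU u t) (UU u t)) := SPV_Kop hl hspv hspv
  have hF : ContDiffOn ℝ 1 (fun z : ℝ × V => ∑ i, UU u z.1 z.2 i ^ 2) (Ioo 0 T ×ˢ univ) :=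
    ContDiffOn.sum fun i _ => (((contDiffOn_pi.1 hsm) i).of_le (by norm_cast)).pow 2
  have key := H459R3.NS.hasDerivAt_int (F := fun s x => ∑ i, UU u s x i ^ 2) hF ht
  refine key.congr_deriv ?_
  have hd : ∀ x i, deriv (fun s => UU u s x i) t = ν * H459R3.NS.lap (v i) x
      - H459R3.NS.conv v i x - H459R3.NS.pd i (PP u t) x + Kop lam (UU u t) (UU u t) x i := by
    intro x i
    have h1 := h.momentum hν hl ht x i
    have e1 : lap (UU u t) x i = H459R3.NS.lap (v i) x := rfl
    have e2 : ∑ j, UU u t x j * pd j (fun y => UU u t y i) x = H459R3.NS.conv v i x := rfl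
    have e3 : pd i (PP u t) x = H459R3.NS.pd i (PP u t) x := rfl
    rw [e1, e2, e3] at h1
    linarith
  have h3 : ∀ x, deriv (fun s => ∑ i, UU u s x i ^ 2) t
      = 2 * ν * (∑ i, H459R3.NS.lap (v i) x * v i x) - 2 * (∑ i, v i x * H459R3.NS.conv v i x)
        - 2 * (∑ i, v i x * H459R3.NS.pd i (PP u t) x)
        + 2 * ∑ i, Kop lam (UU u t) (UU u t) x i * v i x := by
    intro x
    have h4 : HasDerivAt (fun s => ∑ i, UU u s x i ^ 2)
        (∑ i, 2 * v i x * deriv (fun s => UU u s x i) t) t := by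
      refine HasDerivAt.fun_sum fun i _ => ?_
      have h5 := (h.time_deriv hν hl ht x i)
      have h6 := h5.pow 2
      rw [← h5.deriv] at h6
      refine h6.congr_deriv ?_
      simp only [hv]
      push_cast
      ring
    rw [h4.deriv]
    simp only [hd, Finset.mul_sum]
    rw [← Finset.sum_sub_distrib, ← Finset.sum_sub_distrib, ← Finset.sum_add_distrib]
    exact Finset.sum_congr rfl fun i _ => by ring
  simp_rw [h3]
  have i1 : ∀ i, IntegrableOn (fun x => H459R3.NS.lap (v i) x * v i x) H459R3.NS.cube := fun i =>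
    ((hsp i).lap.mul (hsp i)).int
  have i2 : ∀ i, IntegrableOn (fun x => v i x * H459R3.NS.conv v i x) H459R3.NS.cube := fun i =>
    ((hsp i).mul (H459R3.NS.sp_conv hsp i)).int
  have i3 : ∀ i, IntegrableOn (fun x => v i x * H459R3.NS.pd i (PP u t) x) H459R3.NS.cube := fun i =>
    ((hsp i).mul (hP.pd i)).int
  have i4 : ∀ i, IntegrableOn (fun x => Kop lam (UU u t) (UU u t) x i * v i x) H459R3.NS.cube := fun i =>
    ((hK.sp i).mul (hsp i)).int
  have s1 := (integrable_finset_sum Finset.univ fun i _ => i1 i).const_mul (2 * ν)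
  have s2 := (integrable_finset_sum Finset.univ fun i _ => i2 i).const_mul 2
  have s3 := (integrable_finset_sum Finset.univ fun i _ => i3 i).const_mul 2
  have s4 := (integrable_finset_sum Finset.univ fun i _ => i4 i).const_mul 2
  have s12 : Integrable (fun x => 2 * ν * (∑ i, H459R3.NS.lap (v i) x * v i x)
      - 2 * (∑ i, v i x * H459R3.NS.conv v i x)) (volume.restrict H459R3.NS.cube) := s1.sub s2
  have s123 : Integrable (fun x => 2 * ν * (∑ i, H459R3.NS.lap (v i) x * v i x)
      - 2 * (∑ i, v i x * H459R3.NS.conv v i x) - 2 * (∑ i, v i x * H459R3.NS.pd i (PP u t) x))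
      (volume.restrict H459R3.NS.cube) := s12.sub s3
  rw [integral_add s123 s4, integral_sub s12 s3, integral_sub s1 s2,
    integral_const_mul, integral_const_mul, integral_const_mul, integral_const_mul,
    integral_finsetSum _ fun i _ => i1 i, integral_finsetSum _ fun i _ => i2 i,
    integral_finsetSum _ fun i _ => i3 i, H459R3.NS.int_conv hsp hdiv, H459R3.NS.int_press hsp hdiv hP]
  have e4 : ∫ x in H459R3.NS.cube, ∑ i, Kop lam (UU u t) (UU u t) x i * v i x = 0 := by
    have h1 := Kop_skew hl hspv hspv hspv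
    have h2 : ip (UU u t) (Kop lam (UU u t) (UU u t)) = ip (Kop lam (UU u t) (UU u t)) (UU u t) := ip_comm _ _
    rw [h2] at h1
    have h3 : ip (Kop lam (UU u t) (UU u t)) (UU u t) = 0 := by linarith
    exact h3
  rw [e4]
  have e2 : ∑ i, ∫ x in H459R3.NS.cube, H459R3.NS.lap (v i) x * v i x = -dissip (UU u t) := by
    unfold dissip
    have h5 : ∀ i j, IntegrableOn (fun x => H459R3.NS.pd j (v i) x ^ 2) H459R3.NS.cube := by
      intro i j
      have := (((hsp i).pd j).mul ((hsp i).pd j)).int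
      simpa [sq] using this
    have h6 : ∫ x in cube, ∑ i, ∑ j, pd j (fun y => UU u t y i) x ^ 2
        = ∑ i, ∑ j, ∫ x in H459R3.NS.cube, H459R3.NS.pd j (v i) x ^ 2 := by
      show ∫ x in H459R3.NS.cube, ∑ i, ∑ j, H459R3.NS.pd j (v i) x ^ 2 = _
      rw [integral_finsetSum _ fun i _ => integrable_finset_sum _ fun j _ => h5 i j]
      refine Finset.sum_congr rfl fun i _ => ?_
      rw [integral_finsetSum _ fun j _ => h5 i j]
    rw [h6, ← Finset.sum_neg_distrib]
    refine Finset.sum_congr rfl fun i _ => ?_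
    rw [H459R3.NS.int_lap_mul (hsp i) (hsp i)]
    congr 1
    refine Finset.sum_congr rfl fun j _ => ?_
    congr 1
    funext x
    rw [sq]
  rw [e2]
  ring

theorem dissip_nonneg (v : V → V) : 0 ≤ dissip v :=
  integral_nonneg fun x => Finset.sum_nonneg fun i _ => Finset.sum_nonneg fun j _ => sq_nonneg _

theorem NSol.energy_eq (h : NSol ν lam T a u) (hν : 0 < ν) (hl : PG (kap lam)) {t : ℝ}
    (ht : t ∈ Ico 0 T) :
    energy (UU u t) + 2 * ν * ∫ s in (0 : ℝ)..t, dissip (UU u s) = energy (UU u 0) := by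
  have hc : ContinuousOn (fun s => energy (UU u s)) (Ico 0 T) := by
    have h1 : ContinuousOn (fun z : ℝ × V => ∑ i, UU u z.1 z.2 i ^ 2) (Ico 0 T ×ˢ univ) := by
      refine continuousOn_finsetSum _ fun i _ => ContinuousOn.pow ?_ 2
      have h2 := h.cont_on.mono (prod_mono Ico_subset_Icc_self (subset_refl (univ : Set V)))
      exact (continuousOn_pi.1 h2) i
    exact H459R3.NS.continuousOn_int (F := fun s x => ∑ i, UU u s x i ^ 2) h1
  have hc' : ContinuousOn (fun s => -energy (UU u s)) (Icc 0 t) :=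
    (hc.mono fun s hs => ⟨hs.1, hs.2.trans_lt ht.2⟩).neg
  have hd : ∀ s ∈ Ioo 0 t, HasDerivAt (fun s => -energy (UU u s)) (2 * ν * dissip (UU u s)) s := by
    intro s hs
    have := (h.energy_deriv hν hl ⟨hs.1, hs.2.trans ht.2⟩).neg
    rwa [neg_neg] at this
  have hi : IntervalIntegrable (fun s => 2 * ν * dissip (UU u s)) volume 0 t := by
    refine intervalIntegral.intervalIntegrable_deriv_of_nonneg (g := fun s => -energy (UU u s)) ?_ ?_ ?_
    · rwa [uIcc_of_le ht.1]
    · rw [min_eq_left ht.1, max_eq_right ht.1]; exact hd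
    · intro s _
      have := dissip_nonneg (UU u s)
      positivity
  have := intervalIntegral.integral_eq_sub_of_hasDerivAt_of_le ht.1 hc' hd hi
  rw [intervalIntegral.integral_const_mul] at this
  linarith

end Pool.Agent.N980.NU
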