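import Pool.Agent.N980.NU.Apri

/-!
Existence for the truncated system.
-/

open MeasureTheory Set Filter Topology
open scoped NNReal

set_option linter.unusedVariables false

namespace Pool.Agent.N980.NU

open Pool.Agent.H356R3.NS

/-- Flow of a bounded Lipschitz vector field. -/
theorem flow {X : Type*} [NormedAddCommGroup X] [NormedSpace ℝ X] [CompleteSpace X] {W : X → X}
    {C : ℝ≥0} (hL : LipschitzWith C W) {M : ℝ} (hM : ∀ x, ‖W x‖ ≤ M) {T : ℝ} (hT : 0 ≤ T) (r : ℝ≥0) :
    ∃ α : X → ℝ → X, (∀ x ∈ Metric.closedBall (0 : X) r, α x 0 = x ∧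
      ∀ t ∈ Icc 0 T, HasDerivWithinAt (α x) (W (α x t)) (Icc 0 T) t) ∧
      ∃ L' : ℝ≥0, ∀ t ∈ Icc 0 T, LipschitzOnWith L' (α · t) (Metric.closedBall 0 r) := by
  have hM0 : 0 ≤ M := (norm_nonneg _).trans (hM 0)
  have h : IsPicardLindelof (fun _ => W) (tmin := 0) (tmax := T) ⟨0, le_rfl, hT⟩ (0 : X)
      (r + M.toNNReal * T.toNNReal) r M.toNNReal C := by
    refine IsPicardLindelof.of_time_independent (fun x _ => ?_) hL.lipschitzOnWith ?_
    · rw [Real.coe_toNNReal _ hM0]; exact hM x
    · push_cast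
      rw [Real.coe_toNNReal _ hM0, Real.coe_toNNReal _ hT, sub_zero, sub_self, max_eq_left hT]
      linarith
  exact h.exists_forall_mem_closedBall_eq_hasDerivWithinAt_lipschitzOnWith

variable (F : Finset K)

/-- The state space. -/
abbrev XF := {k : K // k ∈ F} → C3

open Classical in
/-- Extension by zero. -/
noncomputable def Ez (x : XF F) : K → C3 := fun k => if h : k ∈ F then x ⟨k, h⟩ else 0

/-- The conjugate vector. -/
noncomputable def cj (v : C3) : C3 := fun i => star (v i)

/-- Symmetrization. -/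
noncomputable def Sz (x : XF F) : K → C3 := fun k => (1 / 2 : ℝ) • (Ez F x k + cj (Ez F x (-k)))

variable {F}

theorem Ez_mem (x : XF F) {k : K} (h : k ∈ F) : Ez F x k = x ⟨k, h⟩ := by
  rw [Ez, dif_pos h]

theorem Ez_not (x : XF F) {k : K} (h : k ∉ F) : Ez F x k = 0 := by
  rw [Ez, dif_neg h]

theorem cj_cj (v : C3) : cj (cj v) = v := by funext i; simp [cj]

theorem cj_zero : cj 0 = 0 := by funext i; simp [cj]

theorem cj_add (v w : C3) : cj (v + w) = cj v + cj w := by funext i; simp [cj]

theorem cj_sub (v w : C3) : cj (v - w) = cj v - cj w := by funext i; simp [cj]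

theorem cj_smul (r : ℝ) (v : C3) : cj (r • v) = r • cj v := by
  funext i
  simp [cj]

theorem cj_J (v : C3) : cj (J v) = J (cj v) := by
  funext i
  fin_cases i <;> simp [cj, J]

theorem J_add (v w : C3) : J (v + w) = J v + J w := by
  funext i
  fin_cases i
  · simp [J]
  · simp only [J, Fin.mk_one, Fin.isValue, Pi.add_apply, Matrix.cons_val_one, Matrix.cons_val_zero]; ring
  · simp [J]

theorem J_sub (v w : C3) : J (v - w) = J v - J w := by
  funext i
  fin_cases i
  · simp [J]
  · simp only [J, Fin.mk_one, Fin.isValue, Pi.sub_apply, Matrix.cons_val_one, Matrix.cons_val_zero]; ring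
  · simp [J]

theorem Sym_iff {x : K → C3} : Sym x ↔ ∀ k, x (-k) = cj (x k) :=
  ⟨fun h k => funext fun i => h k i, fun h k i => by rw [h k]; rfl⟩

theorem Sz_sym (x : XF F) : Sym (Sz F x) := by
  rw [Sym_iff]
  intro k
  rw [Sz, Sz, neg_neg, cj_smul, cj_add, cj_cj, add_comm]

theorem Sz_not (hF : ∀ k ∈ F, -k ∈ F) (x : XF F) {k : K} (h : k ∉ F) : Sz F x k = 0 := by
  have h2 : -k ∉ F := fun h' => h (by simpa using hF _ h')
  rw [Sz, Ez_not x h, Ez_not x h2, cj_zero, add_zero, smul_zero]

/-- The vector field. -/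
noncomputable def VF (c : ℝ) (κ : ℕ → ℝ) (x : XF F) : XF F := fun k =>
  -(c * nk k.1 ^ 2) • x k + Bf (Sz F x) (Sz F x) k.1 + om' κ (Sz F x) k.1 • J (x k)

theorem Ez_contDiff (k : K) : ContDiff ℝ 1 fun x : XF F => Ez F x k := by
  by_cases h : k ∈ F
  · have e : (fun x : XF F => Ez F x k) = fun x => x ⟨k, h⟩ := funext fun x => Ez_mem x h
    rw [e]
    exact contDiff_apply ℝ C3 _
  · have e : (fun x : XF F => Ez F x k) = fun x => 0 := funext fun x => Ez_not x h
    rw [e]
    exact contDiff_const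

theorem cj_contDiff : ContDiff ℝ 1 cj := by
  rw [contDiff_pi]
  intro i
  have : (fun v : C3 => cj v i) = fun v => Complex.conjCLE (v i) := by
    funext v; simp [cj]
  rw [this]
  exact Complex.conjCLE.contDiff.comp (contDiff_apply ℝ ℂ i)

theorem J_contDiff : ContDiff ℝ 1 J := by
  rw [contDiff_pi]
  intro i
  fin_cases i
  · exact contDiff_const
  · show ContDiff ℝ 1 fun v : C3 => -v 2
    exact (contDiff_apply ℝ ℂ 2).neg
  · show ContDiff ℝ 1 fun v : C3 => v 1
    exact contDiff_apply ℝ ℂ 1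

theorem Sz_contDiff (k : K) : ContDiff ℝ 1 fun x : XF F => Sz F x k := by
  unfold Sz
  exact ((Ez_contDiff k).add (cj_contDiff.comp (Ez_contDiff (-k)))).const_smul _

theorem VF_contDiff (hF : ∀ k ∈ F, -k ∈ F) (c : ℝ) (κ : ℕ → ℝ) :
    ContDiff ℝ 1 (VF (F := F) c κ) := by
  rw [contDiff_pi]
  intro k
  unfold VF
  refine ContDiff.add (ContDiff.add ?_ ?_) ?_
  · exact (contDiff_apply ℝ C3 k).const_smul (-(c * nk k.1 ^ 2))
  · rw [contDiff_pi]
    intro i
    unfold Bf
    refine ContDiff.sum fun j _ => ContDiff.sum fun m _ => ?_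
    refine ContDiff.mul contDiff_const ?_
    have e : (fun x : XF F => cv (Sz F x) (Sz F x) k.1 j m)
        = fun x => ∑ l ∈ F, Sz F x l j * Sz F x (k.1 - l) m := by
      funext x
      refine tsum_eq_sum fun l hl => ?_
      rw [Sz_not hF x hl]; simp
    rw [e]
    refine ContDiff.sum fun l _ => ?_
    exact ((contDiff_apply ℝ ℂ j).comp (Sz_contDiff l)).mul
      ((contDiff_apply ℝ ℂ m).comp (Sz_contDiff (k.1 - l)))
  · suffices hom : ContDiff ℝ 1 fun x : XF F => om' κ (Sz F x) k.1 from
      hom.smul (J_contDiff.comp (contDiff_apply ℝ C3 k))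
    by_cases h : ∃ n, k.1 = fk n ∨ k.1 = -fk n
    · obtain ⟨n, hn⟩ := h
      have e : (fun x : XF F => om' κ (Sz F x) k.1) = fun x => κ n * th (n + 1) (Sz F x) :=
        funext fun x => om_lev κ _ hn
      rw [e]
      refine contDiff_const.mul ?_
      unfold th
      refine contDiff_const.mul ?_
      exact Complex.reCLM.contDiff.comp ((contDiff_apply ℝ ℂ 2).comp (Sz_contDiff _))
    · have e : (fun x : XF F => om' κ (Sz F x) k.1) = fun x => 0 := funext fun x => om_not κ _ h
      rw [e]
      exact contDiff_const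

/-- The admissible data. -/
structure Dat (F : Finset K) (A : ℝ) (a : K → C3) : Prop where
  supp : ∀ k, k ∉ F → a k = 0
  sym : Sym a
  div : ∀ k, dt k (a k) = 0
  size : ∑ k ∈ F, nw (a k) ≤ A

/-- What we know about the truncated solutions. -/
structure GSol (c : ℝ) (κ : ℕ → ℝ) (F : Finset K) (A : ℝ) (a : K → C3) (u : Fam) : Prop where
  gal : Gal c κ F (T0 c A) u
  init : ∀ k, u k 0 = a k
  bound : ∀ t ∈ Icc 0 (T0 c A), YY F u t ≤ 2 * A
  sym : ∀ t ∈ Icc 0 (T0 c A), Sym (at' u t)
  div : ∀ k, ∀ t ∈ Icc 0 (T0 c A), dt k (u k t) = 0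

theorem dt_add (k : K) (v w : C3) : dt k (v + w) = dt k v + dt k w := by
  unfold dt
  rw [← Finset.sum_add_distrib]
  exact Finset.sum_congr rfl fun j _ => by rw [Pi.add_apply]; ring

theorem dt_smul (k : K) (r : ℝ) (v : C3) : dt k (r • v) = r * dt k v := by
  unfold dt
  rw [Finset.mul_sum]
  exact Finset.sum_congr rfl fun j _ => by rw [Pi.smul_apply, Complex.real_smul]; ring

theorem dt_om_J (κ : ℕ → ℝ) (x : K → C3) (k : K) (v : C3) : dt k (om' κ x k • J v) = 0 := by
  by_cases h : ∃ n, k = fk n ∨ k = -fk n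
  · obtain ⟨n, hn⟩ := h
    rw [dt_smul]
    have : dt k (J v) = 0 := by
      rcases hn with hn | hn
      · rw [hn]; simp [dt, J, fk, Fin.sum_univ_three]
      · rw [hn]; simp [dt, J, fk, Fin.sum_univ_three]
    rw [this, mul_zero]
  · rw [om_not κ x h, zero_smul]; simp [dt]

/-- The divergence free condition is preserved. -/
theorem Gal.divfree {c T : ℝ} {κ : ℕ → ℝ} {u : Fam} (h : Gal c κ F T u)
    (h0 : ∀ k, dt k (u k 0) = 0) (k : K) {t : ℝ} (ht : t ∈ Icc 0 T) : dt k (u k t) = 0 := by
  by_cases hk : k ∈ F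
  · have hlin : Continuous (dt k) := by unfold dt; fun_prop
    have hd : ∀ t ∈ Ioo 0 T, HasDerivAt (fun s => dt k (u k s))
        ((-((c * nk k ^ 2 : ℝ) : ℂ) + Complex.I * (0 : ℝ) * (0 : ℝ)) * dt k (u k t) + 0) t := by
      intro t ht
      have h1 := hasDerivAt_pi.1 (h.ode k hk t ht)
      have h2 : HasDerivAt (fun s => dt k (u k s)) (dt k (-(c * nk k ^ 2) • u k t
          + Bf (at' u t) (at' u t) k + om' κ (at' u t) k • J (u k t))) t := by
        unfold dt
        exact HasDerivAt.fun_sum fun j _ => (h1 j).const_mul _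
      refine h2.congr_deriv ?_
      have h3 : dt k (Bf (at' u t) (at' u t) k) = 0 := Bf_div _ _ k
      rw [dt_add, dt_add, dt_om_J, h3, dt_smul]
      push_cast
      ring
    have h4 := duh1 (w := fun s => dt k (u k s)) (σ := 0) (Ψ := fun _ => 0) (ω := fun _ => 0) (b := fun _ => 0) (β := fun _ => 0)
      (hlin.comp_continuousOn (h.cont k)) (fun t ht => hd t ht) continuousOn_const
      (fun t _ => hasDerivAt_const _ _) continuousOn_const continuousOn_const (fun t _ => by simp) ht
    simp only [h0 k, mul_zero, sub_zero, gD, intervalIntegral.integral_zero] at h4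
    exact norm_le_zero_iff.1 h4
  · rw [h.supp k hk t]; simp [dt]

theorem gal_exists {c : ℝ} (hc : 0 < c) (κ : ℕ → ℝ) (hF : ∀ k ∈ F, -k ∈ F) {A : ℝ} (hA : 0 < A) :
    ∃ Φ : (K → C3) → Fam, (∀ a, Dat F A a → GSol c κ F A a (Φ a)) ∧
      ∀ a : ℝ → K → C3, (∀ θ, Dat F A (a θ)) → (∀ k, Continuous fun θ => a θ k) →
        ∀ k, ∀ t ∈ Icc 0 (T0 c A), Continuous fun θ => Φ (a θ) k t := by
  classical
  set T := T0 c A with hTdef
  have hT : 0 < T := T0_pos hc hA
  let f : ContDiffBump (0 : XF F) := ⟨2 * A, 2 * A + 1, by linarith, by linarith⟩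
  set W : XF F → XF F := fun x => f x • VF c κ x with hW
  have hWc : ContDiff ℝ 1 W := f.contDiff.smul (VF_contDiff hF c κ)
  have hWs : HasCompactSupport W := f.hasCompactSupport.smul_right
  obtain ⟨C, hC⟩ := hWc.lipschitzWith_of_hasCompactSupport hWs (by norm_num)
  obtain ⟨M, hM⟩ := hWs.exists_bound_of_continuous hWc.continuous
  obtain ⟨α, hα, L', hL'⟩ := flow hC hM hT.le A.toNNReal
  refine ⟨fun a k t => Ez F (α (fun k => a k.1) t) k, fun a ha => ?_, fun a ha hac k t ht => ?_⟩
  · -- a solution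
    set x0 : XF F := fun k => a k.1 with hx0
    have hx0m : x0 ∈ Metric.closedBall (0 : XF F) A.toNNReal := by
      rw [mem_closedBall_zero_iff, Real.coe_toNNReal _ hA.le, pi_norm_le_iff_of_nonneg hA.le]
      intro k
      refine (norm_le_nw _).trans (le_trans ?_ ha.size)
      exact Finset.single_le_sum (f := fun k => nw (a k)) (fun _ _ => nw_nonneg _) k.2
    obtain ⟨hα0, hαd⟩ := hα x0 hx0m
    set u : Fam := fun k t => Ez F (α x0 t) k with hu
    have hαc : ContinuousOn (α x0) (Icc 0 T) := fun t ht => (hαd t ht).continuousWithinAt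
    have husupp : ∀ k, k ∉ F → ∀ t, u k t = 0 := fun k hk t => Ez_not _ hk
    have huc : ∀ k, ContinuousOn (u k) (Icc 0 T) := fun k =>
      (Ez_contDiff k).continuous.comp_continuousOn hαc
    have hinit : ∀ k, u k 0 = a k := by
      intro k
      show Ez F (α x0 0) k = a k
      rw [hα0]
      by_cases hk : k ∈ F
      · rw [Ez_mem _ hk]
      · rw [Ez_not _ hk, ha.supp k hk]
    have hnorm : ∀ t, ‖α x0 t‖ ≤ YY F u t := by
      intro t
      rw [pi_norm_le_iff_of_nonneg (YY_nonneg F u t)]
      intro k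
      have h1 : α x0 t k = u k.1 t := (Ez_mem _ k.2).symm
      rw [h1]
      exact (norm_le_nw _).trans
        (Finset.single_le_sum (f := fun k => nw (u k t)) (fun _ _ => nw_nonneg _) k.2)
    -- as long as the solution is small, it solves the system
    have key : ∀ t ∈ Icc 0 T, (∀ s ∈ Icc 0 t, YY F u s ≤ 2 * A) →
        (∀ s ∈ Icc 0 t, Sym (at' u s)) ∧ Gal c κ F t u := by
      intro t ht hY
      have hd : ∀ k, ∀ hk : k ∈ F, ∀ s ∈ Ioo 0 t, HasDerivAt (u k)
          (-(c * nk k ^ 2) • u k s + Bf (Sz F (α x0 s)) (Sz F (α x0 s)) k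
            + om' κ (Sz F (α x0 s)) k • J (u k s)) s := by
        intro k hk s hs
        have hsT : s ∈ Ioo 0 T := ⟨hs.1, hs.2.trans_le ht.2⟩
        have h1 := (hαd s ⟨hsT.1.le, hsT.2.le⟩).hasDerivAt (Icc_mem_nhds hsT.1 hsT.2)
        have h2 := hasDerivAt_pi.1 h1 ⟨k, hk⟩
        have h3 : f (α x0 s) = 1 := by
          refine f.one_of_mem_closedBall ?_
          rw [mem_closedBall_zero_iff]
          exact (hnorm s).trans (hY s ⟨hs.1.le, hs.2.le⟩)
        have h4 : (fun s => α x0 s ⟨k, hk⟩) = u k := funext fun s => (Ez_mem _ hk).symm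
        rw [h4] at h2
        refine h2.congr_deriv ?_
        show (f (α x0 s) • VF c κ (α x0 s)) ⟨k, hk⟩ = _
        rw [h3, one_smul]
        unfold VF
        have h5 : α x0 s ⟨k, hk⟩ = u k s := (Ez_mem _ hk).symm
        rw [h5]
      have hsub : Icc 0 t ⊆ Icc 0 T := Icc_subset_Icc le_rfl ht.2
      have hSzc : ∀ k, ContinuousOn (fun s => Sz F (α x0 s) k) (Icc 0 t) := fun k =>
        (Sz_contDiff k).continuous.comp_continuousOn (hαc.mono hsub)
      have hsym : ∀ s ∈ Icc 0 t, ∀ k, u (-k) s = cj (u k s) := by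
        intro s hs k
        by_cases hk : k ∈ F
        · have hk' := hF k hk
          have hm : Mode (c * nk k ^ 2) 0 t (fun s => u (-k) s - cj (u k s)) (fun _ => 0)
              (fun s => om' κ (Sz F (α x0 s)) k) := by
            refine ⟨?_, continuousOn_const, ?_, fun r hr => ?_⟩
            · exact ((huc (-k)).mono hsub).sub
                (cj_contDiff.continuous.comp_continuousOn ((huc k).mono hsub))
            · exact om_cont (u := fun k s => Sz F (α x0 s) k) hSzc κ k
            · have h1 := hd (-k) hk' r hr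
              have h2 := hd k hk r hr
              have h3 : HasDerivAt (fun s => cj (u k s)) (cj (-(c * nk k ^ 2) • u k r
                  + Bf (Sz F (α x0 r)) (Sz F (α x0 r)) k
                  + om' κ (Sz F (α x0 r)) k • J (u k r))) r := by
                rw [hasDerivAt_pi]
                intro i
                exact ((hasDerivAt_pi.1 h2) i).star
              have h4 := h1.fun_sub h3
              refine h4.congr_deriv ?_
              have hB := Bf_sym (Sz_sym (α x0 r)) (Sz_sym (α x0 r))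
              rw [Sym_iff] at hB
              rw [cj_add, cj_add, cj_smul, cj_smul, cj_J, nk_neg, om_neg', hB k, J_sub, smul_sub,
                smul_sub, add_zero]
              abel
          have h5 := hm.balance (by positivity) hs
          have h6 : u (-k) 0 - cj (u k 0) = 0 := by
            rw [hinit, hinit, (Sym_iff.1 ha.sym) k, sub_self]
          rw [h6, nw_zero] at h5
          simp only [intervalIntegral.integral_zero, add_zero] at h5
          have h7 : 0 ≤ ∫ s in (0 : ℝ)..s, nw (u (-k) s - cj (u k s)) :=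
            intervalIntegral.integral_nonneg hs.1 fun _ _ => nw_nonneg _
          have h8 : 0 ≤ c * nk k ^ 2 * ∫ s in (0 : ℝ)..s, nw (u (-k) s - cj (u k s)) :=
            mul_nonneg (by positivity) h7
          have h9 := norm_le_nw (u (-k) s - cj (u k s))
          have h10 : ‖u (-k) s - cj (u k s)‖ ≤ 0 := by linarith
          exact sub_eq_zero.1 (norm_le_zero_iff.1 h10)
        · have hk' : -k ∉ F := fun h' => hk (by simpa using hF _ h')
          rw [husupp k hk, husupp _ hk', cj_zero]
      have hSE : ∀ s ∈ Icc 0 t, Sz F (α x0 s) = at' u s := by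
        intro s hs
        funext k
        show (1 / 2 : ℝ) • (u k s + cj (u (-k) s)) = u k s
        rw [hsym s hs k, cj_cj, ← two_smul ℝ, smul_smul]
        norm_num
      refine ⟨fun s hs => Sym_iff.2 (hsym s hs), husupp, fun k => (huc k).mono hsub, fun k hk s hs => ?_⟩
      have := hd k hk s hs
      rwa [hSE s ⟨hs.1.le, hs.2.le⟩] at this
    have hY0 : YY F u 0 ≤ A := by
      unfold YY
      simp only [hinit]
      exact ha.size
    have hbound := exit (f := YY F u) (B := 2 * A) hT.le (YY_cont huc) (by linarith)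
      (fun t ht hY => by
        have h1 := (key t ht hY).2.apri hc hA hY0 ⟨ht.1, le_rfl⟩ ht.2 hY
        have h2 : 0 ≤ ∫ s in (0 : ℝ)..t, DD F u s :=
          intervalIntegral.integral_nonneg ht.1 fun s _ => DD_nonneg F u s
        have h3 : 0 ≤ c / 2 * ∫ s in (0 : ℝ)..t, DD F u s := by positivity
        linarith)
    obtain ⟨hsym, hgal⟩ := key T ⟨hT.le, le_rfl⟩ hbound
    exact ⟨hgal, hinit, hbound, hsym, fun k t ht =>
      hgal.divfree (fun k => by rw [hinit]; exact ha.div k) k ht⟩
  · -- continuity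
    have hm : ∀ θ, (fun k : {k // k ∈ F} => a θ k.1) ∈ Metric.closedBall (0 : XF F) A.toNNReal := by
      intro θ
      rw [mem_closedBall_zero_iff, Real.coe_toNNReal _ hA.le, pi_norm_le_iff_of_nonneg hA.le]
      intro k
      refine (norm_le_nw _).trans (le_trans ?_ (ha θ).size)
      exact Finset.single_le_sum (f := fun k => nw (a θ k)) (fun _ _ => nw_nonneg _) k.2
    have h1 : Continuous fun θ => (fun k : {k // k ∈ F} => a θ k.1 : XF F) :=
      continuous_pi fun k => hac k.1
    have h2 : Continuous fun θ => α (fun k : {k // k ∈ F} => a θ k.1) t :=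
      (hL' t ht).continuousOn.comp_continuous h1 hm
    exact (Ez_contDiff k).continuous.comp h2

end Pool.Agent.N980.NU
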