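import Pool.Agent.N980.NU.Stmt
import Pool.Agent.N980.NU.Tim
import Pool.Agent.H356R3.NS.Four2
import Pool.Agent.H459R3.NS.Ibp

/-!
The bilinear operator in physical space and on the Fourier side.
-/

open MeasureTheory Set Filter Topology
open scoped ContDiff

set_option linter.unusedVariables false

namespace Pool.Agent.N980.NU

open Pool.Agent.H356R3.NS (K C3 E3 R3 ex SN Sym RD TT SF SFam Fam cf' at' nk pw fj dS Bf)

/-- The coefficients of the operator. -/
noncomputable def kap (lam : ℕ → ℝ) (n : ℕ) : ℝ := lam n * (2 * Real.pi * 20 ^ n) ^ 2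

/-! ### elementary facts -/

theorem fco_eq_ex (v : V → V) (k : K) (i : Fin 3) : fco v k i = ∫ x in cube, (v x i : ℂ) * ex (-k) x := by
  unfold fco
  simp only [H356R3.NS.ex_neg_eq]

theorem fco_sym (v : V → V) : Sym (fco v) := H356R3.NS.fc_sym v

theorem ex_fk (n : ℕ) (x : V) : ex (fk n) x = Complex.exp (((2 * Real.pi * (20 ^ n * x 0) : ℝ) : ℂ) * Complex.I) := by
  unfold ex
  congr 1
  rw [Fin.sum_univ_three]
  simp only [fk, Matrix.cons_val_zero, Matrix.cons_val_one, Matrix.cons_val]
  push_cast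
  ring

theorem ex_neg_fk (n : ℕ) (x : V) : ex (-fk n) x = Complex.exp (((-(2 * Real.pi * (20 ^ n * x 0)) : ℝ) : ℂ) * Complex.I) := by
  unfold ex
  congr 1
  rw [Fin.sum_univ_three]
  simp only [fk, Matrix.cons_val_zero, Matrix.cons_val_one, Matrix.cons_val, Pi.neg_apply]
  push_cast
  ring

theorem int_on_cube {E : Type*} [NormedAddCommGroup E] {f : V → E} (hf : Continuous f) :
    Integrable f (volume.restrict cube) := hf.continuousOn.integrableOn_compact isCompact_Icc

theorem theta_eq {v : V → V} (hv : Continuous v) (n : ℕ) : theta (20 ^ n) v = th n (fco v) := by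
  unfold theta th
  rw [fco_eq_ex]
  congr 1
  have hi : Integrable (fun x => ((v x 2 : ℝ) : ℂ) * ex (-fk n) x) (volume.restrict cube) :=
    int_on_cube ((Complex.continuous_ofReal.comp ((continuous_apply 2).comp hv)).mul (H356R3.NS.ex_cont _))
  have h1 := integral_re hi
  have h2 : (∫ x in cube, ((v x 2 : ℝ) : ℂ) * ex (-fk n) x).re
      = ∫ x in cube, (((v x 2 : ℝ) : ℂ) * ex (-fk n) x).re := h1.symm
  rw [h2]
  congr 1
  funext x
  rw [Complex.re_ofReal_mul, ex_neg_fk, Complex.exp_ofReal_mul_I_re, Real.cos_neg]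
  push_cast
  rfl

theorem proj_eq {v : V → V} (hv : Continuous v) (n : ℕ) (x : V) (i : Fin 3) :
    proj (20 ^ n) v x i = 2 * (fco v (fk n) i * ex (fk n) x).re := by
  unfold proj
  rw [fco_eq_ex]
  congr 1
  have hi : Integrable (fun y => ((v y i : ℝ) : ℂ) * ex (-fk n) y) (volume.restrict cube) :=
    int_on_cube ((Complex.continuous_ofReal.comp ((continuous_apply i).comp hv)).mul (H356R3.NS.ex_cont _))
  rw [← integral_mul_const]
  have h1 := integral_re (hi.mul_const (ex (fk n) x))
  have h2 : (∫ y in cube, ((v y i : ℝ) : ℂ) * ex (-fk n) y * ex (fk n) x).re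
      = ∫ y in cube, (((v y i : ℝ) : ℂ) * ex (-fk n) y * ex (fk n) x).re := h1.symm
  rw [h2]
  congr 1
  funext y
  rw [mul_assoc ((v y i : ℝ) : ℂ), Complex.re_ofReal_mul, ex_neg_fk, ex_fk, ← Complex.exp_add, ← add_mul, ← Complex.ofReal_add,
    Complex.exp_ofReal_mul_I_re]
  congr 2
  push_cast
  ring

/-- Sums over the levels. -/
theorem hasSum_lev {g : K → ℂ} (hg : Summable g) (h0 : ∀ k, (¬∃ n, k = fk n ∨ k = -fk n) → g k = 0) :
    HasSum (fun n => g (fk n) + g (-fk n)) (∑' k, g k) := by
  classical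
  have i1 : Function.Injective fk := fun n m h => fk_inj h
  have i2 : Function.Injective fun n => -fk n := fun n m h => fk_inj (neg_injective h)
  have s1 : Summable fun n => g (fk n) := hg.comp_injective i1
  have s2 : Summable fun n => g (-fk n) := hg.comp_injective i2
  set g1 : K → ℂ := fun k => if ∃ n, fk n = k then g k else 0 with hg1
  set g2 : K → ℂ := fun k => if ∃ n, -fk n = k then g k else 0 with hg2
  have h1 : HasSum g1 (∑' n, g (fk n)) := by
    refine (i1.hasSum_iff (f := g1) ?_).1 ?_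
    · intro k hk
      exact if_neg hk
    · have : g1 ∘ fk = fun n => g (fk n) := funext fun n => if_pos ⟨n, rfl⟩
      rw [this]; exact s1.hasSum
  have h2 : HasSum g2 (∑' n, g (-fk n)) := by
    refine (i2.hasSum_iff (f := g2) ?_).1 ?_
    · intro k hk
      exact if_neg hk
    · have : (g2 ∘ fun n => -fk n) = fun n => g (-fk n) := funext fun n => if_pos ⟨n, rfl⟩
      rw [this]; exact s2.hasSum
  have h3 : g = fun k => g1 k + g2 k := by
    funext k
    by_cases hk : ∃ n, k = fk n ∨ k = -fk n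
    · obtain ⟨n, hn | hn⟩ := hk
      · have e1 : g1 k = g k := if_pos ⟨n, hn.symm⟩
        have e2 : g2 k = 0 := if_neg (by
          rintro ⟨m, hm⟩
          exact fk_ne_neg n m (hn.symm.trans hm.symm))
        rw [e1, e2, add_zero]
      · have e1 : g1 k = 0 := if_neg (by
          rintro ⟨m, hm⟩
          exact fk_ne_neg m n (hm.trans hn))
        have e2 : g2 k = g k := if_pos ⟨n, hn.symm⟩
        rw [e1, e2, zero_add]
    · have e1 : g1 k = 0 := if_neg (by rintro ⟨m, hm⟩; exact hk ⟨m, Or.inl hm.symm⟩)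
      have e2 : g2 k = 0 := if_neg (by rintro ⟨m, hm⟩; exact hk ⟨m, Or.inr hm.symm⟩)
      rw [e1, e2, h0 k hk, add_zero]
  have h4 : HasSum g (∑' n, g (fk n) + ∑' n, g (-fk n)) := by
    have := h1.add h2
    rwa [← h3] at this
  rw [h4.tsum_eq]
  exact s1.hasSum.add s2.hasSum

theorem rot_proj {v : V → V} (hv : Continuous v) (n : ℕ) (x : V) (i : Fin 3) :
    rot (proj (20 ^ n) v x) i = 2 * (J (fco v (fk n)) i * ex (fk n) x).re := by
  fin_cases i
  · simp [rot, J]
  · show -proj (20 ^ n) v x 2 = 2 * (-(fco v (fk n) 2) * ex (fk n) x).re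
    rw [proj_eq hv, neg_mul, Complex.neg_re]; ring
  · show proj (20 ^ n) v x 1 = 2 * (fco v (fk n) 1 * ex (fk n) x).re
    rw [proj_eq hv]

/-- The operator as a Fourier series. -/
theorem Kop_eq {lam : ℕ → ℝ} {u v : V → V} (hu : Continuous u) (hv : Continuous v)
    (hs : Summable fun k => ‖om' (kap lam) (fco u) k • J (fco v k)‖) (x : V) (i : Fin 3) :
    Kop lam u v x i = (∑' k, (om' (kap lam) (fco u) k • J (fco v k)) i * ex k x).re := by
  have key : ∀ i, HasSum (fun n => (((lam n * (2 * Real.pi * 20 ^ n) ^ 2 * theta (20 ^ (n + 1)) u) •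
      rot (proj (20 ^ n) v x)) i)) (∑' k, (om' (kap lam) (fco u) k • J (fco v k)) i * ex k x).re := by
    intro i
    have hg : Summable fun k => (om' (kap lam) (fco u) k • J (fco v k)) i * ex k x := by
      refine Summable.of_norm_bounded hs fun k => ?_
      rw [norm_mul, H356R3.NS.norm_ex, mul_one]
      exact norm_le_pi_norm _ i
    have h1 := hasSum_lev hg fun k hk => by rw [om_not _ _ hk, zero_smul]; simp
    have h2 := Complex.hasSum_re h1
    refine h2.congr_fun ?_
    intro n
    have hsym : (om' (kap lam) (fco u) (-fk n) • J (fco v (-fk n))) i * ex (-fk n) x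
        = star ((om' (kap lam) (fco u) (fk n) • J (fco v (fk n))) i * ex (fk n) x) := by
      rw [om_neg', (Sym_iff.1 (fco_sym v)) (fk n), H356R3.NS.ex_neg, star_mul', ← cj_J]
      congr 1
      simp only [Pi.smul_apply, cj, Complex.real_smul, star_mul', Complex.star_def, Complex.conj_ofReal]
    rw [hsym, Complex.star_def, Complex.add_re, Complex.conj_re, om_fk, Pi.smul_apply, Pi.smul_apply,
      rot_proj hv, theta_eq hu, smul_eq_mul, Complex.real_smul,
      mul_assoc ((kap lam n * th (n + 1) (fco u) : ℝ) : ℂ), Complex.re_ofReal_mul]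
    unfold kap
    ring
  unfold Kop
  have hall : HasSum (fun n => ((lam n * (2 * Real.pi * 20 ^ n) ^ 2 * theta (20 ^ (n + 1)) u) •
      rot (proj (20 ^ n) v x))) (fun i => (∑' k, (om' (kap lam) (fco u) k • J (fco v k)) i * ex k x).re) :=
    Pi.hasSum.2 key
  rw [hall.tsum_eq]

end Pool.Agent.N980.NU
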