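import Pool.Agent.N980.NU.Non
import Pool.Agent.H459R3.NS.Main

/-!
Non-uniqueness for the Navier-Stokes equations with an additional rotation term.
-/

open MeasureTheory Set Filter Topology
open scoped ContDiff

set_option linter.unusedVariables false

namespace Pool.Agent.N980.NU

open Pool.Agent.H356R3.NS (K C3 E3 R3 ex SN Sym RD TT SF SFam Fam cf' at' nk pw fj dS Bf dt cvv PF dU Ph Dm')

theorem NSol.isSol {ν T : ℝ} {lam : ℕ → ℝ} {a : K → C3} {u : Fam} (h : NSol ν lam T a u) (hν : 0 < ν)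
    (hl : PG (kap lam)) : IsSol ν lam T (UU u) (PP u) where
  cont := h.cont_on.mono (prod_mono Ico_subset_Icc_self (subset_refl _))
  smooth_u := (h.smooth_on hν hl).1
  smooth_p := (h.smooth_on hν hl).2
  per_u := fun t _ x j => by
    funext i
    unfold UU
    rw [fs_per]
  per_p := fun t _ x j => by
    unfold PP
    rw [fs_per]
  divfree := fun t ht x => h.dv_zero hν ht x
  momentum := fun t ht x i => h.momentum hν hl ht x i
  energy_eq := fun t ht => h.energy_eq hν hl ht

theorem dt_fco {v : V → V} (hv : SPV v) (hd : ∀ x, dv v x = 0) (k : K) : dt k (fco v k) = 0 := by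
  have h1 := H459R3.NS.fr_div (v := fun i y => v y i) hv.sp hd k
  unfold H356R3.NS.dt
  rw [← h1]
  exact Finset.sum_congr rfl fun i _ => by rw [fco_fr]

theorem nw_fco_sum {v : V → V} (hv : SPV v) : Summable fun k => nw (fco v k) := by
  have h1 : SN (fco v) := SN_of_comp fun i => RD_summ (hv.rd i)
  refine (h1.mul_left 5).of_nonneg_of_le (fun _ => nw_nonneg _) fun k => nw_le_norm _

/-- The amplitudes. -/
noncomputable def rho (ν : ℝ) (lam : ℕ → ℝ) : ℕ → ℝ
  | 0 => 1
  | n + 1 => 320 * ν / lam n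

theorem rho_pos {ν : ℝ} (hν : 0 < ν) {lam : ℕ → ℝ} (hp : ∀ n, 0 < lam n) (n : ℕ) : 0 < rho ν lam n := by
  cases n with
  | zero => exact one_pos
  | succ n => exact div_pos (by positivity) (hp n)

theorem rho_summ {ν : ℝ} {lam : ℕ → ℝ} (hs : Summable fun n => 1 / lam n) : Summable (rho ν lam) := by
  rw [← summable_nat_add_iff 1]
  refine (hs.mul_left (320 * ν)).congr fun n => ?_
  show 320 * ν * (1 / lam n) = 320 * ν / lam n
  rw [mul_one_div]

theorem PG_kap {lam : ℕ → ℝ} (hp : ∀ n, 0 < lam n) (hg : Tendsto (fun n => lam n / 20 ^ n) atTop (𝓝 0)) :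
    PG (kap lam) := by
  obtain ⟨C, hC⟩ := hg.bddAbove_range
  refine ⟨C * (2 * Real.pi) ^ 2, 3, fun n => ?_⟩
  have h1 : lam n / 20 ^ n ≤ C := hC (mem_range_self n)
  have h2 : (0 : ℝ) < 20 ^ n := by positivity
  rw [div_le_iff₀ h2] at h1
  have h3 := hp n
  unfold kap
  rw [abs_of_nonneg (by positivity)]
  calc lam n * (2 * Real.pi * 20 ^ n) ^ 2 ≤ (C * 20 ^ n) * (2 * Real.pi * 20 ^ n) ^ 2 := by gcongr
    _ = C * (2 * Real.pi) ^ 2 * (20 ^ n) ^ 3 := by ring

theorem chain_of {ν A : ℝ} (hν : 0 < ν) (hA : 0 < A) {lam : ℕ → ℝ} (hp : ∀ n, 0 < lam n) {n0 : ℕ}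
    (hn0 : 1 ≤ n0) (h1 : ∀ n, n0 ≤ n + 1 → M1 (4 * Real.pi ^ 2 * ν) A * (lam n / 20 ^ n) ≤ 1920 * ν)
    (h2 : tau (4 * Real.pi ^ 2 * ν) n0 < T0 (4 * Real.pi ^ 2 * ν) A) :
    Chain (4 * Real.pi ^ 2 * ν) A (kap lam) (rho ν lam) n0 where
  hc := by positivity
  hA := hA
  kpos := fun n => by
    have := hp n
    unfold kap; positivity
  rel := fun n => by
    have := (hp n).ne'
    show 2 * (lam n * (2 * Real.pi * 20 ^ n) ^ 2) * (320 * ν / lam n) = _
    field_simp
    ring
  err := fun n hn => by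
    have h3 := h1 n (by omega)
    have hpi := Real.pi_pos
    have e : kap lam n / (4 * Real.pi ^ 2 * ν * (20 ^ (n + 1)) ^ 2) * (M1 (4 * Real.pi ^ 2 * ν) A / 20 ^ (n + 1))
        = M1 (4 * Real.pi ^ 2 * ν) A * (lam n / 20 ^ n) / (8000 * ν) := by
      unfold kap
      field_simp
      ring
    rw [e, div_le_iff₀ (by positivity)]
    linarith
  err0 := by
    obtain ⟨m, rfl⟩ : ∃ m, n0 = m + 1 := ⟨n0 - 1, by omega⟩
    have h3 := h1 m le_rfl
    have h4 := hp m
    show _ ≤ 3 / 10 * (320 * ν / lam m)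
    have e : 3 / 10 * (320 * ν / lam m) = 96 * ν / lam m := by ring
    have h5 : (0 : ℝ) < 20 ^ m := by positivity
    have h6 : M1 (4 * Real.pi ^ 2 * ν) A * lam m ≤ 1920 * ν * 20 ^ m := by
      rw [← mul_div_assoc, div_le_iff₀ h5] at h3
      exact h3
    rw [e, div_le_div_iff₀ (by positivity) h4, pow_succ (20 : ℝ) m]
    linarith
  tT := h2

/-- Many solutions for data near every field. -/
theorem nonuniq {ν : ℝ} (hν : 0 < ν) {lam : ℕ → ℝ} (hp : ∀ n, 0 < lam n)
    (hs : Summable fun n => 1 / lam n) (hg : Tendsto (fun n => lam n / 20 ^ n) atTop (𝓝 0))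
    {v : V → V} (hv : SPV v) (hd : ∀ x, dv v x = 0) {η : ℝ} (hη : 0 < η) :
    ∃ w : V → V, (∀ x i, |w x i - v x i| ≤ η) ∧ ∃ T > 0, ∃ N : ℕ, ∃ t₀ ∈ Ioo 0 T, ∃ b > 0,
      ∀ y ∈ Icc (-b) b, ∃ u p, IsSol ν lam T u p ∧
        (∃ B : (Fin 3 → ℤ) → ℝ, Summable B ∧ ∀ t ∈ Ico 0 T, ∀ k i, ‖fco (u t) k i‖ ≤ B k) ∧
        u 0 = w ∧ theta N (u t₀) = y := by
  set c := 4 * Real.pi ^ 2 * ν with hcd
  have hc : 0 < c := by positivity
  have hl := PG_kap hp hg
  set b := fco v with hb
  have hbs : Summable fun k => nw (b k) := nw_fco_sum hv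
  set A := (∑' k, nw (b k)) + 1 with hAd
  have hA : 0 < A := by
    have : 0 ≤ ∑' k, nw (b k) := tsum_nonneg fun k => nw_nonneg _
    linarith
  set ρ := rho ν lam with hρd
  have hρp := rho_pos hν hp
  have hρs : Summable ρ := rho_summ hs
  have g1 : Summable fun n => nw (b (fk n)) := hbs.comp_injective fun n m h => fk_inj h
  have g2 : Summable fun n => nw (b (-fk n)) :=
    hbs.comp_injective (i := fun n => -fk n) fun n m h => fk_inj (neg_injective h)
  set G : ℕ → ℝ := fun n => 2 * ρ n + (nw (b (fk n)) + nw (b (-fk n))) with hG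
  have hGs : Summable G := (hρs.mul_left 2).add (g1.add g2)
  -- the choice of the first level
  have l1 : ∀ᶠ n in atTop, 2 * ∑' k, G (k + n) < min 1 η := by
    have h1 := (tendsto_sum_nat_add G).const_mul 2
    rw [mul_zero] at h1
    exact h1.eventually_lt_const (by positivity)
  have l2 : ∀ᶠ n in atTop, M1 c A * (lam n / 20 ^ n) < 1920 * ν := by
    have h1 := hg.const_mul (M1 c A)
    rw [mul_zero] at h1
    exact h1.eventually_lt_const (by positivity)
  have l3 : ∀ᶠ n in atTop, tau c n < T0 c A := by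
    have h1 : Tendsto (fun n : ℕ => tau c n) atTop (𝓝 0) := by
      have h2 : Tendsto (fun n : ℕ => ((1 / 400 : ℝ)) ^ n) atTop (𝓝 0) :=
        tendsto_pow_atTop_nhds_zero_of_lt_one (by norm_num) (by norm_num)
      have h3 := h2.const_mul (1 / (50 * c))
      rw [mul_zero] at h3
      refine h3.congr fun n => ?_
      unfold tau
      have e : ((20 : ℝ) ^ n) ^ 2 = 400 ^ n := by rw [← pow_mul, mul_comm n 2, pow_mul]; norm_num
      rw [e, one_div_pow]
      have h4 : (400 : ℝ) ^ n ≠ 0 := by positivity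
      have hc' := hc.ne'
      field_simp
    exact h1.eventually_lt_const (T0_pos hc hA)
  obtain ⟨n2, hn2⟩ := eventually_atTop.1 l2
  obtain ⟨n0, ⟨hn1, hn3⟩, hn4⟩ := ((l1.and l3).and (eventually_ge_atTop (n2 + 1))).exists
  have hch : Chain c A (kap lam) ρ n0 :=
    chain_of hν hA hp (by omega) (fun n hn => (hn2 n (by omega)).le) hn3
  have hGt : 2 * ∑' n, 2 * ρ (n + n0) ≤ 2 * ∑' k, G (k + n0) := by
    refine mul_le_mul_of_nonneg_left ?_ (by norm_num)
    refine Summable.tsum_le_tsum (fun n => ?_) ?_ ?_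
    · simp only [hG]
      linarith [nw_nonneg (b (fk (n + n0))), nw_nonneg (b (-fk (n + n0)))]
    · exact (summable_nat_add_iff (f := fun n => 2 * ρ n) n0).2 (hρs.mul_left 2)
    · exact (summable_nat_add_iff n0).2 hGs
  have hAb : (∑' k, nw (b k)) + 2 * ∑' n, 2 * ρ (n + n0) ≤ A := by
    have := min_le_left 1 η
    rw [hAd]; linarith
  have hbsym : Sym b := fco_sym v
  have hbdiv : ∀ k, dt k (b k) = 0 := dt_fco hv hd
  set D := dat n0 ρ (fun _ => 0) b with hD
  refine ⟨fun x i => (fs (fun k => D k i) x).re, ?_, T0 c A, T0_pos hc hA, 20 ^ n0, tau c n0,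
    ⟨tau_pos hc n0, hn3⟩, ρ n0, hρp n0, ?_⟩
  · intro x i
    have hDs : Summable fun k => ‖D k i * ex k x‖ := by
      refine (dbd_sum (n0 := n0) hρs hbs).summable.of_nonneg_of_le (fun _ => norm_nonneg _) fun k => ?_
      rw [norm_mul, H356R3.NS.norm_ex, mul_one]
      exact (norm_le_pi_norm _ i).trans ((norm_le_nw _).trans (dat_le (fun n => (hρp n).le) k))
    have hbs' : Summable fun k => ‖b k i * ex k x‖ := by
      refine hbs.of_nonneg_of_le (fun _ => norm_nonneg _) fun k => ?_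
      rw [norm_mul, H356R3.NS.norm_ex, mul_one]
      exact (norm_le_pi_norm _ i).trans (norm_le_nw _)
    have e1 : v x i = (fs (fun k => b k i) x).re := by
      rw [← hv.inv x i, Complex.ofReal_re]
    have e2 : fs (fun k => D k i) x - fs (fun k => b k i) x = ∑' k, (D k i - b k i) * ex k x := by
      unfold fs
      rw [← hDs.of_norm.tsum_sub hbs'.of_norm]
      exact tsum_congr fun k => by ring
    have hle : ∀ k, ‖(D k i - b k i) * ex k x‖ ≤ ofl n0 G (fun _ => 0) k := by
      intro k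
      rw [norm_mul, H356R3.NS.norm_ex, mul_one]
      by_cases h : lev n0 k
      · obtain ⟨n, h0, hn⟩ := h
        rw [ofl_lev _ _ h0 hn]
        have h1 : ‖D k i‖ ≤ 2 * ρ n := by
          refine (norm_le_pi_norm _ i).trans ((norm_le_nw _).trans ?_)
          rw [hD]
          unfold dat
          rw [ofl_lev _ _ h0 hn, nw_vl (hρp n).le]
        have h2 : ‖b k i‖ ≤ nw (b (fk n)) + nw (b (-fk n)) := by
          have h3 : ‖b k i‖ ≤ nw (b k) := (norm_le_pi_norm _ i).trans (norm_le_nw _)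
          rcases hn with hn | hn
          · rw [hn] at h3
            rw [hn]
            linarith [nw_nonneg (b (-fk n))]
          · rw [hn] at h3
            rw [hn]
            linarith [nw_nonneg (b (fk n))]
        calc ‖D k i - b k i‖ ≤ ‖D k i‖ + ‖b k i‖ := norm_sub_le _ _
          _ ≤ G n := by simp only [hG]; linarith
      · rw [ofl_not _ _ h]
        have : D k = b k := ofl_not _ _ h
        rw [this, sub_self, norm_zero]
    have hsum := sum_lev hGs n0
    have hsn : Summable fun k => ‖(D k i - b k i) * ex k x‖ :=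
      hsum.summable.of_nonneg_of_le (fun _ => norm_nonneg _) hle
    rw [e1, ← Complex.sub_re, e2]
    calc |(∑' k, (D k i - b k i) * ex k x).re| ≤ ‖∑' k, (D k i - b k i) * ex k x‖ := Complex.abs_re_le_norm _
      _ ≤ ∑' k, ‖(D k i - b k i) * ex k x‖ := norm_tsum_le_tsum_norm hsn
      _ ≤ ∑' k, ofl n0 G (fun _ => 0) k := hsn.tsum_le_tsum hle hsum.summable
      _ = 2 * ∑' n, G (n + n0) := hsum.tsum_eq
      _ ≤ η := by
        have := min_le_right 1 η
        linarith
  · intro y hy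
    obtain ⟨u, hu, hy'⟩ := nonuniq_fourier hch (fun n => (hρp n).le) hρs (hρp n0) hbsym hbdiv hbs hAb hy
    have h : NSol ν lam (T0 c A) D u := hu
    refine ⟨UU u, PP u, h.isSol hν hl, ?_, ?_, ?_⟩
    · obtain ⟨B, hB, hBd⟩ := h.dom
      refine ⟨B, hB, fun t ht k i => ?_⟩
      rw [h.fco ⟨ht.1, ht.2.le⟩]
      exact (norm_le_pi_norm _ i).trans ((norm_le_nw _).trans (hBd k t ⟨ht.1, ht.2.le⟩))
    · funext x i
      unfold UU
      have : (fun k => u k 0 i) = fun k => D k i := funext fun k => by rw [h.init]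
      rw [this]
    · have ht : tau c n0 ∈ Icc 0 (T0 c A) := ⟨(tau_pos hc n0).le, hn3.le⟩
      rw [theta_eq (h.spv hν ⟨tau_pos hc n0, hn3⟩).cont, h.fco ht]
      exact hy'

end Pool.Agent.N980.NU
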