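import Pool.Agent.N980.NU.Duha
import Pool.Agent.N980.NU.Conv

/-!
One mode with a rotation term.
-/

open MeasureTheory Set Filter Topology

namespace Pool.Agent.N980.NU

open Pool.Agent.H356R3.NS

/-- `v' = -μ v + b + ω e₁ × v` on `[a, T]`. -/
structure Mode (μ a T : ℝ) (v b : ℝ → C3) (ω : ℝ → ℝ) : Prop where
  cont : ContinuousOn v (Icc a T)
  bcont : ContinuousOn b (Icc a T)
  ocont : ContinuousOn ω (Icc a T)
  ode : ∀ t ∈ Ioo a T, HasDerivAt v (-μ • v t + b t + ω t • J (v t)) t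

variable {μ a T : ℝ} {v b : ℝ → C3} {ω : ℝ → ℝ}

theorem Mode.comp_ode (h : Mode μ a T v b ω) (i : Fin 3) {t : ℝ} (ht : t ∈ Ioo a T) :
    HasDerivAt (fun s => el i (v s))
      ((-(μ : ℂ) + Complex.I * sg i * ω t) * el i (v t) + el i (b t)) t := by
  refine (el_deriv i (h.ode t ht)).congr_deriv ?_
  rw [el_add, el_add, el_smul, el_smul, el_J]
  push_cast
  ring

theorem Mode.comp_cont (h : Mode μ a T v b ω) (i : Fin 3) :
    ContinuousOn (fun s => el i (v s)) (Icc a T) := (el_continuous i).comp_continuousOn h.cont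

theorem Mode.bcomp_cont (h : Mode μ a T v b ω) (i : Fin 3) :
    ContinuousOn (fun s => el i (b s)) (Icc a T) := (el_continuous i).comp_continuousOn h.bcont

theorem Mode.formula (h : Mode μ a T v b ω) (i : Fin 3) {t : ℝ} (ht : t ∈ Icc a T) :
    ‖el i (v t) - Complex.exp (-(μ * (t - a) : ℝ) + Complex.I * sg i * ((∫ s in a..t, ω s) : ℝ))
      * el i (v a)‖ ≤ gD μ a (fun s => ‖el i (b s)‖) t := by
  have haT : a ≤ T := ht.1.trans ht.2
  have := duh1 (σ := sg i) (Ψ := fun t => ∫ s in a..t, ω s) (h.comp_cont i)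
    (fun t ht => h.comp_ode i ht) (prim_cont haT h.ocont) (fun t ht => prim_deriv h.ocont ht)
    (h.bcomp_cont i) (h.bcomp_cont i).norm (fun t _ => le_rfl) ht
  simpa using this

theorem Mode.decay (h : Mode μ a T v b ω) {t : ℝ} (ht : t ∈ Icc a T) :
    nw (v t) ≤ Real.exp (-(μ * (t - a))) * nw (v a) + gD μ a (fun s => nw (b s)) t := by
  have haT : a ≤ T := ht.1.trans ht.2
  have h1 : ∀ i, ‖el i (v t)‖ ≤ Real.exp (-(μ * (t - a))) * ‖el i (v a)‖
      + gD μ a (fun s => ‖el i (b s)‖) t := fun i =>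
    duh2 (σ := sg i) (Ψ := fun t => ∫ s in a..t, ω s) (h.comp_cont i)
      (fun t ht => h.comp_ode i ht) (prim_cont haT h.ocont) (fun t ht => prim_deriv h.ocont ht)
      (h.bcomp_cont i) (h.bcomp_cont i).norm (fun t _ => le_rfl) ht
  have h2 : gD μ a (fun s => nw (b s)) t = ∑ i, gD μ a (fun s => ‖el i (b s)‖) t := by
    unfold gD nw
    rw [← intervalIntegral.integral_finsetSum]
    · simp only [Finset.mul_sum]
    · intro i _
      exact ii_of_cont (T := T) (ContinuousOn.mul (by fun_prop) (h.bcomp_cont i).norm) ht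
  rw [h2]
  calc nw (v t) = ∑ i, ‖el i (v t)‖ := rfl
    _ ≤ ∑ i, (Real.exp (-(μ * (t - a))) * ‖el i (v a)‖ + gD μ a (fun s => ‖el i (b s)‖) t) :=
        Finset.sum_le_sum fun i _ => h1 i
    _ = _ := by rw [Finset.sum_add_distrib, ← Finset.mul_sum]; rfl

theorem Mode.balance (h : Mode μ a T v b ω) (hμ : 0 ≤ μ) {t : ℝ} (ht : t ∈ Icc a T) :
    nw (v t) + μ * ∫ s in a..t, nw (v s) ≤ nw (v a) + ∫ s in a..t, nw (b s) := by
  have haT : a ≤ T := ht.1.trans ht.2
  have h1 : ∀ i, ‖el i (v t)‖ + μ * ∫ s in a..t, ‖el i (v s)‖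
      ≤ ‖el i (v a)‖ + ∫ s in a..t, ‖el i (b s)‖ := fun i =>
    duh3 (σ := sg i) (Ψ := fun t => ∫ s in a..t, ω s) (h.comp_cont i)
      (fun t ht => h.comp_ode i ht) (prim_cont haT h.ocont) (fun t ht => prim_deriv h.ocont ht)
      (h.bcomp_cont i) (h.bcomp_cont i).norm (fun t _ => le_rfl) ht hμ
  have h2 : ∫ s in a..t, nw (v s) = ∑ i, ∫ s in a..t, ‖el i (v s)‖ := by
    unfold nw
    rw [← intervalIntegral.integral_finsetSum]
    intro i _
    exact ii_of_cont (T := T) (h.comp_cont i).norm ht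
  have h3 : ∫ s in a..t, nw (b s) = ∑ i, ∫ s in a..t, ‖el i (b s)‖ := by
    unfold nw
    rw [← intervalIntegral.integral_finsetSum]
    intro i _
    exact ii_of_cont (T := T) (h.bcomp_cont i).norm ht
  rw [h2, h3]
  unfold nw
  rw [Finset.mul_sum, ← Finset.sum_add_distrib, ← Finset.sum_add_distrib]
  exact Finset.sum_le_sum fun i _ => h1 i

theorem Mode.mono (h : Mode μ a T v b ω) {a' T' : ℝ} (h1 : a ≤ a') (h2 : T' ≤ T) :
    Mode μ a' T' v b ω where
  cont := h.cont.mono (Icc_subset_Icc h1 h2)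
  bcont := h.bcont.mono (Icc_subset_Icc h1 h2)
  ocont := h.ocont.mono (Icc_subset_Icc h1 h2)
  ode := fun t ht => h.ode t ⟨lt_of_le_of_lt h1 ht.1, lt_of_lt_of_le ht.2 h2⟩

end Pool.Agent.N980.NU
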