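import Pool.Agent.N980.NU.Dta

/-!
Many solutions with the same data, on the Fourier side.
-/

open MeasureTheory Set Filter Topology
open scoped ContDiff

set_option linter.unusedVariables false

namespace Pool.Agent.N980.NU

open Pool.Agent.H356R3.NS (K C3 E3 R3 ex SN Sym RD TT SF SFam Fam cf' at' nk pw fj dS Bf dt cvv PF dU Ph Dm')

theorem vl_zero (r : ℝ) : vl r 0 = ![0, ((r : ℝ) : ℂ), 0] := by
  unfold vl
  simp

/-- One phase is changed. -/
noncomputable def phs (m : ℕ) (θ : ℝ) (n : ℕ) : ℝ := if n = m + 1 then θ else 0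

theorem dat_cont {n0 m : ℕ} {ρ : ℕ → ℝ} {b : K → C3} (k : K) :
    Continuous fun θ => dat n0 ρ (phs m θ) b k := by
  unfold dat
  by_cases h : lev n0 k
  · obtain ⟨n, h0, hn⟩ := h
    have e : (fun θ => ofl n0 (fun n => vl (ρ n) (phs m θ n)) b k) = fun θ => vl (ρ n) (phs m θ n) :=
      funext fun θ => ofl_lev _ _ h0 hn
    rw [e]
    refine (vl_cont _).comp ?_
    unfold phs
    split_ifs
    · exact continuous_id
    · exact continuous_const
  · have e : (fun θ => ofl n0 (fun n => vl (ρ n) (phs m θ n)) b k) = fun θ => b k :=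
      funext fun θ => ofl_not _ _ h
    rw [e]
    exact continuous_const

theorem trn_cont {n0 m : ℕ} {ρ : ℕ → ℝ} {b : K → C3} (F : Finset K) (k : K) :
    Continuous fun θ => trn F (dat n0 ρ (phs m θ) b) k := by
  unfold trn
  split_ifs
  · exact dat_cont k
  · exact continuous_const

theorem nonuniq_fourier {c A : ℝ} {κ ρ : ℕ → ℝ} {n0 : ℕ} (hch : Chain c A κ ρ n0) (hρ : ∀ n, 0 ≤ ρ n)
    (hρs : Summable ρ) (hρ0 : 0 < ρ n0) {b : K → C3} (hs : Sym b) (hd : ∀ k, dt k (b k) = 0)
    (hb : Summable fun k => nw (b k)) (hA : (∑' k, nw (b k)) + 2 * ∑' n, 2 * ρ (n + n0) ≤ A)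
    {y : ℝ} (hy : y ∈ Icc (-ρ n0) (ρ n0)) :
    ∃ u : Fam, LSol c κ (T0 c A) (dat n0 ρ (fun _ => 0) b) u ∧ th n0 (at' u (tau c n0)) = y := by
  have hc := hch.hc
  have hA0 := hch.hA
  set Fs : ℕ → Finset K := fun m => box (20 ^ (m + 1)) with hFs
  have hneg : ∀ m, ∀ k ∈ Fs m, -k ∈ Fs m := fun m k hk => box_neg hk
  choose Φ hΦ1 hΦ2 using fun m => gal_exists hc (kt κ m) (hneg m) hA0
  have hτ : tau c n0 ∈ Icc 0 (T0 c A) := ⟨(tau_pos hc n0).le, hch.tT.le⟩
  set am : ℕ → ℝ → K → C3 := fun m θ => trn (Fs m) (dat n0 ρ (phs m θ) b) with ham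
  have hdat : ∀ m θ, Dat (Fs m) A (am m θ) := fun m θ => trn_dat (c := c) hρ hρs hs hd hb (hneg m) hA
  have hmem : ∀ m n, n ≤ m + 1 → fk n ∈ Fs m := fun m n hn =>
    fk_mem_box (pow_le_pow_right₀ (by norm_num) hn)
  have hYY : ∀ m θ, YY (Fs m) (Φ m (am m θ)) 0 ≤ A := by
    intro m θ
    have h1 := (hΦ1 m _ (hdat m θ)).init
    unfold YY
    simp only [h1]
    exact (hdat m θ).size
  have hval : ∀ m θ n, n0 ≤ n → n ≤ m + 1 → am m θ (fk n) = vl (ρ n) (phs m θ n) := by
    intro m θ n h0 hn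
    simp only [ham]
    unfold trn dat
    rw [if_pos (hmem m n hn), ofl_lev _ _ h0 (Or.inl rfl)]
  -- the intermediate value theorem
  have hivt : ∀ m, n0 ≤ m → ∃ θ, th n0 (at' (Φ m (am m θ)) (tau c n0)) = y := by
    intro m hm
    have hcont : Continuous fun θ => th n0 (at' (Φ m (am m θ)) (tau c n0)) := by
      have h1 := hΦ2 m (am m) (hdat m) (fun k => trn_cont (Fs m) k) (fk n0) (tau c n0) hτ
      unfold th
      have h2 : Continuous fun θ => (Φ m (am m θ) (fk n0) (tau c n0) 2).re :=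
        Complex.continuous_re.comp ((continuous_apply 2).comp h1)
      exact continuous_const.mul h2
    have hsgn : ∀ σ θ : ℝ, (σ = 1 ∨ σ = -1) → 1 ≤ σ * θ ∧ σ * θ ≤ 2 →
        ρ n0 ≤ σ * th n0 (at' (Φ m (am m θ)) (tau c n0)) := by
      intro σ θ hσ hθ
      refine (hΦ1 m _ (hdat m θ)).th_sign hch (hYY m θ) hm (hmem m) hσ hθ ?_ ?_ hρ0
      · intro n h0 hn
        rw [hval m θ n h0 (by omega)]
        have : phs m θ n = 0 := if_neg (by omega)
        rw [this, vl_zero]
      · rw [hval m θ (m + 1) (by omega) le_rfl]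
        have : phs m θ (m + 1) = θ := if_pos rfl
        rw [this]; rfl
    have hpi1 : (1 : ℝ) ≤ Real.pi / 2 := by linarith [Real.pi_gt_three]
    have hpi2 : Real.pi / 2 ≤ 2 := by linarith [Real.pi_le_four]
    have h1 := hsgn 1 (Real.pi / 2) (Or.inl rfl) ⟨by linarith, by linarith⟩
    have h2 := hsgn (-1) (-(Real.pi / 2)) (Or.inr rfl) ⟨by linarith, by linarith⟩
    have := mem_range_of_exists_le_of_exists_ge hcont
      ⟨-(Real.pi / 2), show _ ≤ y by linarith [hy.1]⟩ ⟨Real.pi / 2, show y ≤ _ by linarith [hy.2]⟩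
    obtain ⟨θ, hθ⟩ := this
    exact ⟨θ, hθ⟩
  choose θ hθ using fun j => hivt (n0 + j) (Nat.le_add_right _ _)
  obtain ⟨φ, hφ, u, hu, hlim⟩ := lim_exists (c := c) (A := A) hc hA0 (κ := κ)
    (κs := fun j => kt κ (n0 + j)) (fun j n => kt_abs hch.kpos _ n)
    (fun n => by
      filter_upwards [eventually_ge_atTop n] with j hj
      exact kt_le (by omega))
    (Fs := fun j => Fs (n0 + j)) (fun k => by
      refine eventually_box k ?_
      have h1 : Tendsto (fun j => n0 + j + 1) atTop atTop :=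
        tendsto_atTop_mono (fun j => (by omega : j ≤ n0 + j + 1)) tendsto_id
      exact (tendsto_pow_atTop_atTop_of_one_lt (by norm_num : 1 < 20)).comp h1)
    (as := fun j => am (n0 + j) (θ j)) (a := dat n0 ρ (fun _ => 0) b)
    (fun k => by
      refine tendsto_const_nhds.congr' ?_
      have h1 : ∀ᶠ j in atTop, k ∈ Fs (n0 + j) := by
        refine eventually_box k ?_
        have h1 : Tendsto (fun j => n0 + j + 1) atTop atTop :=
          tendsto_atTop_mono (fun j => (by omega : j ≤ n0 + j + 1)) tendsto_id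
        exact (tendsto_pow_atTop_atTop_of_one_lt (by norm_num : 1 < 20)).comp h1
      by_cases h : lev n0 k
      · obtain ⟨n, h0, hn⟩ := h
        filter_upwards [h1, eventually_ge_atTop n] with j hj1 hj2
        simp only [ham]
        unfold trn dat
        rw [if_pos hj1, ofl_lev _ _ h0 hn, ofl_lev _ _ h0 hn]
        have : phs (n0 + j) (θ j) n = 0 := if_neg (by omega)
        rw [this]
      · filter_upwards [h1] with j hj1
        simp only [ham]
        unfold trn dat
        rw [if_pos hj1, ofl_not _ _ h, ofl_not _ _ h])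
    (α := dbd n0 ρ b) (dbd_sum hρs hb).summable
    (fun j k => by
      simp only [ham]
      unfold trn
      split_ifs
      · exact dat_le hρ k
      · have h1 : nw (0 : C3) = 0 := by simp [nw, el_zero_vec]
        rw [h1]
        exact (nw_nonneg _).trans (dat_le (φ := fun _ => 0) hρ k))
    (us := fun j => Φ (n0 + j) (am (n0 + j) (θ j))) (fun j => hΦ1 _ _ (hdat _ _)) (fun j => hYY _ _)
  refine ⟨u, hu, ?_⟩
  have h1 := hlim (fk n0) (tau c n0) hτ
  have h2 : Tendsto (fun j => th n0 (at' (Φ (n0 + φ j) (am (n0 + φ j) (θ (φ j)))) (tau c n0))) atTop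
      (𝓝 (th n0 (at' u (tau c n0)))) := by
    unfold th
    refine Tendsto.const_mul 2 ?_
    exact (Complex.continuous_re.tendsto _).comp (((continuous_apply 2).tendsto _).comp h1)
  have h3 : (fun j => th n0 (at' (Φ (n0 + φ j) (am (n0 + φ j) (θ (φ j)))) (tau c n0))) = fun _ => y :=
    funext fun j => hθ (φ j)
  rw [h3] at h2
  exact tendsto_nhds_unique h2 tendsto_const_nhds

end Pool.Agent.N980.NU
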