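import Pool.Agent.N980.NU.Main

/-!
The properties of the rotation term.
-/

open MeasureTheory Set Filter Topology

namespace Pool.Agent.N980.NU

/-- The properties of the operator `K`. -/
structure KProps (lam : ℕ → ℝ) : Prop where
  spv : ∀ u v, SPV u → SPV v → SPV (Kop lam u v)
  divfree : ∀ u v, SPV u → SPV v → ∀ x, dv (Kop lam u v) x = 0
  add_left : ∀ u u' v, SPV u → SPV u' → SPV v → Kop lam (u + u') v = Kop lam u v + Kop lam u' v
  add_right : ∀ u v v', SPV u → SPV v → SPV v' → Kop lam u (v + v') = Kop lam u v + Kop lam u v'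
  smul_left : ∀ (r : ℝ) u v, SPV u → SPV v → Kop lam (r • u) v = r • Kop lam u v
  smul_right : ∀ (r : ℝ) u v, SPV u → SPV v → Kop lam u (r • v) = r • Kop lam u v
  skew : ∀ u v w, SPV u → SPV v → SPV w → ip (Kop lam u v) w = -ip v (Kop lam u w)
  lap : ∀ u v, SPV u → SPV v → Kop lam u (lap v) = NU.lap (Kop lam u v)
  curl : ∀ u v, SPV u → SPV v → Kop lam u (curl v) = NU.curl (Kop lam u v)
  bound : ∀ s₁ s₂ s₃ M : ℝ, 0 ≤ s₁ → 0 ≤ s₂ → 0 ≤ s₃ →
    (∀ n, lam n ≤ M * (2 * Real.pi * 20 ^ n) ^ (s₁ + s₂ + s₃ - 2)) →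
    ∀ u v w, SPV u → SPV v → SPV w → |ip (Kop lam u v) w| ≤ 2 * M * hs s₁ u * hs s₂ v * hs s₃ w

theorem kprops {lam : ℕ → ℝ} (hp : ∀ n, 0 < lam n) (hg : Tendsto (fun n => lam n / 20 ^ n) atTop (𝓝 0)) :
    KProps lam where
  spv := fun _ _ hu hv => SPV_Kop (PG_kap hp hg) hu hv
  divfree := fun _ _ hu hv => dv_Kop (PG_kap hp hg) hu hv
  add_left := fun _ _ _ hu hu' hv => Kop_add_left (PG_kap hp hg) hu hu' hv
  add_right := fun _ _ _ hu hv hv' => Kop_add_right (PG_kap hp hg) hu hv hv'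
  smul_left := fun r _ _ hu hv => Kop_smul_left (PG_kap hp hg) r hu hv
  smul_right := fun r _ _ hu hv => Kop_smul_right (PG_kap hp hg) r hu hv
  skew := fun _ _ _ hu hv hw => Kop_skew (PG_kap hp hg) hu hv hw
  lap := fun _ _ hu hv => Kop_lap (PG_kap hp hg) hu hv
  curl := fun _ _ hu hv => Kop_curl (PG_kap hp hg) hu hv
  bound := fun _ _ _ _ h1 h2 h3 hM _ _ _ hu hv hw =>
    Kop_bound (PG_kap hp hg) (fun n => (hp n).le) hu hv hw h1 h2 h3 hM

end Pool.Agent.N980.NU
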