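import Pool.Agent.N980.NU.Lim

/-!
Smoothing: the coefficients decay rapidly for positive times.
-/

open MeasureTheory Set Filter Topology

set_option linter.unusedVariables false

namespace Pool.Agent.N980.NU

open Pool.Agent.H356R3.NS

theorem pw_le_nk {k : K} (hk : k ≠ 0) : pw k ≤ 4 * nk k := by
  have h1 := one_le_nk hk
  have h2 : l1 k ≤ 3 * nk k := by
    unfold l1
    calc ∑ i, |(k i : ℝ)| ≤ ∑ i : Fin 3, nk k := Finset.sum_le_sum fun i _ => abs_le_nk k i
      _ = 3 * nk k := by simp
  unfold pw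
  linarith

theorem pw_zero : pw 0 = 1 := by simp [pw, l1]

theorem mul_exp_neg_le (x : ℝ) : x * Real.exp (-x) ≤ 1 := by
  have h1 := Real.add_one_le_exp x
  rw [Real.exp_neg, ← div_eq_mul_inv, div_le_one (Real.exp_pos x)]
  linarith

theorem cc_pw {b : K → ℝ} (hb : Summable b) (b0 : ∀ k, 0 ≤ b k) (s : ℕ) (k : K) :
    pw k ^ s * cc (fun l => b l / pw l ^ s) (fun l => b l / pw l ^ s) k ≤ cc b b k := by
  have hp : ∀ k, 0 < pw k ^ s := fun k => pow_pos (pw_pos k) s
  have hle : ∀ l, b l / pw l ^ s ≤ b l := fun l =>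
    div_le_self (b0 l) (one_le_pow₀ (one_le_pw l))
  have hn : ∀ l, 0 ≤ b l / pw l ^ s := fun l => div_nonneg (b0 l) (hp l).le
  have hs : Summable fun l => b l / pw l ^ s := hb.of_nonneg_of_le hn hle
  unfold cc
  rw [← tsum_mul_left]
  refine ((cc_term_summ hs hs hn hn k).mul_left _).tsum_le_tsum (fun l => ?_) (cc_term_summ hb hb b0 b0 k)
  have h1 : pw k ^ s ≤ pw l ^ s * pw (k - l) ^ s := by
    rw [← mul_pow]; exact pow_le_pow_left₀ (pw_pos k).le (pw_sub k l) s
  calc pw k ^ s * (b l / pw l ^ s * (b (k - l) / pw (k - l) ^ s))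
      ≤ (pw l ^ s * pw (k - l) ^ s) * (b l / pw l ^ s * (b (k - l) / pw (k - l) ^ s)) :=
        mul_le_mul_of_nonneg_right h1 (mul_nonneg (hn _) (hn _))
    _ = b l * b (k - l) := by
        have h2 := (hp l).ne'
        have h3 := (hp (k - l)).ne'
        field_simp

variable {c T : ℝ} {κ : ℕ → ℝ} {a : K → C3} {u : Fam}

/-- Rapid decay for positive times. -/
theorem LSol.smooth (h : LSol c κ T a u) (hc : 0 < c) (s : ℕ) :
    ∀ t1, 0 < t1 → ∃ b : K → ℝ, Summable b ∧ (∀ k, 0 ≤ b k) ∧
      ∀ k, ∀ t ∈ Icc t1 T, pw k ^ s * nw (u k t) ≤ b k := by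
  induction s with
  | zero =>
    intro t1 ht1
    obtain ⟨B, hB, hd⟩ := h.dom
    refine ⟨fun k => |B k|, hB.abs, fun k => abs_nonneg _, fun k t ht => ?_⟩
    rw [pow_zero, one_mul]
    exact (hd k t ⟨ht1.le.trans ht.1, ht.2⟩).trans (le_abs_self _)
  | succ s ih =>
    intro t1 ht1
    obtain ⟨b, hb, hb0, hbd⟩ := ih (t1 / 2) (by positivity)
    have hp : ∀ k, 0 < pw k ^ s := fun k => pow_pos (pw_pos k) s
    set b1 : K → ℝ := fun l => b l / pw l ^ s with hb1
    have hb10 : ∀ l, 0 ≤ b1 l := fun l => div_nonneg (hb0 l) (hp l).le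
    have hb1s : Summable b1 := hb.of_nonneg_of_le hb10 fun l =>
      div_le_self (hb0 l) (one_le_pow₀ (one_le_pw l))
    have hub : ∀ k, ∀ t ∈ Icc (t1 / 2) T, nw (u k t) ≤ b1 k := by
      intro k t ht
      rw [hb1, le_div_iff₀ (hp k), mul_comm]
      exact hbd k t ht
    have hC := C1_pos
    refine ⟨fun k => b k + (8 / (c * t1) * b k + 4 * C1 / c * cc b b k), ?_, fun k => ?_, ?_⟩
    · exact hb.add ((hb.mul_left _).add ((cc_summ hb hb hb0 hb0).mul_left _))
    · have := hb0 k
      have := cc_nonneg hb0 hb0 k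
      positivity
    · intro k t ht
      have ht2 : t ∈ Icc (t1 / 2) T := ⟨by linarith [ht.1], ht.2⟩
      have hT2 : t1 / 2 ≤ T := ht2.1.trans ht2.2
      have hcc := cc_nonneg hb0 hb0 k
      by_cases hk : k = 0
      · subst hk
        have h1 := hbd 0 t ht2
        rw [pw_zero, one_pow, one_mul] at h1 ⊢
        have := hb0 0
        have : 0 ≤ 8 / (c * t1) * b 0 + 4 * C1 / c * cc b b 0 := by positivity
        linarith
      · have hn := one_le_nk hk
        have hn0 : 0 < nk k := by linarith
        set μ := c * nk k ^ 2 with hμ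
        have hμ0 : 0 < μ := by positivity
        have hm := (h.mode k).mono (a' := t1 / 2) (T' := T) (by positivity) le_rfl
        have h1 := hm.decay ht2
        have hBf : ∀ r ∈ Icc (t1 / 2) T, nw (Bf (at' u r) (at' u r) k)
            ≤ C1 * nk k * cc b1 b1 k := by
          intro r hr
          have hs : Summable fun k => nw (at' u r k) :=
            hb1s.of_nonneg_of_le (fun _ => nw_nonneg _) fun k => hub k r hr
          refine (nw_Bf_le hs k).trans ?_
          refine mul_le_mul_of_nonneg_left ?_ (mul_nonneg C1_pos.le (nk_nonneg k))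
          exact cc_mono hb1s hb1s (fun _ => nw_nonneg _) (fun _ => nw_nonneg _)
            (fun k => hub k r hr) (fun k => hub k r hr) k
        have hcc1 := cc_nonneg hb10 hb10 k
        have h2 := gD_le_const hμ0 (nw_continuous.comp_continuousOn hm.bcont) hBf
          (mul_nonneg (mul_nonneg C1_pos.le (nk_nonneg k)) hcc1) ht2
        have h3 := hub k (t1 / 2) ⟨le_rfl, hT2⟩
        have h4 : Real.exp (-(μ * (t - t1 / 2))) ≤ Real.exp (-(μ * (t1 / 2))) := by
          apply Real.exp_le_exp.2
          have : μ * (t1 / 2) ≤ μ * (t - t1 / 2) := mul_le_mul_of_nonneg_left (by linarith [ht.1]) hμ0.le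
          linarith
        have h5 : pw k * Real.exp (-(μ * (t1 / 2))) ≤ 8 / (c * t1) := by
          have h6 := mul_exp_neg_le (μ * (t1 / 2))
          have h7 : pw k ≤ 4 * nk k ^ 2 := by
            have := pw_le_nk hk
            nlinarith
          have h8 : pw k * Real.exp (-(μ * (t1 / 2))) ≤ 4 * nk k ^ 2 * Real.exp (-(μ * (t1 / 2))) :=
            mul_le_mul_of_nonneg_right h7 (Real.exp_nonneg _)
          refine h8.trans ?_
          rw [le_div_iff₀ (by positivity)]
          calc 4 * nk k ^ 2 * Real.exp (-(μ * (t1 / 2))) * (c * t1)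
              = 8 * (μ * (t1 / 2) * Real.exp (-(μ * (t1 / 2)))) := by rw [hμ]; ring
            _ ≤ 8 * 1 := by gcongr
            _ = 8 := by ring
        have h9 : pw k ^ (s + 1) * nw (u k t) ≤ pw k ^ (s + 1) *
            (Real.exp (-(μ * (t1 / 2))) * b1 k + C1 * nk k * cc b1 b1 k / μ) := by
          refine mul_le_mul_of_nonneg_left ?_ (pow_pos (pw_pos k) _).le
          refine h1.trans (add_le_add ?_ h2)
          exact mul_le_mul h4 h3 (nw_nonneg _) (Real.exp_nonneg _)
        refine h9.trans ?_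
        have h10 : pw k ^ (s + 1) * (Real.exp (-(μ * (t1 / 2))) * b1 k)
            = (pw k * Real.exp (-(μ * (t1 / 2)))) * b k := by
          have := (hp k).ne'
          rw [hb1]
          simp only
          field_simp
          ring
        have h11 : pw k ^ (s + 1) * (C1 * nk k * cc b1 b1 k / μ)
            = (C1 / c) * (pw k / nk k) * (pw k ^ s * cc b1 b1 k) := by
          rw [hμ]
          field_simp
          ring
        rw [mul_add, h10, h11]
        have h12 : pw k / nk k ≤ 4 := by
          rw [div_le_iff₀ hn0]; exact pw_le_nk hk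
        have h13 : pw k ^ s * cc b1 b1 k ≤ cc b b k := cc_pw hb hb0 s k
        have h14 : (C1 / c) * (pw k / nk k) * (pw k ^ s * cc b1 b1 k)
            ≤ (C1 / c) * 4 * cc b b k := by
          have h15 : 0 ≤ pw k ^ s * cc b1 b1 k := mul_nonneg (hp k).le hcc1
          have h16 : 0 < C1 / c := by positivity
          exact mul_le_mul (mul_le_mul_of_nonneg_left h12 h16.le) h13 h15 (by positivity)
        have h17 := mul_le_mul_of_nonneg_right h5 (hb0 k)
        have h18 := hb0 k
        calc _ ≤ 8 / (c * t1) * b k + (C1 / c) * 4 * cc b b k := add_le_add h17 h14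
          _ = 0 + (8 / (c * t1) * b k + 4 * C1 / c * cc b b k) := by ring
          _ ≤ _ := add_le_add h18 le_rfl

end Pool.Agent.N980.NU
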