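import Mathlib

/-!
The Navier-Stokes equations with an additional bilinear rotation term: definitions.
-/

open MeasureTheory Set
open scoped ContDiff

namespace Pool.Agent.N980.NU

/-- The space `ℝ³`. -/
abbrev V := Fin 3 → ℝ

/-- The period cell. -/
def cube : Set V := Icc 0 1

/-- Smooth vector fields that are `1`-periodic in each coordinate. -/
def SPV (v : V → V) : Prop := ContDiff ℝ ∞ v ∧ ∀ x (j : Fin 3), v (x + Pi.single j 1) = v x

/-- The partial derivative `∂f/∂x_j`. -/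
noncomputable def pd (j : Fin 3) (f : V → ℝ) (x : V) : ℝ := fderiv ℝ f x (Pi.single j 1)

/-- The divergence. -/
noncomputable def dv (v : V → V) (x : V) : ℝ := ∑ j, pd j (fun y => v y j) x

/-- The Laplacian of a vector field. -/
noncomputable def lap (v : V → V) (x : V) : V := fun i => ∑ j, pd j (pd j fun y => v y i) x

/-- The curl. -/
noncomputable def curl (v : V → V) (x : V) : V :=
  ![pd 1 (fun y => v y 2) x - pd 2 (fun y => v y 1) x,
    pd 2 (fun y => v y 0) x - pd 0 (fun y => v y 2) x,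
    pd 0 (fun y => v y 1) x - pd 1 (fun y => v y 0) x]

/-- The inner product `∫ v · w` over the period cell. -/
noncomputable def ip (v w : V → V) : ℝ := ∫ x in cube, ∑ i, v x i * w x i

/-- The coefficient `2 ∫ u₃(y) cos(2πN y₁) dy` of the field `u`. -/
noncomputable def theta (N : ℕ) (u : V → V) : ℝ :=
  2 * ∫ y in cube, u y 2 * Real.cos (2 * Real.pi * (N * y 0))

/-- The part of `v` with frequencies `± (N,0,0)`. -/
noncomputable def proj (N : ℕ) (v : V → V) (x : V) : V := fun i =>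
  2 * ∫ y in cube, v y i * Real.cos (2 * Real.pi * (N * (x 0 - y 0)))

/-- `e₁ × a`. -/
def rot (a : V) : V := ![0, -a 2, a 1]

/-- The bilinear operator
`K(u,v) = ∑ₙ λₙ (2π 20ⁿ)² θ_{20^(n+1)}(u) e₁ × P_{20ⁿ} v`. -/
noncomputable def Kop (lam : ℕ → ℝ) (u v : V → V) (x : V) : V :=
  ∑' n : ℕ, (lam n * (2 * Real.pi * 20 ^ n) ^ 2 * theta (20 ^ (n + 1)) u) • rot (proj (20 ^ n) v x)

/-- The Fourier coefficients `∫ v_i(x) exp(-2πi k·x) dx`. -/
noncomputable def fco (v : V → V) (k : Fin 3 → ℤ) (i : Fin 3) : ℂ :=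
  ∫ x in cube, (v x i : ℂ) * Complex.exp (-(2 * Real.pi * Complex.I * ∑ j, (k j : ℂ) * (x j : ℂ)))

/-- The homogeneous Sobolev norm `(∑ₖ (2π|k|)^(2s) |v̂(k)|²)^(1/2)`. -/
noncomputable def hs (s : ℝ) (v : V → V) : ℝ :=
  Real.sqrt (∑' k : Fin 3 → ℤ,
    (2 * Real.pi * Real.sqrt (∑ j, (k j : ℝ) ^ 2)) ^ (2 * s) * ∑ i, ‖fco v k i‖ ^ 2)

/-- The kinetic energy (times two) and the dissipation over the period cell. -/
noncomputable def energy (v : V → V) : ℝ := ∫ x in cube, ∑ i, v x i ^ 2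

noncomputable def dissip (v : V → V) : ℝ := ∫ x in cube, ∑ i, ∑ j, pd j (fun y => v y i) x ^ 2

/-- `(u,p)` is a classical solution on `[0,T)` of the Navier-Stokes equations with the additional
term `K(u,u)`: `u` is continuous on `[0,T) × ℝ³`; `u` and `p` are `C^∞` on `(0,T) × ℝ³`, periodic,
`div u = 0` and `∂ₜuᵢ + ∑ⱼ uⱼ ∂ⱼuᵢ = ν Δuᵢ - ∂ᵢp + K(u,u)ᵢ` there; the energy equality holds. -/
structure IsSol (ν : ℝ) (lam : ℕ → ℝ) (T : ℝ) (u : ℝ → V → V) (p : ℝ → V → ℝ) : Prop where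
  cont : ContinuousOn (fun z : ℝ × V => u z.1 z.2) (Ico 0 T ×ˢ univ)
  smooth_u : ContDiffOn ℝ ∞ (fun z : ℝ × V => u z.1 z.2) (Ioo 0 T ×ˢ univ)
  smooth_p : ContDiffOn ℝ ∞ (fun z : ℝ × V => p z.1 z.2) (Ioo 0 T ×ˢ univ)
  per_u : ∀ t ∈ Ico 0 T, ∀ x (j : Fin 3), u t (x + Pi.single j 1) = u t x
  per_p : ∀ t ∈ Ioo 0 T, ∀ x (j : Fin 3), p t (x + Pi.single j 1) = p t x
  divfree : ∀ t ∈ Ioo 0 T, ∀ x, dv (u t) x = 0
  momentum : ∀ t ∈ Ioo 0 T, ∀ x i,
    deriv (fun s => u s x i) t + ∑ j, u t x j * pd j (fun y => u t y i) x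
      = ν * lap (u t) x i - pd i (p t) x + Kop lam (u t) (u t) x i
  energy_eq : ∀ t ∈ Ico 0 T,
    energy (u t) + 2 * ν * ∫ s in (0 : ℝ)..t, dissip (u s) = energy (u 0)

end Pool.Agent.N980.NU
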